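import Pool.Agent.Q270.EY.Dil

/-!
Project EY (helper270): weighted means over boxes.
-/

set_option autoImplicit false

namespace Pool.Agent.Q270.EY

open Finset Filter Topology Pool.Agent.Q270.EA Pool.Agent.Q270.EB Pool.Agent.Q270.EC Pool.Agent.Q119.EA
open Pool.Agent.Q270.EV Pool.Agent.Q270.EW
open Pool.Agent.Q270.EH (card_gap card_near cnt cnt_eq cnt_mono cnt_ex nz sparse)

variable {s k : ℕ}

lemma norm_bav' (χ : (Fin s → ℤ) → ℂ) (u : Fin s → ℤ) (q : ℕ) (hq : 1 ≤ q) (B : ℝ)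
    (h : ∀ X ∈ Bx u q, ‖χ X‖ ≤ B) : ‖bav χ u q‖ ≤ B := by
  have hq0 : (0 : ℝ) < (q : ℝ) ^ s := by
    have : (0 : ℝ) < q := by exact_mod_cast hq
    positivity
  unfold bav
  rw [norm_div, norm_pow, Complex.norm_natCast, div_le_iff₀ hq0]
  refine (norm_sum_le _ _).trans ((sum_le_sum h).trans ?_)
  rw [sum_const, card_Bx, nsmul_eq_mul]
  push_cast
  rw [mul_comm]

/-- the weights of the parts of a box -/
noncomputable def Wq (W : Wt s) (q : ℕ) (ρ : Fin s → ℕ) : Wt s where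
  w := fun x => W.w (fun i => ((ρ i : ℝ) + x i) / q)
  L := W.L
  L0 := W.L0
  le := fun _ => W.le _
  lip := fun x y => by
    refine (W.lip _ _).trans (mul_le_mul_of_nonneg_left (sum_le_sum fun i _ => ?_) W.L0)
    rcases Nat.eq_zero_or_pos q with h0 | h0
    · subst h0
      simp
    · have hq0 : (1 : ℝ) ≤ q := by exact_mod_cast h0
      have e1 : ((ρ i : ℝ) + x i) / q - ((ρ i : ℝ) + y i) / q = (x i - y i) / q := by ring
      rw [e1, abs_div, abs_of_pos (by linarith : (0 : ℝ) < q)]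
      exact div_le_self (abs_nonneg _) hq0

/-- the function on the dilated variable, averaged over a box -/
noncomputable def ThW (G : DatO s k) (W : Wt s) (g : Fin k → ℕ → ℂ) (q p : ℕ) (r : Fin s → ℕ) (n : ℕ) : ℂ :=
  (∑ ρ ∈ Rs s q, psiW (GZ G (zq G q ρ)) (Wq W q ρ) one g p r n) / (q : ℂ) ^ s

lemma norm_ThW (G : DatO s k) (W : Wt s) (g : Fin k → ℕ → ℂ) (hg : ∀ j n, ‖g j n‖ ≤ 1) (q : ℕ) (hq : 1 ≤ q) (p : ℕ)
    (r : Fin s → ℕ) (n : ℕ) : ‖ThW G W g q p r n‖ ≤ 1 :=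
  norm_avR q hq _ 1 fun _ => norm_psiW _ _ _ _ norm_one' hg _ _ _

/-- the mean of `ThW` over the residues is a weighted mean over a box -/
lemma avg_ThW (G : DatO s k) (W : Wt s) (g : Fin k → ℕ → ℂ) (q p : ℕ) (hp : 1 ≤ p) (hq : 1 ≤ q) (n : ℕ) :
    (∑ r ∈ Rs s p, ThW G W g q p r n) / (p : ℂ) ^ s =
      bav (fun X => Wb W (Uz G.α G.β n + ofs G q p) (p * q) X * PsH G.a g n X) (Uz G.α G.β n + ofs G q p) (p * q) := by
  have hp0 : (p : ℝ) ≠ 0 := by
    have : (p : ℝ) > 0 := by exact_mod_cast hp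
    exact this.ne'
  have hq0 : (q : ℝ) ≠ 0 := by
    have : (q : ℝ) > 0 := by exact_mod_cast hq
    exact this.ne'
  have h1 : (∑ r ∈ Rs s p, ThW G W g q p r n) / (p : ℂ) ^ s =
      (∑ ρ ∈ Rs s q, (∑ r ∈ Rs s p, psiW (GZ G (zq G q ρ)) (Wq W q ρ) one g p r n) / (p : ℂ) ^ s) / (q : ℂ) ^ s := by
    unfold ThW
    rw [← sum_div, sum_comm, ← sum_div, div_div, div_div, mul_comm ((q : ℂ) ^ s)]
  rw [h1]
  have h2 : ∀ ρ, (∑ r ∈ Rs s p, psiW (GZ G (zq G q ρ)) (Wq W q ρ) one g p r n) / (p : ℂ) ^ s =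
      (∑ ρ' ∈ Rs s p, (fun X => Wb W (Uz G.α G.β n + ofs G q p) (p * q) X * PsH G.a g n X)
        (fun i => (Uz G.α G.β n + ofs G q p) i - ((ρ' i + p * ρ i : ℕ) : ℤ))) / (p : ℂ) ^ s := by
    intro ρ
    rw [avg_psiW _ _ _ _ p hp]
    unfold bav
    rw [sum_Bx]
    congr 1
    refine sum_congr rfl fun ρ' _ => ?_
    rw [Ff_one]
    congr 1
    · unfold Wb Wq
      dsimp only
      congr 1
      funext i
      change ((ρ i : ℝ) + (((Uz G.α G.β n i + bq G.β p i) - ((Uz G.α G.β n i + bq G.β p i) - (ρ' i : ℤ)) : ℤ) : ℝ) / p) / q = _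
      push_cast
      field_simp
      ring
    · congr 1
      funext i
      unfold zq ofs
      simp only [Pi.add_apply]
      change Uz G.α G.β n i + bq G.β p i - (ρ' i : ℤ) + p * (bq G.β q i + q * G.z i - (ρ i : ℤ)) = _
      push_cast
      ring
  rw [sum_congr rfl fun ρ _ => h2 ρ, ← sum_div, digits hp (fun r =>
    (fun X => Wb W (Uz G.α G.β n + ofs G q p) (p * q) X * PsH G.a g n X)
    (fun i => (Uz G.α G.β n + ofs G q p) i - ((r i : ℕ) : ℤ)))]
  unfold bav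
  rw [sum_Bx, div_div]
  push_cast
  rw [mul_pow]

/-- the weighted mean over the tube, as a function of the label -/
noncomputable def TTW (G : DatO s k) (W : Wt s) (g : Fin k → ℕ → ℂ) (q N : ℕ) : ℂ :=
  (∑ ρ ∈ Rs s q, AvN N (phiW (GZ G (zq G q ρ)) (Wq W q ρ) one g)) / (q : ℂ) ^ s

lemma norm_TTW (G : DatO s k) (W : Wt s) (g : Fin k → ℕ → ℂ) (hg : ∀ j n, ‖g j n‖ ≤ 1) (q : ℕ) (hq : 1 ≤ q) (N : ℕ) :
    ‖TTW G W g q N‖ ≤ 1 :=
  norm_avR q hq _ 1 fun _ => norm_AvN_le (fun _ => norm_phiW _ _ _ _ norm_one' hg _) N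

lemma TTW_eq (G : DatO s k) (W : Wt s) (g : Fin k → ℕ → ℂ) (q N : ℕ) :
    TTW G W g q N = (1 / (N : ℂ)) * ∑ n ∈ Icc 1 N, bav (fun X =>
      W.w (fun i => ((((Uz G.α G.β n + of1 G q) i - X i : ℤ) : ℝ) + fr G.α G.β n i) / q) * PsH G.a g n X)
      (Uz G.α G.β n + of1 G q) q := by
  unfold TTW AvN bav
  rw [← mul_sum, sum_comm, mul_div_assoc, sum_div]
  congr 1
  refine sum_congr rfl fun n _ => ?_
  rw [sum_Bx]
  congr 1
  refine sum_congr rfl fun ρ _ => ?_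
  unfold phiW
  rw [phi_GZ]
  congr 1
  · unfold Wq
    dsimp only
    congr 1
    funext i
    change ((ρ i : ℝ) + fr G.α G.β n i) / q = _
    congr 2
    push_cast
    ring
  · congr 1
    funext i
    unfold zq of1
    simp only [Pi.add_apply]
    ring

/-- the weighted mean over the combined box, as a function of the label -/
noncomputable def VVW (G : DatO s k) (W : Wt s) (g : Fin k → ℕ → ℂ) (q p N : ℕ) : ℂ :=
  (1 / (N : ℂ)) * ∑ n ∈ Icc 1 N, bav (fun X => Wb W (Uz G.α G.β n + ofs G q p) (p * q) X * PsH G.a g n X)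
    (Uz G.α G.β n + ofs G q p) (p * q)

lemma norm_WP (W : Wt s) (O : Fin s → ℤ) (q : ℕ) (a : Fin k → ℤ × (Fin s → ℤ)) (g : Fin k → ℕ → ℂ)
    (hg1 : ∀ j n, ‖g j n‖ ≤ 1) (n : ℤ) (X : Fin s → ℤ) : ‖Wb W O q X * PsH a g n X‖ ≤ 1 := by
  rw [norm_mul]
  exact mul_le_one₀ (norm_Wb _ _ _ _) (norm_nonneg _) (norm_PsH _ _ hg1 _ _)

lemma norm_VVW (G : DatO s k) (W : Wt s) (g : Fin k → ℕ → ℂ) (hg1 : ∀ j n, ‖g j n‖ ≤ 1) (q p N : ℕ) (hq : 1 ≤ q) (hp : 1 ≤ p) :
    ‖VVW G W g q p N‖ ≤ 1 :=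
  norm_AvN_le (fun n => norm_bav _ _ _ (Nat.mul_pos hp hq) 1 (norm_WP _ _ _ _ _ hg1 _)) N

lemma VVW_near (G : DatO s k) (W : Wt s) (g gt : Fin k → ℕ → ℂ) (hg1 : ∀ j n, ‖g j n‖ ≤ 1) (hgt1 : ∀ j n, ‖gt j n‖ ≤ 1)
    (τ : ℝ) (hτ : ∀ j n, ‖gt j n - g j n‖ ≤ τ) (hτ0 : 0 ≤ τ) (q p N : ℕ) (hq : 1 ≤ q) (hp : 1 ≤ p) :
    ‖VVW G W gt q p N - VVW G W g q p N‖ ≤ k * τ := by
  have h1 : ∀ n : ℤ, ∀ X, ‖PsH G.a gt n X - PsH G.a g n X‖ ≤ k * τ := by
    intro n X
    unfold PsH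
    have h9 := norm_prod_sub_le univ (fun j => gt j (lin (G.a j) n X).toNat)
      (fun j => g j (lin (G.a j) n X).toNat) (fun j _ => hgt1 _ _) (fun j _ => hg1 _ _)
      (fun j _ => hτ j _)
    rwa [card_univ, Fintype.card_fin] at h9
  have h2 : ∀ n : ℕ, ‖bav (fun X => Wb W (Uz G.α G.β n + ofs G q p) (p * q) X * PsH G.a gt n X) (Uz G.α G.β n + ofs G q p) (p * q) -
      bav (fun X => Wb W (Uz G.α G.β n + ofs G q p) (p * q) X * PsH G.a g n X) (Uz G.α G.β n + ofs G q p) (p * q)‖ ≤ k * τ := by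
    intro n
    have e1 : bav (fun X => Wb W (Uz G.α G.β n + ofs G q p) (p * q) X * PsH G.a gt n X) (Uz G.α G.β n + ofs G q p) (p * q) -
      bav (fun X => Wb W (Uz G.α G.β n + ofs G q p) (p * q) X * PsH G.a g n X) (Uz G.α G.β n + ofs G q p) (p * q) =
      bav (fun X => Wb W (Uz G.α G.β n + ofs G q p) (p * q) X * (PsH G.a gt n X - PsH G.a g n X)) (Uz G.α G.β n + ofs G q p) (p * q) := by
      unfold bav
      rw [← sub_div, ← sum_sub_distrib]
      congr 1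
      exact sum_congr rfl fun X _ => by ring
    rw [e1]
    refine norm_bav _ _ _ (Nat.mul_pos hp hq) _ fun X => ?_
    rw [norm_mul]
    exact (mul_le_of_le_one_left (norm_nonneg _) (norm_Wb _ _ _ _)).trans (h1 n X)
  unfold VVW
  rw [← mul_sub, ← sum_sub_distrib, norm_mul, norm_div, norm_one, Complex.norm_natCast]
  rcases Nat.eq_zero_or_pos N with h0 | h0
  · subst h0
    simp
    positivity
  · have hN0 : (0 : ℝ) < N := by exact_mod_cast h0
    rw [div_mul_eq_mul_div, one_mul, div_le_iff₀ hN0]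
    refine (norm_sum_le _ _).trans ((sum_le_sum fun n _ => h2 n).trans ?_)
    rw [sum_const, Nat.card_Icc, Nat.add_sub_cancel, nsmul_eq_mul, mul_comm]

/-- the two weights on the same box -/
lemma VTW_one (G : DatO s k) (W : Wt s) (g : Fin k → ℕ → ℂ) (hg : ∀ j n, ‖g j n‖ ≤ 1) (p N : ℕ) (hp : 1 ≤ p) :
    ‖VVW G W g 1 p N - TTW G W g p N‖ ≤ W.L * (s * (1 / p)) := by
  have hp0 : (0 : ℝ) < p := by exact_mod_cast hp
  have hL0 := W.L0
  have hb : ∀ n : ℕ, ‖bav (fun X => Wb W (Uz G.α G.β n + ofs G 1 p) (p * 1) X * PsH G.a g n X) (Uz G.α G.β n + ofs G 1 p) (p * 1) -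
      bav (fun X =>
      W.w (fun i => ((((Uz G.α G.β n + of1 G p) i - X i : ℤ) : ℝ) + fr G.α G.β n i) / p) * PsH G.a g n X)
      (Uz G.α G.β n + of1 G p) p‖ ≤ W.L * (s * (1 / p)) := by
    intro n
    have h1 : ofs G 1 p = of1 G p := by
      funext i
      unfold ofs of1
      rw [bq_one]
      simp
    rw [h1, mul_one]
    have e1 : bav (fun X => Wb W (Uz G.α G.β n + of1 G p) p X * PsH G.a g n X) (Uz G.α G.β n + of1 G p) p -
        bav (fun X => W.w (fun i => ((((Uz G.α G.β n + of1 G p) i - X i : ℤ) : ℝ) + fr G.α G.β n i) / p) * PsH G.a g n X)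
          (Uz G.α G.β n + of1 G p) p =
        bav (fun X => (Wb W (Uz G.α G.β n + of1 G p) p X -
          W.w (fun i => ((((Uz G.α G.β n + of1 G p) i - X i : ℤ) : ℝ) + fr G.α G.β n i) / p)) * PsH G.a g n X)
          (Uz G.α G.β n + of1 G p) p := by
      unfold bav
      rw [← sub_div, ← sum_sub_distrib]
      congr 1
      exact sum_congr rfl fun X _ => by ring
    rw [e1]
    refine norm_bav _ _ _ hp _ fun X => ?_
    rw [norm_mul]
    refine (mul_le_of_le_one_right (norm_nonneg _) (norm_PsH _ _ hg _ _)).trans ?_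
    refine W.near _ _ _ fun i => ?_
    have e2 : (((Uz G.α G.β n + of1 G p) i - X i : ℤ) : ℝ) / p -
        ((((Uz G.α G.β n + of1 G p) i - X i : ℤ) : ℝ) + fr G.α G.β n i) / p = -(fr G.α G.β n i / p) := by ring
    rw [e2, abs_neg, abs_div, abs_of_pos hp0]
    gcongr
    obtain ⟨f1, f2⟩ := fr_mem G.α G.β n i
    rw [abs_of_nonneg f1]
    exact f2.le
  rw [TTW_eq]
  unfold VVW
  rw [← mul_sub, ← sum_sub_distrib, norm_mul, norm_div, norm_one, Complex.norm_natCast]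
  rcases Nat.eq_zero_or_pos N with h0 | h0
  · subst h0
    simp
    positivity
  · have hN0 : (0 : ℝ) < N := by exact_mod_cast h0
    rw [div_mul_eq_mul_div, one_mul, div_le_iff₀ hN0]
    refine (norm_sum_le _ _).trans ((sum_le_sum fun n _ => hb n).trans ?_)
    rw [sum_const, Nat.card_Icc, Nat.add_sub_cancel, nsmul_eq_mul, mul_comm]

/-- the combined box is close to a box -/
lemma VTW_cmp (G : DatO s k) (W : Wt s) (g : Fin k → ℕ → ℂ) (hg : ∀ j n, ‖g j n‖ ≤ 1) (B : ℝ) (hB : ∀ i, G.β i + |(G.z i : ℝ)| ≤ B)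
    (hB0 : 0 ≤ B) (p q P : ℕ) (hp : 1 ≤ p) (hq : 1 ≤ q) (δ : ℝ)
    (hδ1 : |(P : ℝ) - p * q| ≤ δ * (p * q)) (κ : ℝ) (hκ : δ * (B + 1) + 5 / q ≤ κ) (hκ2 : κ ≤ 1 / 2)
    (N : ℕ) (hN : 1 ≤ N) :
    ‖VVW G W g q p N - TTW G W g P N‖ ≤ 12 * s * κ + W.L * (s * (3 * κ)) := by
  have hL0 := W.L0
  have hp0 : (0 : ℝ) < p := by exact_mod_cast hp
  have hq0 : (0 : ℝ) < q := by exact_mod_cast hq
  have hp1 : (1 : ℝ) ≤ p := by exact_mod_cast hp
  have hpq0 : (0 : ℝ) < p * q := by positivity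
  have hδ0 : 0 ≤ δ := by
    have := (abs_nonneg _).trans hδ1
    by_contra h
    push Not at h
    nlinarith
  have h5q : (0 : ℝ) ≤ 5 / q := by positivity
  have hκ0 : 0 ≤ κ := by
    have : 0 ≤ δ * (B + 1) + 5 / q := by positivity
    linarith
  obtain ⟨E, hE⟩ : ∃ E : ℕ, E = ⌊κ * (p * q)⌋₊ := ⟨_, rfl⟩
  have hE1 : (E : ℝ) ≤ κ * (p * q) := by rw [hE]; exact Nat.floor_le (by positivity)
  have hE2 : κ * (p * q) < E + 1 := by rw [hE]; exact Nat.lt_floor_add_one _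
  have h5 : (5 / q : ℝ) * (p * q) = 5 * p := by field_simp
  have hκpq : δ * (B + 1) * (p * q) + 5 * p ≤ κ * (p * q) := by
    have := mul_le_mul_of_nonneg_right hκ hpq0.le
    rw [add_mul, h5] at this
    exact this
  have hdB : δ * (p * q) ≤ δ * (B + 1) * (p * q) := by
    have : 0 ≤ δ * B * (p * q) := by positivity
    nlinarith
  have hδκ : δ ≤ κ := by
    have : δ ≤ δ * (B + 1) := by nlinarith
    linarith
  have hPE : |(P : ℝ) - p * q| ≤ E := by
    have : |(P : ℝ) - p * q| ≤ κ * (p * q) - 1 := by linarith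
    linarith
  have hPE' := abs_le.1 hPE
  have hEh : (E : ℝ) ≤ 1 / 2 * (p * q) := hE1.trans (mul_le_mul_of_nonneg_right hκ2 hpq0.le)
  have hP0 : (0 : ℝ) < P := by
    have := (abs_le.1 hPE).1
    linarith
  have hP1 : 1 ≤ P := by exact_mod_cast hP0
  have hP2 : 1 / (P : ℝ) ≤ κ := by
    have h1 : (q : ℝ) / 2 ≤ P := by
      have : (q : ℝ) ≤ p * q := by nlinarith
      linarith
    have h2 : 1 / (P : ℝ) ≤ 5 / q := by
      rw [div_le_div_iff₀ hP0 hq0]
      linarith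
    have : 0 ≤ δ * (B + 1) := by positivity
    linarith
  -- offsets
  have hof : ∀ n : ℕ, ∀ i, |(Uz G.α G.β n + ofs G q p) i - (Uz G.α G.β n + of1 G P) i| ≤ (E : ℤ) := by
    intro n i
    have h1 : |(((Uz G.α G.β n + ofs G q p) i - (Uz G.α G.β n + of1 G P) i : ℤ) : ℝ)| ≤ E := by
      simp only [Pi.add_apply]
      unfold ofs of1 bq
      push_cast
      have f1 := Int.floor_le (((p : ℝ) - 1) * G.β i)
      have f2 := Int.lt_floor_add_one (((p : ℝ) - 1) * G.β i)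
      have f3 := Int.floor_le (((q : ℝ) - 1) * G.β i)
      have f4 := Int.lt_floor_add_one (((q : ℝ) - 1) * G.β i)
      have f5 := Int.floor_le (((P : ℝ) - 1) * G.β i)
      have f6 := Int.lt_floor_add_one (((P : ℝ) - 1) * G.β i)
      have g1 : |((P : ℝ) - p * q) * (G.β i + G.z i)| ≤ δ * (p * q) * B := by
        rw [abs_mul]
        refine mul_le_mul hδ1 (le_trans ?_ (hB i)) (abs_nonneg _) (by positivity)
        refine (abs_add_le _ _).trans ?_
        rw [abs_of_nonneg (G.β0 i)]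
      have g2 := abs_le.1 g1
      have g3 : (p : ℝ) * ⌊((q : ℝ) - 1) * G.β i⌋ ≤ p * (((q : ℝ) - 1) * G.β i) := by gcongr
      have g4 : (p : ℝ) * (((q : ℝ) - 1) * G.β i) ≤ p * (⌊((q : ℝ) - 1) * G.β i⌋ + 1) := by gcongr
      have g5 : ((p : ℝ) - 1) * G.β i + p * (((q : ℝ) - 1) * G.β i) + p * q * G.z i - (((P : ℝ) - 1) * G.β i + P * G.z i) =
        -(((P : ℝ) - p * q) * (G.β i + G.z i)) := by ring
      have g6 : δ * (B + 1) * (p * q) = δ * (p * q) * B + δ * (p * q) := by ring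
      have g7 : 0 ≤ δ * (p * q) := by positivity
      rw [abs_le]
      constructor <;> nlinarith
    exact_mod_cast h1
  obtain ⟨F1, hF1⟩ : ∃ F1 : ℕ → (Fin s → ℤ) → ℂ, F1 = fun (n : ℕ) (X : Fin s → ℤ) =>
      Wb W (Uz G.α G.β (n : ℤ) + ofs G q p) (p * q) X * PsH G.a g (n : ℤ) X := ⟨_, rfl⟩
  have hF1n : ∀ n X, ‖F1 n X‖ ≤ 1 := fun n X => by
    rw [hF1]
    exact norm_WP _ _ _ _ _ hg _ _
  have hb : ∀ n : ℕ, ‖bav (F1 n) (Uz G.α G.β n + ofs G q p) (p * q) -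
      bav (F1 n) (Uz G.α G.β n + of1 G P) P‖ ≤ 12 * s * κ := by
    intro n
    have hs0 : (0 : ℝ) ≤ s := by positivity
    rcases le_total (p * q) P with hle | hle
    · have h1 := box_cmp (F1 n) (hF1n n) (Uz G.α G.β n + ofs G q p) (Uz G.α G.β n + of1 G P)
        (p * q) P E (Nat.mul_pos hp hq) hle (by
          have : (P : ℝ) ≤ ((p * q + E : ℕ) : ℝ) := by push_cast; linarith
          exact_mod_cast this) (by
          have : (E : ℝ) ≤ ((p * q : ℕ) : ℝ) := by push_cast; linarith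
          exact_mod_cast this) (hof n)
      refine h1.trans ?_
      push_cast
      rw [div_le_iff₀ hpq0]
      have : (s : ℝ) * E ≤ s * (κ * (p * q)) := by gcongr
      have h3 : 0 ≤ (s : ℝ) * (κ * (p * q)) := by positivity
      nlinarith
    · rw [norm_sub_rev]
      have h1 := box_cmp (F1 n) (hF1n n) (Uz G.α G.β n + of1 G P) (Uz G.α G.β n + ofs G q p)
        P (p * q) E hP1 hle (by
          have : ((p * q : ℕ) : ℝ) ≤ ((P + E : ℕ) : ℝ) := by push_cast; linarith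
          exact_mod_cast this) (by
          have : (E : ℝ) ≤ P := by linarith
          exact_mod_cast this) (fun i => by rw [abs_sub_comm]; exact hof n i)
      refine h1.trans ?_
      rw [div_le_iff₀ hP0]
      have h2 : (p * q : ℝ) ≤ 2 * P := by linarith
      have h3 : (s : ℝ) * E ≤ s * (κ * (2 * P)) := by
        gcongr
        exact hE1.trans (by gcongr)
      nlinarith
  -- the weights
  have hw : ∀ n : ℕ, ‖bav (F1 n) (Uz G.α G.β n + of1 G P) P - bav (fun X =>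
      W.w (fun i => ((((Uz G.α G.β n + of1 G P) i - X i : ℤ) : ℝ) + fr G.α G.β n i) / P) * PsH G.a g n X)
      (Uz G.α G.β n + of1 G P) P‖ ≤ W.L * (s * (3 * κ)) := by
    intro n
    have e1 : bav (F1 n) (Uz G.α G.β n + of1 G P) P - bav (fun X =>
        W.w (fun i => ((((Uz G.α G.β n + of1 G P) i - X i : ℤ) : ℝ) + fr G.α G.β n i) / P) * PsH G.a g n X)
        (Uz G.α G.β n + of1 G P) P =
        bav (fun X => (Wb W (Uz G.α G.β n + ofs G q p) (p * q) X -
          W.w (fun i => ((((Uz G.α G.β n + of1 G P) i - X i : ℤ) : ℝ) + fr G.α G.β n i) / P)) * PsH G.a g n X)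
        (Uz G.α G.β n + of1 G P) P := by
      rw [hF1]
      unfold bav
      rw [← sub_div, ← sum_sub_distrib]
      congr 1
      exact sum_congr rfl fun X _ => by ring
    rw [e1]
    refine norm_bav' _ _ _ hP1 _ fun X hX => ?_
    rw [norm_mul]
    refine (mul_le_of_le_one_right (norm_nonneg _) (norm_PsH _ _ hg _ _)).trans ?_
    refine W.near _ _ _ fun i => ?_
    rw [mem_Bx] at hX
    obtain ⟨x1, x2⟩ := hX i
    obtain ⟨a, ha⟩ : ∃ a : ℝ, a = (((Uz G.α G.β n + of1 G P) i - X i : ℤ) : ℝ) := ⟨_, rfl⟩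
    obtain ⟨d, hd⟩ : ∃ d : ℝ, d = (((Uz G.α G.β n + ofs G q p) i - (Uz G.α G.β n + of1 G P) i : ℤ) : ℝ) := ⟨_, rfl⟩
    have ha0 : 0 ≤ a := by
      rw [ha]
      exact_mod_cast (by omega : 0 ≤ (Uz G.α G.β n + of1 G P) i - X i)
    have haP : a ≤ P := by
      rw [ha]
      exact_mod_cast (by omega : (Uz G.α G.β n + of1 G P) i - X i ≤ (P : ℤ))
    have hdE : |d| ≤ E := by
      rw [hd]
      exact_mod_cast hof n i
    have e2 : (((Uz G.α G.β n + ofs G q p) i - X i : ℤ) : ℝ) = a + d := by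
      rw [ha, hd]
      push_cast
      ring
    rw [e2, ← ha]
    obtain ⟨f1, f2⟩ := fr_mem G.α G.β n i
    push_cast
    have e3 : (a + d) / ((p : ℝ) * q) - (a + fr G.α G.β n i) / P =
        a / P * (((P : ℝ) - p * q) / (p * q)) + d / (p * q) - fr G.α G.β n i / P := by
      field_simp
      ring
    rw [e3]
    have k1 : |a / P * (((P : ℝ) - p * q) / (p * q))| ≤ κ := by
      rw [abs_mul, abs_div ((P : ℝ) - p * q), abs_of_pos hpq0, abs_of_nonneg (by positivity : 0 ≤ a / P)]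
      have h1 : a / P ≤ 1 := by rw [div_le_one hP0]; exact haP
      have h2 : |(P : ℝ) - p * q| / (p * q) ≤ κ := by
        rw [div_le_iff₀ hpq0]
        exact hδ1.trans (mul_le_mul_of_nonneg_right hδκ hpq0.le)
      have h3 : 0 ≤ |(P : ℝ) - p * q| / (p * q) := by positivity
      calc a / P * (|(P : ℝ) - p * q| / (p * q)) ≤ 1 * κ := mul_le_mul h1 h2 h3 zero_le_one
        _ = κ := one_mul _
    have k2 : |d / ((p : ℝ) * q)| ≤ κ := by
      rw [abs_div, abs_of_pos hpq0, div_le_iff₀ hpq0]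
      exact hdE.trans hE1
    have k3 : |fr G.α G.β n i / P| ≤ κ := by
      rw [abs_div, abs_of_pos hP0, abs_of_nonneg f1]
      refine le_trans ?_ hP2
      gcongr
    have k4 := abs_sub (a / P * (((P : ℝ) - p * q) / (p * q)) + d / (p * q)) (fr G.α G.β n i / P)
    have k5 := abs_add_le (a / P * (((P : ℝ) - p * q) / (p * q))) (d / (p * q))
    linarith
  have hN0 : (0 : ℝ) < N := by exact_mod_cast hN
  rw [TTW_eq]
  unfold VVW
  rw [← mul_sub, ← sum_sub_distrib, norm_mul, norm_div, norm_one, Complex.norm_natCast]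
  rw [div_mul_eq_mul_div, one_mul, div_le_iff₀ hN0]
  refine (norm_sum_le _ _).trans ((sum_le_sum fun n _ => ?_ : _ ≤ ∑ n ∈ Icc 1 N, (12 * s * κ + W.L * (s * (3 * κ)))).trans ?_)
  · have h1 := hb n
    have h2 := hw n
    rw [hF1] at h1 h2
    have h3 := norm_add_le _ _ |>.trans (add_le_add h1 h2)
    rw [sub_add_sub_cancel] at h3
    exact h3
  · rw [sum_const, Nat.card_Icc, Nat.add_sub_cancel, nsmul_eq_mul, mul_comm]

end Pool.Agent.Q270.EY
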