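import Pool.Agent.Q270.EY.Fam
import Pool.Agent.Q270.EV.Cell

/-!
Project EY (helper270): the sum over the primes, in cells, with weights.
Adapted from `Pool/Agent/Q270/EV/Cell.lean`.
-/

set_option autoImplicit false

namespace Pool.Agent.Q270.EY

open Finset Filter Pool.Agent.Q270.EA Pool.Agent.Q270.EC Pool.Agent.Q270.EV
open Pool.Agent.H373R2.T7 (energy exI energy_le)
open Pool.Agent.TH823.MRS (ExpoSmall pp_moment)
open Pool.Agent.Helper602.MK (PP)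

variable {s : ℕ}

/-- the sum over the primes, when the companions are killed by a vector with positive last coordinate -/
theorem fin_posW (W : Wt s) (α β : Fin s → ℝ) {k : ℕ} (a0 : ℤ × (Fin s → ℤ)) (h0 : ℤ) (a : Fin k → ℤ × (Fin s → ℤ)) (h : Fin k → ℤ)
    (hθ : 0 < (a0.1 : ℝ) + ∑ i, a0.2 i * α i) (D : ℕ) (hD : 1 ≤ D) (y0 : ℤ) (y : Fin s → ℤ)
    (hv : ∀ i, lin (a i) y0 y + D * h i = 0) (hΔ : lin a0 y0 y + D * h0 ≠ 0)
    (f : ℕ → ℂ) (hb : ∀ n, ‖f n‖ ≤ 1) (hf0 : f 0 = 0) (hE : ExpoSmall f) (ε : ℝ) (hε : 0 < ε) :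
    ∃ J : ℕ, ∀ j : ℕ, J ≤ j → ∃ N₀ : ℕ, ∀ N : ℕ, N₀ ≤ N → ∀ κ : ℕ → ℂ, (∀ p, ‖κ p‖ ≤ 1) →
      ∀ g : Fin k → ℕ → ℂ, (∀ i n, ‖g i n‖ ≤ 1) →
      ‖∑ p ∈ PD j, κ p * tub α β N p (FW W α β f g a0 h0 a h p)‖ ≤ ε * (PD j).card := by
  classical
  obtain ⟨E1, hE1⟩ := exists_nat_ge (∑ i, (|(y i : ℝ)| + |α i| * |(y0 : ℝ)| + |β i| * D) + 3 + D)
  have hE1i : ∀ i, |(y i : ℝ)| + |α i| * |(y0 : ℝ)| + |β i| * D + 3 ≤ E1 := by
    intro i
    have h1 := single_le_sum (f := fun i => |(y i : ℝ)| + |α i| * |(y0 : ℝ)| + |β i| * D)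
      (fun i _ => by positivity) (mem_univ i)
    have : (0 : ℝ) ≤ D := by positivity
    linarith
  have hsum0 : 0 ≤ ∑ i, (|(y i : ℝ)| + |α i| * |(y0 : ℝ)| + |β i| * D) := sum_nonneg fun i _ => by positivity
  have hE1D : D ≤ E1 := by
    have : (D : ℝ) ≤ E1 := by linarith
    exact_mod_cast this
  have hE13 : (3 : ℝ) ≤ E1 := by
    have : (0 : ℝ) ≤ D := by positivity
    linarith
  have hE10 : (0 : ℝ) < E1 := by linarith
  -- parameters
  obtain ⟨ε', hε'⟩ : ∃ ε' : ℝ, ε' = min ε 1 := ⟨_, rfl⟩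
  have hε'0 : 0 < ε' := by rw [hε']; exact lt_min hε one_pos
  have hε'1 : ε' ≤ 1 := by rw [hε']; exact min_le_right _ _
  have hε'ε : ε' ≤ ε := by rw [hε']; exact min_le_left _ _
  have hWL0 := W.L0
  obtain ⟨Cw, hCw⟩ : ∃ Cw : ℝ, Cw = 6 + 2 * W.L := ⟨_, rfl⟩
  have hCw6 : 6 ≤ Cw := by rw [hCw]; linarith
  have hCw0 : 0 < Cw := by linarith
  obtain ⟨δ, hδ⟩ : ∃ δ : ℝ, δ = ε' / (32 * Cw * (s + 1) * E1) := ⟨_, rfl⟩
  have hδ0 : 0 < δ := by rw [hδ]; positivity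
  have hδ1 : δ * E1 ≤ 1 / 192 := by
    rw [hδ, div_mul_eq_mul_div, div_le_div_iff₀ (by positivity) (by norm_num)]
    have : (0 : ℝ) ≤ s := by positivity
    have h1 : 192 * (E1 : ℝ) ≤ 32 * Cw * (s + 1) * E1 := by
      apply mul_le_mul_of_nonneg_right _ hE10.le
      nlinarith
    have h2 : ε' * E1 * 192 ≤ 1 * E1 * 192 := by gcongr
    linarith
  have hδ2 : 8 * Cw * s * E1 * δ ≤ ε / 4 := by
    rw [hδ]
    have h1 : 8 * Cw * s * E1 * (ε' / (32 * Cw * (s + 1) * E1)) = (s / (s + 1)) * (ε' / 4) := by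
      field_simp
      ring
    rw [h1]
    have h2 : (s : ℝ) / (s + 1) ≤ 1 := by rw [div_le_one (by positivity)]; linarith
    calc (s : ℝ) / (s + 1) * (ε' / 4) ≤ 1 * (ε' / 4) := by gcongr
      _ ≤ _ := by linarith
  have hδle : δ ≤ 1 := by nlinarith
  obtain ⟨η, hη⟩ : ∃ η : ℝ, η = ε / (4 * (2 / δ + D)) := ⟨_, rfl⟩
  have hη0 : 0 < η := by rw [hη]; positivity
  obtain ⟨C₁, hC₁, j₁, hcell⟩ := energy_cell
  obtain ⟨H₀, hH₀⟩ := famW W α β a0 h0 a h hθ D y0 y hv hΔ f hb hf0 hE (C₁ / η ^ 4) (by positivity) (ε / 8)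
    (by positivity) E1 hE1i hE1D
  obtain ⟨J₁, hJ₁⟩ : ∃ J₁ : ℕ, (H₀ + 2) / δ < 2 ^ J₁ := pow_unbounded_of_one_lt _ (by norm_num)
  refine ⟨max j₁ (max J₁ 3), fun j hj => ?_⟩
  have hj1 : j₁ ≤ j := (le_max_left _ _).trans hj
  have hjJ : J₁ ≤ j := (le_max_left _ _).trans ((le_max_right _ _).trans hj)
  have hj3 : 3 ≤ j := (le_max_right _ _).trans ((le_max_right _ _).trans hj)
  have h2j : (0 : ℝ) < 2 ^ j := by positivity
  obtain ⟨H, hH⟩ : ∃ H : ℕ, H = ⌊δ * 2 ^ j⌋₊ := ⟨_, rfl⟩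
  have hδj : (H₀ + 2 : ℝ) ≤ δ * 2 ^ j := by
    have h1 : (2 : ℝ) ^ J₁ ≤ 2 ^ j := pow_le_pow_right₀ (by norm_num) hjJ
    rw [div_lt_iff₀ hδ0] at hJ₁
    nlinarith
  have hHle : (H : ℝ) ≤ δ * 2 ^ j := by rw [hH]; exact Nat.floor_le (by positivity)
  have hHge : δ * 2 ^ j < H + 1 := by rw [hH]; exact Nat.lt_floor_add_one _
  have hH0 : H₀ + 1 ≤ H := by
    rw [hH]
    refine Nat.le_floor ?_
    push_cast
    linarith
  have hHr : (1 : ℝ) ≤ H := by exact_mod_cast (by omega : 1 ≤ H)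
  have hH1 : (H : ℝ) + 1 ≤ 2 * (δ * 2 ^ j) := by linarith
  have hH2 : δ * 2 ^ j ≤ 2 * H := by linarith
  -- the block length
  obtain ⟨B, hB⟩ : ∃ B : ℕ, B = D * H := ⟨_, rfl⟩
  have hB1 : 1 ≤ B := by rw [hB]; exact Nat.mul_pos (by omega) (by omega)
  have hBr : 8 * (B : ℝ) ≤ 2 ^ j := by
    rw [hB]
    push_cast
    have h1 : (D : ℝ) ≤ E1 := by exact_mod_cast hE1D
    have h2 : (D : ℝ) * H ≤ E1 * (δ * 2 ^ j) := by gcongr
    nlinarith
  obtain ⟨N₀, hN₀⟩ := hH₀ H (by omega) (2 ^ j)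
  refine ⟨max N₀ 1, fun N hN κ hκ g hg => ?_⟩
  have hNN : N₀ ≤ N := (le_max_left _ _).trans hN
  have hN1 : 1 ≤ N := (le_max_right _ _).trans hN
  have hcard0 : (0 : ℝ) ≤ (PD j).card := by positivity
  have hcardpos : (0 : ℝ) < (PD j).card := by exact_mod_cast PD_pos (by omega : 1 ≤ j)
  -- the cells
  obtain ⟨T, hT⟩ : ∃ T : Finset (ℕ × ℕ), T = range (2 ^ j / B + 1) ×ˢ range D := ⟨_, rfl⟩
  have hmaps : ∀ p ∈ PD j, (p / B, p % D) ∈ T := by
    intro p hp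
    have h1 := (mem_Ioc.1 (mem_filter.1 hp).1).2
    rw [hT, mem_product, mem_range, mem_range]
    exact ⟨Nat.lt_succ_of_le (Nat.div_le_div_right h1), Nat.mod_lt _ hD⟩
  have hTcard : (T.card : ℝ) ≤ 2 / δ + D := by
    rw [hT, card_product, card_range, card_range]
    push_cast
    have hD0 : (0 : ℝ) < D := by exact_mod_cast hD
    have h1 : ((2 ^ j / B : ℕ) : ℝ) ≤ 2 ^ j / B := by
      have := @Nat.cast_div_le ℝ _ _ _ (2 ^ j) B
      push_cast at this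
      exact this
    have h2 : (2 : ℝ) ^ j / B * D ≤ 2 / δ := by
      rw [hB]
      push_cast
      have h3 : (2 : ℝ) ^ j / (D * H) * D = 2 ^ j / H := by field_simp
      rw [h3, div_le_div_iff₀ (by linarith) hδ0]
      linarith
    calc (((2 ^ j / B : ℕ) : ℝ) + 1) * D ≤ (2 ^ j / B + 1) * D := by gcongr
      _ = 2 ^ j / B * D + D := by ring
      _ ≤ _ := by linarith
  have hterm : ∀ p ∈ PD j, ‖κ p * tub α β N p (FW W α β f g a0 h0 a h p)‖ ≤ 1 := by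
    intro p hp
    rw [norm_mul]
    exact mul_le_one₀ (hκ p) (norm_nonneg _) (norm_tub α β N p hN1 (mem_filter.1 hp).2.one_le _
      (norm_FW W α β f g a0 h0 a h hb hg p))
  have hone : ∀ t ∈ T, ‖∑ p ∈ (PD j).filter (fun p => (p / B, p % D) = t), κ p * tub α β N p (FW W α β f g a0 h0 a h p)‖ ≤
      ε / 2 * (((PD j).filter (fun p => (p / B, p % D) = t)).card : ℝ) + η * (PD j).card := by
    intro t _
    obtain ⟨A, hA⟩ : ∃ A, A = (PD j).filter (fun p => (p / B, p % D) = t) := ⟨_, rfl⟩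
    rw [← hA]
    have hAsub : A ⊆ PD j := by rw [hA]; exact filter_subset _ _
    have hA0 : (0 : ℝ) ≤ A.card := by positivity
    rcases le_or_gt ((A.card : ℝ)) (η * (PD j).card) with hsm | hbig
    · refine (norm_sum_le _ _).trans ((sum_le_sum fun p hp => hterm p (hAsub hp)).trans ?_)
      rw [sum_const, nsmul_eq_mul, mul_one]
      have : 0 ≤ ε / 2 * (A.card : ℝ) := by positivity
      linarith
    · have hAne : A.Nonempty := by
        rw [← Finset.card_pos]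
        have : (0 : ℝ) < A.card := lt_of_le_of_lt (by positivity) hbig
        exact_mod_cast this
      obtain ⟨q, hq⟩ : ∃ q : ℕ, q = B * t.1 + t.2 := ⟨_, rfl⟩
      have hmodB : ∀ p ∈ A, p = q + D * (p % B / D) := by
        intro p hp
        rw [hA, mem_filter] at hp
        obtain ⟨-, h2⟩ := hp
        have h3 : p / B = t.1 := congrArg Prod.fst h2
        have h4 : p % D = t.2 := congrArg Prod.snd h2
        rw [hq, ← h3, ← h4]
        have h5 := Nat.div_add_mod p B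
        have h6 := Nat.div_add_mod (p % B) D
        have h7 : p % B % D = p % D := Nat.mod_mod_of_dvd p (by rw [hB]; exact dvd_mul_right _ _)
        omega
      have hτH : ∀ p : ℕ, p % B / D ≤ H := by
        intro p
        have h1 : p % B < B := Nat.mod_lt _ hB1
        rw [hB] at h1 ⊢
        exact (Nat.div_lt_of_lt_mul h1).le
      -- the base
      obtain ⟨p₀, hp₀⟩ := hAne
      have hp₀1 := hmodB p₀ hp₀
      have hp₀2 := mem_Ioc.1 (mem_filter.1 (hAsub hp₀)).1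
      have hq2 : (2 : ℝ) ^ j / 4 ≤ q := by
        have h1 : (2 : ℝ) ^ (j - 1) < p₀ := by exact_mod_cast hp₀2.1
        have h2 : (2 : ℝ) ^ j = 2 * 2 ^ (j - 1) := by
          rw [← pow_succ']
          congr 1
          omega
        have h3 : (p₀ : ℝ) ≤ q + B := by
          have h4 : D * (p₀ % B / D) ≤ D * H := Nat.mul_le_mul_left _ (hτH p₀)
          rw [← hB] at h4
          have : p₀ ≤ q + B := by omega
          exact_mod_cast this
        linarith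
      have hq0 : (0 : ℝ) < q := by linarith
      have hq1 : 1 ≤ q := by
        have : 0 < q := by exact_mod_cast hq0
        omega
      have hqQ : q ≤ 2 ^ j := by omega
      have hqE : E1 * (H + 1) ≤ q := by
        have : ((E1 * (H + 1) : ℕ) : ℝ) ≤ q := by
          push_cast
          have h1 : (E1 : ℝ) * (H + 1) ≤ E1 * (2 * (δ * 2 ^ j)) := by gcongr
          nlinarith
        exact_mod_cast this
      have hen : (energy 2 A.card (fun m => ((en A m % B / D : ℕ) : ℤ)) : ℝ) * H ≤ C₁ / η ^ 4 * (A.card : ℝ) ^ 4 := by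
        have h1 := hcell j hj1 A hAsub (fun p => p % B / D) (fun a ha b hb c hc d hd h => by
          have e1 := hmodB a ha
          have e2 := hmodB b hb
          have e3 := hmodB c hc
          have e4 := hmodB d hd
          have e5 : D * (a % B / D) + D * (b % B / D) = D * (c % B / D) + D * (d % B / D) := by
            rw [← mul_add, ← mul_add, h]
          omega)
        have h2 : (0 : ℝ) ≤ energy 2 A.card (fun m => ((en A m % B / D : ℕ) : ℤ)) := by positivity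
        have h3 : (H : ℝ) ≤ 2 ^ j := by nlinarith
        have h4 : ((PD j).card : ℝ) ≤ A.card / η := by
          rw [le_div_iff₀ hη0]
          linarith
        have h5 : ((PD j).card : ℝ) ^ 4 ≤ (A.card / η) ^ 4 := pow_le_pow_left₀ hcard0 h4 4
        calc (energy 2 A.card (fun m => ((en A m % B / D : ℕ) : ℤ)) : ℝ) * H ≤
              energy 2 A.card (fun m => ((en A m % B / D : ℕ) : ℤ)) * 2 ^ j := by gcongr
          _ ≤ C₁ * ((PD j).card : ℝ) ^ 4 := h1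
          _ ≤ C₁ * (A.card / η) ^ 4 := by gcongr
          _ = _ := by rw [div_pow]; ring
      have hfam := hN₀ N hNN q hq1 hqQ hqE A.card (fun m => en A m % B / D) (fun m => hτH _) hen
        (fun m => κ (en A m)) (fun m => hκ _) g hg
      have hsm : ∑ m ∈ Icc 1 A.card, κ (en A m) * tub α β N (q + D * (en A m % B / D))
          (FW W α β f g a0 h0 a h (q + D * (en A m % B / D))) = ∑ p ∈ A, κ p * tub α β N p (FW W α β f g a0 h0 a h p) := by
        rw [← sum_en A (fun p => κ p * tub α β N p (FW W α β f g a0 h0 a h p))]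
        refine sum_congr rfl fun m hm => ?_
        rw [← hmodB _ (en_mem A hm)]
      rw [hsm] at hfam
      refine hfam.trans ?_
      rw [← hCw]
      have h1 : Cw * (s : ℝ) * (E1 * (H + 1)) / q ≤ ε / 4 := by
        refine le_trans ?_ hδ2
        rw [div_le_iff₀ hq0]
        have h2 : Cw * (s : ℝ) * (E1 * (H + 1)) ≤ Cw * s * (E1 * (2 * (δ * 2 ^ j))) := by gcongr
        have h3 : 8 * Cw * (s : ℝ) * E1 * δ * (2 ^ j / 4) ≤ 8 * Cw * s * E1 * δ * q := by gcongr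
        refine h2.trans (le_trans (le_of_eq ?_) h3)
        ring
      have h2 : (2 * (ε / 8) + Cw * (s : ℝ) * (E1 * (H + 1)) / q) * A.card ≤ ε / 2 * A.card := by
        refine mul_le_mul_of_nonneg_right ?_ hA0
        linarith
      have h3 : 0 ≤ η * (PD j).card := mul_nonneg hη0.le hcard0
      linarith
  rw [← sum_fiberwise_of_maps_to hmaps]
  refine (norm_sum_le _ _).trans ((sum_le_sum hone).trans ?_)
  rw [sum_add_distrib, ← mul_sum, sum_const, nsmul_eq_mul]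
  have h1 : ∑ t ∈ T, (((PD j).filter (fun p => (p / B, p % D) = t)).card : ℝ) = (PD j).card := by
    rw [card_eq_sum_card_fiberwise hmaps]
    push_cast
    rfl
  rw [h1]
  have h2 : (T.card : ℝ) * (η * (PD j).card) ≤ ε / 4 * (PD j).card := by
    have h3 : (T.card : ℝ) * η ≤ ε / 4 := by
      calc (T.card : ℝ) * η ≤ (2 / δ + D) * η := by gcongr
        _ = ε / 4 := by
          rw [hη]
          have : (2 / δ + D : ℝ) ≠ 0 := by positivity
          field_simp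
    calc (T.card : ℝ) * (η * (PD j).card) = (T.card : ℝ) * η * (PD j).card := by ring
      _ ≤ _ := by gcongr
  nlinarith

/-- the sum over the primes, when the companions are killed by a vector with last coordinate `0` -/
theorem fin_zeroW (W : Wt s) (α β : Fin s → ℝ) {k : ℕ} (a0 : ℤ × (Fin s → ℤ)) (h0 : ℤ) (a : Fin k → ℤ × (Fin s → ℤ)) (h : Fin k → ℤ)
    (hθ : 0 < (a0.1 : ℝ) + ∑ i, a0.2 i * α i) (y0 : ℤ) (y : Fin s → ℤ)
    (hv : ∀ i, lin (a i) y0 y + (0 : ℕ) * h i = 0) (hΔ : lin a0 y0 y + (0 : ℕ) * h0 ≠ 0)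
    (f : ℕ → ℂ) (hb : ∀ n, ‖f n‖ ≤ 1) (hf0 : f 0 = 0) (hE : ExpoSmall f) (ε : ℝ) (hε : 0 < ε) :
    ∃ J : ℕ, ∀ j : ℕ, J ≤ j → ∃ N₀ : ℕ, ∀ N : ℕ, N₀ ≤ N → ∀ κ : ℕ → ℂ, (∀ p, ‖κ p‖ ≤ 1) →
      ∀ g : Fin k → ℕ → ℂ, (∀ i n, ‖g i n‖ ≤ 1) →
      ‖∑ p ∈ PD j, κ p * tub α β N p (FW W α β f g a0 h0 a h p)‖ ≤ ε * (PD j).card := by
  classical
  obtain ⟨E1, hE1⟩ := exists_nat_ge (∑ i, (|(y i : ℝ)| + |α i| * |(y0 : ℝ)|) + 3)
  have hE1i : ∀ i, |(y i : ℝ)| + |α i| * |(y0 : ℝ)| + |β i| * (0 : ℕ) + 3 ≤ E1 := by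
    intro i
    have h1 := single_le_sum (f := fun i => |(y i : ℝ)| + |α i| * |(y0 : ℝ)|)
      (fun i _ => by positivity) (mem_univ i)
    push_cast
    linarith
  obtain ⟨H₀, hH₀⟩ := famW W α β a0 h0 a h hθ 0 y0 y hv hΔ f hb hf0 hE 1 (by norm_num) (ε / 4)
    (by positivity) E1 hE1i (by omega)
  obtain ⟨H, hH⟩ : ∃ H : ℕ, H = H₀ + 1 := ⟨_, rfl⟩
  have hWL0 := W.L0
  obtain ⟨Cw, hCw⟩ : ∃ Cw : ℝ, Cw = 6 + 2 * W.L := ⟨_, rfl⟩
  have hCw6 : 6 ≤ Cw := by rw [hCw]; linarith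
  have hCw0 : 0 < Cw := by linarith
  obtain ⟨J₁, hJ₁⟩ : ∃ J₁ : ℕ, (2 * Cw * s * (E1 * (H + 1)) / ε + E1 * (H + 1) : ℝ) < 2 ^ J₁ :=
    pow_unbounded_of_one_lt _ (by norm_num)
  refine ⟨J₁ + 1, fun j hj => ?_⟩
  obtain ⟨N₀, hN₀⟩ := hH₀ H (by omega) (2 ^ j)
  refine ⟨N₀, fun N hN κ hκ g hg => ?_⟩
  have hHr : (0 : ℝ) < H := by exact_mod_cast (by omega : 0 < H)
  have hone : ∀ p ∈ PD j, ‖κ p * tub α β N p (FW W α β f g a0 h0 a h p)‖ ≤ ε := by
    intro p hp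
    have h1 := mem_Ioc.1 (mem_filter.1 hp).1
    have hp1 := (mem_filter.1 hp).2.one_le
    have hp0 : (0 : ℝ) < p := by exact_mod_cast hp1
    have h2 : (2 : ℝ) ^ J₁ ≤ p := by
      have h3 : 2 ^ J₁ ≤ 2 ^ (j - 1) := Nat.pow_le_pow_right (by norm_num) (by omega)
      exact_mod_cast h3.trans h1.1.le
    have h3 : (0 : ℝ) ≤ 2 * Cw * s * (E1 * (H + 1)) / ε := by positivity
    have h4 : (0 : ℝ) ≤ E1 * (H + 1) := by positivity
    have hpE : E1 * (H + 1) ≤ p := by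
      have : ((E1 * (H + 1) : ℕ) : ℝ) ≤ p := by
        push_cast
        linarith
      exact_mod_cast this
    have hpε : Cw * (s : ℝ) * (E1 * (H + 1)) / p ≤ ε / 2 := by
      have h5 : 2 * Cw * s * (E1 * (H + 1)) / ε ≤ p := by linarith
      rw [div_le_iff₀ hε] at h5
      rw [div_le_iff₀ hp0]
      linarith
    have hen : (energy 2 H (fun m => ((min m H : ℕ) : ℤ)) : ℝ) * H ≤ 1 * (H : ℝ) ^ 4 := by
      have h5 : energy 2 H (fun m => ((min m H : ℕ) : ℤ)) ≤ H ^ 3 := by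
        refine energy_inj H _ fun m hm m' hm' h => ?_
        rw [mem_Icc] at hm hm'
        rw [min_eq_left hm.2, min_eq_left hm'.2] at h
        exact_mod_cast h
      have h6 : (energy 2 H (fun m => ((min m H : ℕ) : ℤ)) : ℝ) ≤ (H : ℝ) ^ 3 := by exact_mod_cast h5
      calc (energy 2 H (fun m => ((min m H : ℕ) : ℤ)) : ℝ) * H ≤ (H : ℝ) ^ 3 * H := by gcongr
        _ = _ := by ring
    have hfam := hN₀ N hN p hp1 h1.2 hpE H (fun m => min m H) (fun m => min_le_right _ _) hen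
      (fun _ => 1) (fun _ => by simp) g hg
    simp only [zero_mul, add_zero, one_mul, sum_const, Nat.card_Icc, Nat.add_sub_cancel, nsmul_eq_mul] at hfam
    rw [← hCw] at hfam
    rw [norm_mul, Complex.norm_natCast, mul_comm (H : ℝ)] at hfam
    have h5 := le_of_mul_le_mul_right hfam hHr
    rw [norm_mul]
    refine (mul_le_of_le_one_left (norm_nonneg _) (hκ p)).trans (h5.trans ?_)
    linarith
  refine (norm_sum_le _ _).trans ((sum_le_sum hone).trans ?_)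
  rw [sum_const, nsmul_eq_mul, mul_comm]

/-- the sum over the primes -/
theorem fin_estW (W : Wt s) (α β : Fin s → ℝ) {k : ℕ} (a0 : ℤ × (Fin s → ℤ)) (h0 : ℤ) (a : Fin k → ℤ × (Fin s → ℤ)) (h : Fin k → ℤ)
    (hθ : 0 < (a0.1 : ℝ) + ∑ i, a0.2 i * α i) (D : ℕ) (y0 : ℤ) (y : Fin s → ℤ)
    (hv : ∀ i, lin (a i) y0 y + D * h i = 0) (hΔ : lin a0 y0 y + D * h0 ≠ 0)
    (f : ℕ → ℂ) (hb : ∀ n, ‖f n‖ ≤ 1) (hf0 : f 0 = 0) (hE : ExpoSmall f) (ε : ℝ) (hε : 0 < ε) :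
    ∃ J : ℕ, ∀ j : ℕ, J ≤ j → ∃ N₀ : ℕ, ∀ N : ℕ, N₀ ≤ N → ∀ κ : ℕ → ℂ, (∀ p, ‖κ p‖ ≤ 1) →
      ∀ g : Fin k → ℕ → ℂ, (∀ i n, ‖g i n‖ ≤ 1) →
      ‖∑ p ∈ PD j, κ p * tub α β N p (FW W α β f g a0 h0 a h p)‖ ≤ ε * (PD j).card := by
  rcases Nat.eq_zero_or_pos D with hD | hD
  · subst hD
    exact fin_zeroW W α β a0 h0 a h hθ y0 y hv hΔ f hb hf0 hE ε hε
  · exact fin_posW W α β a0 h0 a h hθ D hD y0 y hv hΔ f hb hf0 hE ε hε

end Pool.Agent.Q270.EY
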