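import Pool.Agent.Q270.EY.Dil

/-!
Project EY (helper270): the dilation identity, real part.
-/

set_option autoImplicit false

namespace Pool.Agent.Q270.EY

open Finset Filter Topology Pool.Agent.Q270.EA Pool.Agent.Q270.EB Pool.Agent.Q270.EC Pool.Agent.Q119.EA
open Pool.Agent.Q270.EV Pool.Agent.Q270.EW
open Pool.Agent.Q270.EH (card_gap card_near cnt cnt_eq cnt_mono cnt_ex nz sparse)

variable {s k : ℕ}

lemma dil_re (G : Dat s k) (W : Wt s) (C₂ : ℝ) (hC₂0 : 0 ≤ C₂) (hC₂ : ∀ p M : ℕ, 1 ≤ p →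
      cnt M (fun n : ℕ => (w0 G n ≤ 0 ∨ (p : ℤ) ∣ w0 G n) ∨ ∃ j, (wj G j n ≤ 0 ∨ (p : ℤ) ∣ wj G j n)) ≤
        C₂ * (M / p + 1))
    (τ₁ : ℝ) (hτ₁ : 0 ≤ τ₁) (p : ℕ) (hp : p.Prime)
    (hsp : ∀ i, ∀ M : ℕ, cnt M (fun m : ℕ => nz (G.α i * m + G.β i) (2 / p)) ≤ τ₁ * M + 1)
    (f : ℕ → ℂ) (hf1 : ∀ n, ‖f n‖ ≤ 1) (g gt : Fin k → ℕ → ℂ) (hg1 : ∀ j n, ‖g j n‖ ≤ 1)
    (hgt1 : ∀ j n, ‖gt j n‖ ≤ 1) (τ : ℝ) (hτ : ∀ j n, ‖gt j n - g j n‖ ≤ τ)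
    (cj : Fin k → ℂ) (hcj : ∀ j, ‖cj j‖ = 1)
    (hfp : ∀ n, 1 ≤ n → ¬ p ∣ n → f (p * n) = - f n)
    (hgm : ∀ j n, ¬ p ∣ n → g j (p * n) = cj j * g j n)
    (N : ℕ) (hN : 1 ≤ N) :
    ‖AvN (N / p) (phiW G W f g)‖ - (2 * C₂ / p + 2 * s * τ₁ + (k * τ + W.L * (s * (2 / p))) + (2 * C₂ + 2 * s + 1) * p / N) ≤
      (1 / (N : ℝ)) * ∑ n ∈ Icc 1 N, ((if p ∣ n then (p : ℂ) else 0) *
        ((ph (∑ n ∈ Icc 1 (N / p), phiW G W f g n) * (- ∏ j, starRingEnd ℂ (cj j))) *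
          psiW G W f gt p (fun i => un G n i % p) n)).re := by
  have h := dilC G W C₂ hC₂0 hC₂ τ₁ hτ₁ p hp hsp f hf1 g gt hg1 hgt1 τ hτ (-1) cj (by simp) (fun j => (hcj j).le)
    (fun n hn => by
      have h0 : 1 ≤ n := by
        rcases Nat.eq_zero_or_pos n with h | h
        · subst h
          exact absurd (dvd_zero p) hn
        · exact h
      rw [hfp n h0 hn]
      ring) hgm N hN
  obtain ⟨B, hB⟩ : ∃ B : ℝ, B = 2 * C₂ / p + 2 * s * τ₁ + (k * τ + W.L * (s * (2 / p))) + (2 * C₂ + 2 * s + 1) * p / N := ⟨_, rfl⟩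
  obtain ⟨S, hS⟩ : ∃ S : ℂ, S = ∑ n ∈ Icc 1 (N / p), phiW G W f g n := ⟨_, rfl⟩
  obtain ⟨c, hc⟩ : ∃ c : ℂ, c = -∏ j, cj j := ⟨_, rfl⟩
  obtain ⟨c', hc'⟩ : ∃ c' : ℂ, c' = -∏ j, starRingEnd ℂ (cj j) := ⟨_, rfl⟩
  obtain ⟨A2, hA2⟩ : ∃ A2 : ℂ, A2 = (1 / (N : ℂ)) * ∑ n ∈ Icc 1 N, ((if p ∣ n then (p : ℂ) else 0) *
          psiW G W f gt p (fun i => un G n i % p) n) := ⟨_, rfl⟩
  have e0 : (-1 * ∏ j, cj j : ℂ) = c := by rw [hc]; ring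
  rw [e0, ← hA2, ← hB] at h
  rw [← hB, ← hS, ← hc']
  have hcc : c' * c = 1 := by
    rw [hc, hc', neg_mul_neg, ← prod_mul_distrib]
    refine prod_eq_one fun j _ => ?_
    rw [mul_comm, Complex.mul_conj, Complex.normSq_eq_norm_sq, hcj]
    norm_num
  have hc'1 : ‖c'‖ ≤ 1 := by
    rw [hc', norm_neg, norm_prod]
    exact prod_le_one (fun _ _ => norm_nonneg _) fun j _ => by rw [RCLike.norm_conj, hcj]
  have e1 : (1 / (N : ℝ)) * ∑ n ∈ Icc 1 N, ((if p ∣ n then (p : ℂ) else 0) *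
        ((ph S * c') * psiW G W f gt p (fun i => un G n i % p) n)).re = (ph S * c' * A2).re := by
    have e2 : ph S * c' * A2 = ((1 / (N : ℝ) : ℝ) : ℂ) * ∑ n ∈ Icc 1 N, ((if p ∣ n then (p : ℂ) else 0) *
        ((ph S * c') * psiW G W f gt p (fun i => un G n i % p) n)) := by
      rw [hA2]
      push_cast
      rw [mul_left_comm, mul_sum]
      congr 1
      refine sum_congr rfl fun n _ => ?_
      ring
    rw [e2, Complex.re_ofReal_mul, Complex.re_sum]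
  rw [e1]
  have e3 : ph S * c' * (c * AvN (N / p) (phiW G W f g)) = ((‖AvN (N / p) (phiW G W f g)‖ : ℝ) : ℂ) := by
    have e4 : ph S * c' * (c * AvN (N / p) (phiW G W f g)) = (c' * c) * (ph S * AvN (N / p) (phiW G W f g)) := by ring
    rw [e4, hcc, one_mul]
    unfold AvN
    rw [← hS, mul_left_comm, ph_mul, norm_mul, norm_div, norm_one, Complex.norm_natCast]
    push_cast
    rfl
  have e5 : ‖ph S * c' * (c * AvN (N / p) (phiW G W f g)) - ph S * c' * A2‖ ≤ B := by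
    rw [← mul_sub, norm_mul]
    have h1 : ‖ph S * c'‖ ≤ 1 := by
      rw [norm_mul]
      exact mul_le_one₀ (norm_ph _) (norm_nonneg _) hc'1
    exact (mul_le_of_le_one_left (norm_nonneg _) h1).trans h
  have e6 := (Complex.abs_re_le_norm _).trans e5
  rw [Complex.sub_re, e3, Complex.ofReal_re] at e6
  have e7 := (abs_le.1 e6).2
  linarith

end Pool.Agent.Q270.EY
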