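import Pool.Agent.Q270.EY.Wt

/-!
Project EY (helper270): families of dilates, with weights.
Adapted from `Pool/Agent/Q270/EV/Fam.lean`.
-/

set_option autoImplicit false

namespace Pool.Agent.Q270.EY

open Finset Filter Pool.Agent.Q270.EA Pool.Agent.Q270.EC Pool.Agent.Q270.EV
open Pool.Agent.H373R2.T7 (energy exI)
open Pool.Agent.TH823.MRS (ExpoSmall)

variable {s : ℕ}

lemma norm_bav2 (χ : (Fin s → ℤ) → ℂ) (u : Fin s → ℤ) (q : ℕ) (hq : 1 ≤ q) (B : ℝ)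
    (h : ∀ X ∈ Bx u q, ‖χ X‖ ≤ B) : ‖bav χ u q‖ ≤ B := by
  have hq0 : (0 : ℝ) < (q : ℝ) ^ s := by
    have : (0 : ℝ) < q := by exact_mod_cast hq
    positivity
  unfold bav
  rw [norm_div, norm_pow, Complex.norm_natCast, div_le_iff₀ hq0]
  refine (norm_sum_le _ _).trans ((sum_le_sum h).trans ?_)
  rw [sum_const, card_Bx, nsmul_eq_mul]
  push_cast
  rw [mul_comm]

/-- the weighted product along a dilated line -/
noncomputable def FW (W : Wt s) (α β : Fin s → ℝ) {k : ℕ} (f : ℕ → ℂ) (g : Fin k → ℕ → ℂ) (a0 : ℤ × (Fin s → ℤ)) (h0 : ℤ)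
    (a : Fin k → ℤ × (Fin s → ℤ)) (h : Fin k → ℤ) (p : ℕ) (n : ℤ) (X : Fin s → ℤ) : ℂ :=
  Wb W (Uz α β n + bq β p) p X * Ff f g a0 h0 a h p n X

lemma norm_FW (W : Wt s) (α β : Fin s → ℝ) {k : ℕ} (f : ℕ → ℂ) (g : Fin k → ℕ → ℂ) (a0 : ℤ × (Fin s → ℤ)) (h0 : ℤ)
    (a : Fin k → ℤ × (Fin s → ℤ)) (h : Fin k → ℤ) (hf : ∀ n, ‖f n‖ ≤ 1) (hg : ∀ i n, ‖g i n‖ ≤ 1)
    (p : ℕ) (n : ℤ) (X : Fin s → ℤ) : ‖FW W α β f g a0 h0 a h p n X‖ ≤ 1 := by
  unfold FW
  rw [norm_mul]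
  exact mul_le_one₀ (norm_Wb _ _ _ _) (norm_nonneg _) (norm_Ff _ _ _ _ _ _ hf hg _ _ _)

/-- the offsets of two tubes -/
lemma off_near (α β : Fin s → ℝ) (q q' E : ℕ) (hqq : q ≤ q')
    (z0 : ℤ) (z : Fin s → ℤ) (hz : ∀ i, |(z i : ℝ)| + |α i| * |(z0 : ℝ)| + |β i| * ((q' : ℝ) - q) + 3 ≤ E) (n : ℤ) (i : Fin s) :
    |((Uz α β n + bq β q + z) i : ℝ) - ((Uz α β (n + z0) + bq β q') i : ℝ)| ≤ E := by
  refine le_trans ?_ (hz i)
  simp only [Pi.add_apply, Uz, bq]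
  push_cast
  have f1 := Int.floor_le (α i * n + β i)
  have f2 := Int.lt_floor_add_one (α i * n + β i)
  have f3 := Int.floor_le (α i * ((n : ℝ) + z0) + β i)
  have f4 := Int.lt_floor_add_one (α i * ((n : ℝ) + z0) + β i)
  have f5 := Int.floor_le (((q : ℝ) - 1) * β i)
  have f6 := Int.lt_floor_add_one (((q : ℝ) - 1) * β i)
  have f7 := Int.floor_le (((q' : ℝ) - 1) * β i)
  have f8 := Int.lt_floor_add_one (((q' : ℝ) - 1) * β i)
  have g1 : |α i| * |(z0 : ℝ)| = |α i * z0| := (abs_mul _ _).symm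
  have hqq' : (0 : ℝ) ≤ (q' : ℝ) - q := by
    have : (q : ℝ) ≤ q' := by exact_mod_cast hqq
    linarith
  have g2 : |β i| * ((q' : ℝ) - q) = |((q' : ℝ) - q) * β i| := by
    rw [abs_mul, abs_of_nonneg hqq', mul_comm]
  rw [g1, g2]
  have k1 := neg_abs_le (α i * z0)
  have k2 := le_abs_self (α i * z0)
  have k3 := neg_abs_le (((q' : ℝ) - q) * β i)
  have k4 := le_abs_self (((q' : ℝ) - q) * β i)
  have k5 := neg_abs_le (z i : ℝ)
  have k6 := le_abs_self (z i : ℝ)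
  have k7 : α i * ((n : ℝ) + z0) + β i = α i * n + β i + α i * z0 := by ring
  have k8 : ((q' : ℝ) - 1) * β i = ((q : ℝ) - 1) * β i + ((q' : ℝ) - q) * β i := by ring
  rw [k7] at f3 f4 ⊢
  rw [k8] at f7 f8 ⊢
  rw [abs_le]
  constructor <;> linarith

/-- comparison of weighted tubes -/
lemma tube_cmpW (W : Wt s) (α β : Fin s → ℝ) (N q q' E : ℕ) (hN : 1 ≤ N) (hq : 1 ≤ q) (hqq : q ≤ q') (hq' : q' ≤ q + E)
    (hE : E ≤ q) (z0 : ℤ) (z : Fin s → ℤ) (hz : ∀ i, |(z i : ℝ)| + |α i| * |(z0 : ℝ)| + |β i| * ((q' : ℝ) - q) + 3 ≤ E)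
    (Ψ : ℤ → (Fin s → ℤ) → ℂ) (hΨ : ∀ n X, ‖Ψ n X‖ ≤ 1) :
    ‖tub α β N q' (fun n X => Wb W (Uz α β n + bq β q') q' X * Ψ n X) -
      tub α β N q (fun n X => Wb W (Uz α β n + bq β q) q X * Ψ (n + z0) (X + z))‖ ≤
      (6 + 2 * W.L) * s * E / q + 2 * |(z0 : ℝ)| / N := by
  have hL0 := W.L0
  have hN0 : (0 : ℝ) < N := by exact_mod_cast hN
  have hq0 : (0 : ℝ) < q := by exact_mod_cast hq
  have hq0' : (0 : ℝ) < q' := by exact_mod_cast (by omega : 0 < q')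
  have hqqr : (q : ℝ) ≤ q' := by exact_mod_cast hqq
  have hq'r : (q' : ℝ) ≤ q + E := by exact_mod_cast hq'
  have hE0 : (0 : ℝ) ≤ E := by positivity
  have h1 := tube_cmp α β N q q' E hN hq hqq hq' hE z0 z hz (fun n X => Wb W (Uz α β n + bq β q') q' X * Ψ n X)
    (fun n X => by rw [norm_mul]; exact mul_le_one₀ (norm_Wb _ _ _ _) (norm_nonneg _) (hΨ _ _))
  have h2 : ‖tub α β N q (fun n X => Wb W (Uz α β (n + z0) + bq β q') q' (X + z) * Ψ (n + z0) (X + z)) -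
      tub α β N q (fun n X => Wb W (Uz α β n + bq β q) q X * Ψ (n + z0) (X + z))‖ ≤ W.L * (s * (2 * E / q)) := by
    have e1 : tub α β N q (fun n X => Wb W (Uz α β (n + z0) + bq β q') q' (X + z) * Ψ (n + z0) (X + z)) -
        tub α β N q (fun n X => Wb W (Uz α β n + bq β q) q X * Ψ (n + z0) (X + z)) =
        (1 / (N : ℂ)) * ∑ n ∈ Ioc (0 : ℤ) N, bav (fun X => (Wb W (Uz α β (n + z0) + bq β q') q' (X + z) -
          Wb W (Uz α β n + bq β q) q X) * Ψ (n + z0) (X + z)) (Uz α β n + bq β q) q := by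
      unfold tub
      rw [← mul_sub, ← sum_sub_distrib]
      congr 1
      refine sum_congr rfl fun n _ => ?_
      unfold bav
      rw [← sub_div, ← sum_sub_distrib]
      congr 1
      exact sum_congr rfl fun X _ => by ring
    rw [e1, norm_mul, norm_div, norm_one, Complex.norm_natCast, div_mul_eq_mul_div, one_mul, div_le_iff₀ hN0]
    refine (norm_sum_le _ _).trans ((sum_le_sum fun n _ => ?_ : _ ≤ ∑ n ∈ Ioc (0 : ℤ) N, W.L * (s * (2 * E / q))).trans ?_)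
    · refine norm_bav2 _ _ _ hq _ fun X hX => ?_
      rw [norm_mul]
      refine (mul_le_of_le_one_right (norm_nonneg _) (hΨ _ _)).trans ?_
      refine W.near _ _ _ fun i => ?_
      rw [mem_Bx] at hX
      obtain ⟨x1, x2⟩ := hX i
      have hoff := off_near α β q q' E hqq z0 z hz n i
      obtain ⟨a, ha⟩ : ∃ a : ℝ, a = (((Uz α β n + bq β q) i - X i : ℤ) : ℝ) := ⟨_, rfl⟩
      obtain ⟨d, hd⟩ : ∃ d : ℝ, d = (((Uz α β n + bq β q + z) i : ℝ) - ((Uz α β (n + z0) + bq β q') i : ℝ)) := ⟨_, rfl⟩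
      rw [← hd] at hoff
      have ha0 : 0 ≤ a := by
        rw [ha]
        exact_mod_cast (by omega : 0 ≤ (Uz α β n + bq β q) i - X i)
      have haq : a ≤ q := by
        rw [ha]
        exact_mod_cast (by omega : (Uz α β n + bq β q) i - X i ≤ (q : ℤ))
      have e2 : (((Uz α β (n + z0) + bq β q') i - (X + z) i : ℤ) : ℝ) = a - d := by
        rw [ha, hd]
        simp only [Pi.add_apply]
        push_cast
        ring
      rw [e2, ← ha]
      have e3 : (a - d) / (q' : ℝ) - a / q = -(a / q * (((q' : ℝ) - q) / q')) - d / q' := by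
        field_simp
        ring
      rw [e3]
      have k1 : |a / q * (((q' : ℝ) - q) / q')| ≤ E / q := by
        rw [abs_mul, abs_of_nonneg (by positivity : 0 ≤ a / q), abs_of_nonneg (div_nonneg (by linarith) hq0'.le)]
        have h1 : a / q ≤ 1 := by rw [div_le_one hq0]; exact haq
        have h2 : ((q' : ℝ) - q) / q' ≤ E / q := by
          rw [div_le_div_iff₀ hq0' hq0]
          have : ((q' : ℝ) - q) * q ≤ E * q := by
            apply mul_le_mul_of_nonneg_right _ hq0.le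
            linarith
          have h3 : (E : ℝ) * q ≤ E * q' := by gcongr
          linarith
        have h3 : 0 ≤ ((q' : ℝ) - q) / q' := div_nonneg (by linarith) hq0'.le
        calc a / q * (((q' : ℝ) - q) / q') ≤ 1 * (E / q) := mul_le_mul h1 h2 h3 zero_le_one
          _ = E / q := one_mul _
      have k2 : |d / (q' : ℝ)| ≤ E / q := by
        rw [abs_div, abs_of_pos hq0']
        calc |d| / (q' : ℝ) ≤ E / q' := by gcongr
          _ ≤ E / q := by gcongr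
      have k3 := abs_sub (-(a / q * (((q' : ℝ) - q) / q'))) (d / q')
      rw [abs_neg] at k3
      have k4 : 2 * (E : ℝ) / q = E / q + E / q := by ring
      rw [k4]
      linarith
    · rw [sum_const, nsmul_eq_mul]
      simp
      rw [mul_comm]
  have h3 := norm_add_le _ _ |>.trans (add_le_add h1 h2)
  rw [sub_add_sub_cancel] at h3
  refine h3.trans (le_of_eq ?_)
  ring

/-- the estimate for a family of dilates -/
theorem famW (W : Wt s) (α β : Fin s → ℝ) {k : ℕ} (a0 : ℤ × (Fin s → ℤ)) (h0 : ℤ) (a : Fin k → ℤ × (Fin s → ℤ)) (h : Fin k → ℤ)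
    (hθ : 0 < (a0.1 : ℝ) + ∑ i, a0.2 i * α i) (D : ℕ) (y0 : ℤ) (y : Fin s → ℤ)
    (hv : ∀ i, lin (a i) y0 y + D * h i = 0) (hΔ : lin a0 y0 y + D * h0 ≠ 0)
    (f : ℕ → ℂ) (hb : ∀ n, ‖f n‖ ≤ 1) (hf0 : f 0 = 0) (hE : ExpoSmall f) (C : ℝ) (hC : 0 ≤ C) (ε : ℝ) (hε : 0 < ε)
    (E1 : ℕ) (hE1 : ∀ i, |(y i : ℝ)| + |α i| * |(y0 : ℝ)| + |β i| * D + 3 ≤ E1) (hE1D : D ≤ E1) :
    ∃ H₀ : ℕ, ∀ H : ℕ, H₀ ≤ H → ∀ Q : ℕ, ∃ N₀ : ℕ, ∀ N : ℕ, N₀ ≤ N → ∀ q : ℕ, 1 ≤ q → q ≤ Q →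
      E1 * (H + 1) ≤ q → ∀ (x : ℕ) (τ : ℕ → ℕ), (∀ m, τ m ≤ H) →
      (energy 2 x (fun m => (τ m : ℤ)) : ℝ) * H ≤ C * (x : ℝ) ^ 4 →
      ∀ c : ℕ → ℂ, (∀ m, ‖c m‖ ≤ 1) → ∀ g : Fin k → ℕ → ℂ, (∀ i n, ‖g i n‖ ≤ 1) →
      ‖∑ m ∈ Icc 1 x, c m * tub α β N (q + D * τ m) (FW W α β f g a0 h0 a h (q + D * τ m))‖ ≤
        (2 * ε + (6 + 2 * W.L) * s * (E1 * (H + 1)) / q) * x := by
  classical
  obtain ⟨Δ, hΔd⟩ : ∃ Δ, Δ = lin a0 y0 y + D * h0 := ⟨_, rfl⟩
  rw [← hΔd] at hΔ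
  have hΔ1 : 1 ≤ Δ.natAbs := by omega
  obtain ⟨H₀, hH₀⟩ := tub_l1 α β a0 h0 hθ f hb hf0 hE (C * Δ.natAbs) (by positivity) ε hε
  refine ⟨H₀, fun H hH Q => ?_⟩
  obtain ⟨N₁, hN₁⟩ := hH₀ (H * Δ.natAbs) (hH.trans (Nat.le_mul_of_pos_right _ (by omega))) Q
  obtain ⟨N₂, hN₂⟩ := exists_nat_ge (2 * (H * |(y0 : ℝ)|) / ε)
  refine ⟨max N₁ (max N₂ 1), fun N hN q hq1 hqQ hqE x τ hτ hen c hc g hg => ?_⟩
  have hN1 : N₁ ≤ N := (le_max_left _ _).trans hN
  have hN2 : N₂ ≤ N := (le_max_left _ _).trans ((le_max_right _ _).trans hN)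
  have hN11 : 1 ≤ N := (le_max_right _ _).trans ((le_max_right _ _).trans hN)
  have hN0 : (0 : ℝ) < N := by exact_mod_cast hN11
  obtain ⟨E, hEd⟩ : ∃ E, E = E1 * (H + 1) := ⟨_, rfl⟩
  rw [← hEd] at hqE
  -- each term
  have hterm : ∀ m ∈ Icc 1 x, ‖c m * tub α β N (q + D * τ m) (FW W α β f g a0 h0 a h (q + D * τ m)) -
      c m * tub α β N q (fun n X => (Wb W (Uz α β n + bq β q) q X * ∏ i, g i ((lin (a i) n X + q * h i).toNat)) *
        f ((lin a0 n X + q * h0 + τ m * Δ).toNat))‖ ≤ (6 + 2 * W.L) * s * E / q + ε := by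
    intro m _
    rw [← mul_sub, norm_mul]
    refine (mul_le_of_le_one_left (norm_nonneg _) (hc m)).trans ?_
    have h1 := tube_cmpW W α β N q (q + D * τ m) E hN11 hq1 (by omega) (by
      have : D * τ m ≤ E1 * (H + 1) := Nat.mul_le_mul hE1D ((hτ m).trans (by omega))
      omega) hqE (τ m * y0) (fun i => τ m * y i) (fun i => by
        have e1 : ((τ m : ℝ)) ≤ H := by exact_mod_cast hτ m
        have e2 := hE1 i
        have e3 : (0 : ℝ) ≤ τ m := by positivity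
        rw [hEd]
        push_cast
        rw [abs_mul, abs_mul, abs_of_nonneg e3]
        have e4 : (τ m : ℝ) * |(y i : ℝ)| + |α i| * (τ m * |(y0 : ℝ)|) + |β i| * ((q : ℝ) + D * τ m - q) + 3 =
            τ m * (|(y i : ℝ)| + |α i| * |(y0 : ℝ)| + |β i| * D) + 3 := by ring
        rw [e4]
        have e5 : (0 : ℝ) ≤ |(y i : ℝ)| + |α i| * |(y0 : ℝ)| + |β i| * D := by positivity
        have e6 : (τ m : ℝ) * (|(y i : ℝ)| + |α i| * |(y0 : ℝ)| + |β i| * D) ≤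
            H * (|(y i : ℝ)| + |α i| * |(y0 : ℝ)| + |β i| * D) := by gcongr
        have e7 : (H : ℝ) * (|(y i : ℝ)| + |α i| * |(y0 : ℝ)| + |β i| * D) ≤ H * E1 := by
          have : (0 : ℝ) ≤ H := by positivity
          gcongr
          linarith
        have e8 : (3 : ℝ) ≤ E1 := by linarith
        nlinarith)
      (Ff f g a0 h0 a h (q + D * τ m)) (norm_Ff f g a0 h0 a h hb hg _)
    have h2 : (fun (n : ℤ) (X : Fin s → ℤ) => Wb W (Uz α β n + bq β q) q X * Ff f g a0 h0 a h (q + D * τ m) (n + (τ m : ℤ) * y0)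
        (X + fun i => (τ m : ℤ) * y i)) = fun (n : ℤ) (X : Fin s → ℤ) =>
        (Wb W (Uz α β n + bq β q) q X * ∏ i, g i ((lin (a i) n X + q * h i).toNat)) *
          f ((lin a0 n X + q * h0 + τ m * Δ).toNat) := by
      funext n X
      rw [Ff_shift f g a0 h0 a h D y0 y hv, hΔd, mul_assoc]
    rw [h2] at h1
    refine h1.trans (add_le_add_right ?_ _)
    rw [div_le_iff₀ hN0]
    have e1 : |(((τ m : ℤ) * y0 : ℤ) : ℝ)| ≤ H * |(y0 : ℝ)| := by
      push_cast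
      rw [abs_mul, abs_of_nonneg (by positivity)]
      have e1 : ((τ m : ℝ)) ≤ H := by exact_mod_cast hτ m
      gcongr
    have e2 : (N₂ : ℝ) ≤ N := by exact_mod_cast hN2
    rw [div_le_iff₀ hε] at hN₂
    nlinarith
  -- the sum
  have hsum : ‖∑ m ∈ Icc 1 x, c m * tub α β N q (fun n X => (Wb W (Uz α β n + bq β q) q X *
        ∏ i, g i ((lin (a i) n X + q * h i).toNat)) *
        f ((lin a0 n X + q * h0 + τ m * Δ).toNat))‖ ≤ ε * x := by
    have h1 := hN₁ N hN1 q hq1 hqQ x (fun m => τ m * Δ) (fun m _ => by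
      have e1 : |(τ m : ℤ) * Δ| = τ m * Δ.natAbs := by rw [abs_mul, Nat.abs_cast, Int.abs_eq_natAbs]
      rw [e1]
      exact_mod_cast Nat.mul_le_mul_right _ (hτ m)) (by
      rw [energy_mul x (fun m => (τ m : ℤ)) Δ hΔ]
      push_cast
      have : (0 : ℝ) ≤ (Δ.natAbs : ℝ) := by positivity
      calc (energy 2 x (fun m => (τ m : ℤ)) : ℝ) * (H * (Δ.natAbs : ℝ)) =
            ((energy 2 x (fun m => (τ m : ℤ)) : ℝ) * H) * (Δ.natAbs : ℝ) := by ring
        _ ≤ (C * (x : ℝ) ^ 4) * (Δ.natAbs : ℝ) := by gcongr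
        _ = _ := by ring) c hc (fun n X => Wb W (Uz α β n + bq β q) q X * ∏ i, g i ((lin (a i) n X + q * h i).toNat))
      (fun n X => by
      rw [norm_mul, norm_prod]
      exact mul_le_one₀ (norm_Wb _ _ _ _) (prod_nonneg fun _ _ => norm_nonneg _)
        (prod_le_one (fun _ _ => norm_nonneg _) fun i _ => hg _ _))
    refine le_trans (le_of_eq ?_) h1
    congr 1
    unfold tub bav
    simp only [mul_sum, sum_div]
    rw [sum_comm]
    refine sum_congr rfl fun n _ => ?_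
    rw [sum_comm]
    refine sum_congr rfl fun X _ => sum_congr rfl fun m _ => ?_
    ring
  have e0 : ∑ m ∈ Icc 1 x, c m * tub α β N (q + D * τ m) (FW W α β f g a0 h0 a h (q + D * τ m)) =
      ∑ m ∈ Icc 1 x, (c m * tub α β N (q + D * τ m) (FW W α β f g a0 h0 a h (q + D * τ m)) -
        c m * tub α β N q (fun n X => (Wb W (Uz α β n + bq β q) q X * ∏ i, g i ((lin (a i) n X + q * h i).toNat)) *
          f ((lin a0 n X + q * h0 + τ m * Δ).toNat))) +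
      ∑ m ∈ Icc 1 x, c m * tub α β N q (fun n X => (Wb W (Uz α β n + bq β q) q X *
        ∏ i, g i ((lin (a i) n X + q * h i).toNat)) *
        f ((lin a0 n X + q * h0 + τ m * Δ).toNat)) := by
    rw [← sum_add_distrib]
    exact sum_congr rfl fun m _ => by ring
  rw [e0]
  refine (norm_add_le _ _).trans ?_
  have e1 : ‖∑ m ∈ Icc 1 x, (c m * tub α β N (q + D * τ m) (FW W α β f g a0 h0 a h (q + D * τ m)) -
        c m * tub α β N q (fun n X => (Wb W (Uz α β n + bq β q) q X * ∏ i, g i ((lin (a i) n X + q * h i).toNat)) *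
          f ((lin a0 n X + q * h0 + τ m * Δ).toNat)))‖ ≤ x * ((6 + 2 * W.L) * s * E / q + ε) := by
    refine (norm_sum_le _ _).trans ((sum_le_sum hterm).trans ?_)
    rw [sum_const, Nat.card_Icc, Nat.add_sub_cancel, nsmul_eq_mul]
  rw [hEd] at e1
  push_cast at e1
  linarith

end Pool.Agent.Q270.EY
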