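import Pool.Agent.Q270.EY.SeqO
import Pool.Agent.Q270.EY.SeqV
import Pool.Agent.Q270.EW.Fin

/-!
Project EY (helper270): the uniform statements with weights, and the reduction of the general statements.
-/

set_option autoImplicit false

namespace Pool.Agent.Q270.EY

open Finset Filter Topology Pool.Agent.Q270.EA Pool.Agent.Q270.EB Pool.Agent.Q270.EC Pool.Agent.Q119.EA
open Pool.Agent.Q270.EV Pool.Agent.Q270.EW
open Pool.Agent.Q270.EH (EX_const)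
open Pool.Agent.TH823.MRS (ExpoSmall)

variable {s k : ℕ}

/-- the uniform statement, homogeneous forms -/
theorem oww_unif (G : DatO s k) (W : Wt s) (c : ℕ → ℂ) (κ₀ : ℝ) (hκ₀ : 0 < κ₀) (hSep : Sep c κ₀) (P₀ : ℕ)
    (ε : ℝ) (hε : 0 < ε) :
    ∃ X₀ : ℕ, ∀ X : ℕ, X₀ ≤ X → ∀ (g cj : Fin k → ℕ → ℂ), (∀ j n, ‖g j n‖ ≤ 1) →
      (∀ j (p : ℕ), p.Prime → P₀ ≤ p → ‖cj j p‖ ≤ 1) →
      (∀ p : ℕ, p.Prime → P₀ ≤ p → ∏ j, cj j p = c p) →
      (∀ j (p n : ℕ), p.Prime → P₀ ≤ p → ¬ p ∣ n → g j (p * n) = cj j p * g j n) →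
      EX X (fun N _ => ‖AvN N (phiW (GZ G G.z) W one g)‖) ≤ ε := by
  classical
  by_contra hcon
  push Not at hcon
  choose X hX g cj hg1 hcj hgc hgm hgX using hcon
  have hXt : Tendsto X atTop atTop := tendsto_atTop_mono hX tendsto_id
  exact owseqW G W c κ₀ hκ₀ hSep P₀ X hXt g hg1 cj hcj hgc hgm ε hε (fun i => (hgX i).le)

/-- the uniform statement, affine forms -/
theorem evw_unif (G : Dat s k) (W : Wt s) (P₀ : ℕ) (f : ℕ → ℂ) (hf : ∀ n, f n = 0 ∨ f n = 1 ∨ f n = -1) (hf0 : f 0 = 0)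
    (hfp : ∀ p n : ℕ, p.Prime → 1 ≤ n → ¬ p ∣ n → f (p * n) = - f n) (hEs : ExpoSmall f)
    (ε : ℝ) (hε : 0 < ε) :
    ∃ X₀ : ℕ, ∀ X : ℕ, X₀ ≤ X → ∀ (g cj : Fin k → ℕ → ℂ), (∀ j n, ‖g j n‖ ≤ 1) →
      (∀ j (p : ℕ), p.Prime → P₀ ≤ p → ‖cj j p‖ = 1) →
      (∀ j (p n : ℕ), p.Prime → P₀ ≤ p → ¬ p ∣ n → g j (p * n) = cj j p * g j n) →
      EX X (fun N _ => ‖AvN N (phiW G W f g)‖) ≤ ε := by
  classical
  by_contra hcon
  push Not at hcon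
  choose X hX g cj hg1 hcj hgm hgX using hcon
  have hXt : Tendsto X atTop atTop := tendsto_atTop_mono hX tendsto_id
  exact evseqW G W P₀ f hf hf0 hfp hEs X hXt g hg1 cj hcj hgm ε hε (fun i => (hgX i).le)

/-- positive slopes and offsets -/
lemma shift_up (α β : Fin s → ℝ) : ∃ (K K' : Fin s → ℕ) (α' β' : Fin s → ℝ), (α' = fun i => α i + K i) ∧
    (β' = fun i => β i + K' i) ∧ (∀ i, 0 < α' i) ∧ (∀ i, 0 ≤ β' i) ∧
    (∀ n : ℤ, ∀ i, Uz α' β' n i = Uz α β n i + K i * n + K' i) ∧ (∀ n : ℤ, fr α' β' n = fr α β n) := by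
  choose K hK using fun i => exists_nat_gt (-α i)
  choose K' hK' using fun i => exists_nat_ge (-β i)
  have hUz : ∀ n : ℤ, ∀ i, Uz (fun i => α i + K i) (fun i => β i + K' i) n i = Uz α β n i + K i * n + K' i := by
    intro n i
    unfold Uz
    have e1 : (α i + K i) * (n : ℝ) + (β i + K' i) = (α i * n + β i) + ((K i * n + K' i : ℤ) : ℝ) := by
      push_cast
      ring
    rw [e1, Int.floor_add_intCast]
    ring
  refine ⟨K, K', _, _, rfl, rfl, fun i => by have := hK i; linarith,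
    fun i => by have := hK' i; linarith, hUz, fun n => ?_⟩
  funext i
  unfold fr
  rw [hUz]
  push_cast
  ring

/-- from `EX` to a logarithmic sum -/
lemma log_of_EX (φ : ℕ → ℂ) (ε : ℝ) (X : ℕ) (hX3 : 3 ≤ X) (h1 : EX X (fun N _ => ‖AvN N φ‖) ≤ ε / 2) (hε : 0 < ε) :
    ∑ N ∈ Icc 1 X, (1 / (N : ℝ)) * ‖(1 / (N : ℂ)) * ∑ n ∈ Icc 1 N, φ n‖ ≤ ε * Real.log X := by
  have hXr0 : (0 : ℝ) < X := by
    have : 0 < X := by omega
    exact_mod_cast this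
  have hlog : 1 ≤ Real.log X := by
    rw [Real.le_log_iff_exp_le hXr0]
    have h3 : (3 : ℝ) ≤ X := by exact_mod_cast hX3
    have := Real.exp_one_lt_d9
    linarith
  have h2 := EX_const X (fun N => ‖AvN N φ‖)
  have h3 := sum_inv_le X
  have hS0 : 0 ≤ ∑ N ∈ Icc 1 X, 1 / (N : ℝ) := sum_nonneg fun _ _ => by positivity
  have e0 : ∀ N : ℕ, (1 / (N : ℂ)) * ∑ n ∈ Icc 1 N, φ n = AvN N φ := fun N => rfl
  simp only [e0]
  rw [← h2]
  calc EX X (fun N _ => ‖AvN N φ‖) * ∑ N ∈ Icc 1 X, 1 / (N : ℝ) ≤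
        ε / 2 * (1 + Real.log X) := by gcongr
    _ ≤ ε / 2 * (2 * Real.log X) := by gcongr; linarith
    _ = _ := by ring

/-- the general statement, homogeneous forms -/
theorem oww_gen (α β : Fin s → ℝ) (hα : Ind α) (W : Wt s) (a : Fin k → ℤ × (Fin s → ℤ))
    (hpos : ∀ j, 0 < ((a j).1 : ℝ) + ∑ i, (a j).2 i * α i)
    (c : ℕ → ℂ) (κ₀ : ℝ) (hκ₀ : 0 < κ₀) (hSep : Sep c κ₀) (P₀ : ℕ) (ε : ℝ) (hε : 0 < ε) :
    ∃ X₀ : ℕ, ∀ X : ℕ, X₀ ≤ X → ∀ (g cj : Fin k → ℕ → ℂ), (∀ j n, ‖g j n‖ ≤ 1) →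
      (∀ j (p : ℕ), p.Prime → P₀ ≤ p → ‖cj j p‖ ≤ 1) →
      (∀ p : ℕ, p.Prime → P₀ ≤ p → ∏ j, cj j p = c p) →
      (∀ j (p n : ℕ), p.Prime → P₀ ≤ p → ¬ p ∣ n → g j (p * n) = cj j p * g j n) →
      ∑ N ∈ Icc 1 X, (1 / (N : ℝ)) * ‖(1 / (N : ℂ)) * ∑ n ∈ Icc 1 N,
        W.w (fr α β n) * ∏ j, g j (lin (a j) n (Uz α β n)).toNat‖ ≤ ε * Real.log X := by
  classical
  obtain ⟨K, K', α', β', hα', hβ', hα0, hβ0, hUz, hfr⟩ := shift_up α β
  obtain ⟨tr, htr⟩ : ∃ tr : ℤ × (Fin s → ℤ) → ℤ × (Fin s → ℤ), tr = fun (a : ℤ × (Fin s → ℤ)) => (a.1 - ∑ i, a.2 i * K i, a.2) := ⟨_, rfl⟩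
  have hfv : ∀ (a : ℤ × (Fin s → ℤ)) (n : ℤ), lin (tr a) n (fun i => Uz α' β' n i + -(K' i : ℤ)) = lin a n (Uz α β n) := by
    intro a n
    unfold lin
    rw [htr]
    dsimp only
    have e1 : ∑ i, a.2 i * (Uz α' β' n i + -(K' i : ℤ)) = ∑ i, a.2 i * Uz α β n i + (∑ i, a.2 i * K i) * n := by
      rw [sum_mul, ← sum_add_distrib]
      refine sum_congr rfl fun i _ => ?_
      rw [hUz]
      ring
    rw [e1]
    ring
  have hslope : ∀ a : ℤ × (Fin s → ℤ), ((tr a).1 : ℝ) + ∑ i, (tr a).2 i * α' i = (a.1 : ℝ) + ∑ i, a.2 i * α i := by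
    intro a
    rw [htr, hα']
    dsimp only
    push_cast
    simp only [mul_add, sum_add_distrib]
    ring
  obtain ⟨G, hG1, hG2, hG3, hG4⟩ : ∃ G : DatO s k, G.α = α' ∧ G.β = β' ∧ (∀ j, G.a j = tr (a j)) ∧ G.z = fun i => -(K' i : ℤ) :=
    ⟨{ α := α'
       β := β'
       a := fun j => tr (a j)
       z := fun i => -(K' i : ℤ)
       α0 := hα0
       β0 := hβ0
       ind := fun c d hcd => by
         refine hα c (d - ∑ i, c i * K i) ?_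
         rw [hα'] at hcd
         push_cast
         rw [← hcd]
         simp only [mul_add, sum_add_distrib]
         ring
       pos := fun j => by rw [hslope]; exact hpos j }, rfl, rfl, fun _ => rfl, rfl⟩
  obtain ⟨X₀, hX₀⟩ := oww_unif G W c κ₀ hκ₀ hSep P₀ (ε / 2) (by positivity)
  refine ⟨max X₀ 3, fun X hX g cj hg hcj hgc hgm => ?_⟩
  have h1 := hX₀ X ((le_max_left _ _).trans hX) g cj hg hcj hgc hgm
  have hX3 : 3 ≤ X := (le_max_right _ _).trans hX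
  have h2 := log_of_EX _ ε X hX3 h1 hε
  refine le_trans (le_of_eq (sum_congr rfl fun N _ => ?_)) h2
  congr 3
  refine sum_congr rfl fun n _ => ?_
  unfold phiW
  rw [phi_GZ]
  change _ = W.w (fr G.α G.β n) * _
  rw [hG1, hG2, hfr, hG4]
  congr 1
  unfold PsH
  refine prod_congr rfl fun j _ => ?_
  rw [hG3, hfv]

/-- the general statement, affine forms -/
theorem evw_gen (α β : Fin s → ℝ) (hα : Ind α) (W : Wt s) (a0 : ℤ × (Fin s → ℤ)) (h0 : ℤ) (a : Fin k → ℤ × (Fin s → ℤ))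
    (h : Fin k → ℤ)
    (hpos0 : 0 < (a0.1 : ℝ) + ∑ i, a0.2 i * α i) (hpos : ∀ j, 0 < ((a j).1 : ℝ) + ∑ i, (a j).2 i * α i)
    (D : ℕ) (y0 : ℤ) (y : Fin s → ℤ) (hv : ∀ i, lin (a i) y0 y + D * h i = 0) (hΔ : lin a0 y0 y + D * h0 ≠ 0)
    (P₀ : ℕ) (f : ℕ → ℂ) (hf : ∀ n, f n = 0 ∨ f n = 1 ∨ f n = -1) (hf0 : f 0 = 0)
    (hfp : ∀ p n : ℕ, p.Prime → 1 ≤ n → ¬ p ∣ n → f (p * n) = - f n) (hEs : ExpoSmall f) (ε : ℝ) (hε : 0 < ε) :
    ∃ X₀ : ℕ, ∀ X : ℕ, X₀ ≤ X → ∀ (g cj : Fin k → ℕ → ℂ), (∀ j n, ‖g j n‖ ≤ 1) →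
      (∀ j (p : ℕ), p.Prime → P₀ ≤ p → ‖cj j p‖ = 1) →
      (∀ j (p n : ℕ), p.Prime → P₀ ≤ p → ¬ p ∣ n → g j (p * n) = cj j p * g j n) →
      ∑ N ∈ Icc 1 X, (1 / (N : ℝ)) * ‖(1 / (N : ℂ)) * ∑ n ∈ Icc 1 N,
        W.w (fr α β n) * (f (fv α β a0 h0 n).toNat * ∏ j, g j (fv α β (a j) (h j) n).toNat)‖ ≤ ε * Real.log X := by
  classical
  obtain ⟨K, K', α', β', hα', hβ', hα0, hβ0, hUz, hfr⟩ := shift_up α β
  obtain ⟨tr, htr⟩ : ∃ tr : ℤ × (Fin s → ℤ) → ℤ × (Fin s → ℤ), tr = fun (a : ℤ × (Fin s → ℤ)) => (a.1 - ∑ i, a.2 i * K i, a.2) := ⟨_, rfl⟩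
  obtain ⟨th, hth⟩ : ∃ th : ℤ × (Fin s → ℤ) → ℤ → ℤ, th = fun (a : ℤ × (Fin s → ℤ)) (h : ℤ) => h - ∑ i, a.2 i * K' i :=
    ⟨_, rfl⟩
  have hfv : ∀ (a : ℤ × (Fin s → ℤ)) (h : ℤ) (n : ℕ), fv α' β' (tr a) (th a h) n = fv α β a h n := by
    intro a h n
    unfold fv lin
    rw [htr, hth]
    dsimp only
    have e1 : ∑ i, a.2 i * Uz α' β' n i = ∑ i, a.2 i * Uz α β n i + (∑ i, a.2 i * K i) * n + ∑ i, a.2 i * K' i := by
      rw [sum_mul, ← sum_add_distrib, ← sum_add_distrib]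
      refine sum_congr rfl fun i _ => ?_
      rw [hUz]
      ring
    rw [e1]
    ring
  have hslope : ∀ a : ℤ × (Fin s → ℤ), ((tr a).1 : ℝ) + ∑ i, (tr a).2 i * α' i = (a.1 : ℝ) + ∑ i, a.2 i * α i := by
    intro a
    rw [htr, hα']
    dsimp only
    push_cast
    simp only [mul_add, sum_add_distrib]
    ring
  have hkill : ∀ (a : ℤ × (Fin s → ℤ)) (h : ℤ), lin (tr a) y0 (fun i => y i + K i * y0 + K' i * D) + D * th a h =
      lin a y0 y + D * h := by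
    intro a h
    unfold lin
    rw [htr, hth]
    dsimp only
    have e1 : ∑ i, a.2 i * (y i + K i * y0 + K' i * D) = ∑ i, a.2 i * y i + (∑ i, a.2 i * K i) * y0 +
        (∑ i, a.2 i * K' i) * D := by
      rw [sum_mul, sum_mul, ← sum_add_distrib, ← sum_add_distrib]
      exact sum_congr rfl fun i _ => by ring
    rw [e1]
    ring
  obtain ⟨G, hG⟩ : ∃ G : Dat s k, G.α = α' ∧ G.β = β' ∧ G.a0 = tr a0 ∧ G.h0 = th a0 h0 ∧
      (∀ j, G.a j = tr (a j)) ∧ (∀ j, G.h j = th (a j) (h j)) :=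
    ⟨{ α := α'
       β := β'
       a0 := tr a0
       h0 := th a0 h0
       a := fun j => tr (a j)
       h := fun j => th (a j) (h j)
       D := D
       y0 := y0
       y := fun i => y i + K i * y0 + K' i * D
       α0 := hα0
       β0 := hβ0
       ind := fun c d hcd => by
         refine hα c (d - ∑ i, c i * K i) ?_
         rw [hα'] at hcd
         push_cast
         rw [← hcd]
         simp only [mul_add, sum_add_distrib]
         ring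
       pos0 := by rw [hslope]; exact hpos0
       pos := fun j => by rw [hslope]; exact hpos j
       kill := fun j => by rw [hkill]; exact hv j
       nkill := by rw [hkill]; exact hΔ }, rfl, rfl, rfl, rfl, fun _ => rfl, fun _ => rfl⟩
  obtain ⟨hG1, hG2, hG3, hG4, hG5, hG6⟩ := hG
  have hw0 : ∀ n, w0 G n = fv α β a0 h0 n := by
    intro n
    rw [← hfv]
    unfold w0 fv
    rw [hG1, hG2, hG3, hG4]
  have hwj : ∀ j n, wj G j n = fv α β (a j) (h j) n := by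
    intro j n
    rw [← hfv]
    unfold wj fv
    rw [hG1, hG2, hG5, hG6]
  obtain ⟨X₀, hX₀⟩ := evw_unif G W P₀ f hf hf0 hfp hEs (ε / 2) (by positivity)
  refine ⟨max X₀ 3, fun X hX g cj hg hcj hgm => ?_⟩
  have h1 := hX₀ X ((le_max_left _ _).trans hX) g cj hg hcj hgm
  have hX3 : 3 ≤ X := (le_max_right _ _).trans hX
  have h2 := log_of_EX _ ε X hX3 h1 hε
  refine le_trans (le_of_eq (sum_congr rfl fun N _ => ?_)) h2
  congr 3
  refine sum_congr rfl fun n _ => ?_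
  unfold phiW
  rw [phiV_eq, hw0, hG1, hG2, hfr]
  simp only [hwj]

end Pool.Agent.Q270.EY
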