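import Pool.Agent.Q270.EY.Pce

/-!
Project EY (helper270): a family of real lines with one relation.
-/

set_option autoImplicit false

namespace Pool.Agent.Q270.EY

open Finset Filter Topology Pool.Agent.Q270.EA Pool.Agent.Q270.EB Pool.Agent.Q270.EC Pool.Agent.Q119.EA
open Pool.Agent.Q270.EV Pool.Agent.Q270.EW
open Pool.Agent.Q270.EH (cnt cnt_eq cnt_mono nz sparse)

variable {s : ℕ}

/-- the relation at one position -/
lemma rel_at (α : Fin s → ℝ) (b : Fin s → ℤ) (B : ℤ) (D : ℕ) (γ : ℝ)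
    (hrel : (D : ℝ) = ∑ i, b i * α i + B * γ) (n : ℕ) :
    (D : ℝ) * n - ((∑ i, b i * ⌊α i * n⌋ : ℤ) : ℝ) = ∑ i, b i * fr α 0 n i + B * (γ * n) := by
  have e1 : ∑ i, (b i : ℝ) * fr α 0 n i = (∑ i, b i * α i) * n - ((∑ i, b i * ⌊α i * n⌋ : ℤ) : ℝ) := by
    unfold fr Uz
    push_cast
    rw [sum_mul, ← sum_sub_distrib]
    refine sum_congr rfl fun i _ => ?_
    simp only [Pi.zero_apply, add_zero]
    ring
  rw [e1, hrel]
  ring

lemma fr_sum (α : Fin s → ℝ) (b : Fin s → ℤ) (n : ℤ) : |∑ i, (b i : ℝ) * fr α 0 n i| ≤ ∑ i, |(b i : ℝ)| := by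
  refine (abs_sum_le_sum_abs _ _).trans (sum_le_sum fun i _ => ?_)
  obtain ⟨f1, f2⟩ := fr_mem α 0 n i
  rw [abs_mul, abs_of_nonneg f1]
  exact mul_le_of_le_one_right (abs_nonneg _) f2.le

/-- the value on the dependent line as a sum over the pieces -/
lemma decomp (α : Fin s → ℝ) (b : Fin s → ℤ) (B : ℤ) (hB : B ≠ 0) (D : ℕ) (γ : ℝ) (hγ : 0 < γ)
    (hrel : (D : ℝ) = ∑ i, b i * α i + B * γ) (Vs : Finset ℤ)
    (hVs : ∀ n : ℕ, 1 ≤ n → D * n - ∑ i, b i * ⌊α i * n⌋ - B * ⌊γ * n⌋ ∈ Vs) :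
    ∃ n₀ : ℕ, ∀ n : ℕ, n₀ ≤ n → 1 ≤ n → lam ⌊γ * n⌋.toNat =
      ∑ v ∈ Vs, (if 0 ≤ tv b B v (fr α 0 n) ∧ tv b B v (fr α 0 n) < 1 then (1 : ℂ) else 0) *
        gB B.natAbs (Fv α b B D v n).toNat := by
  classical
  obtain ⟨K, hK⟩ : ∃ K : ℝ, K = ∑ i, |(b i : ℝ)| + ∑ v ∈ Vs, |(v : ℝ)| := ⟨_, rfl⟩
  have hK0 : 0 ≤ K := by
    rw [hK]
    exact add_nonneg (sum_nonneg fun _ _ => abs_nonneg _) (sum_nonneg fun _ _ => abs_nonneg _)
  obtain ⟨n₀, hn₀⟩ := exists_nat_ge ((K + 2) / γ)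
  have hBr : (B : ℝ) ≠ 0 := by exact_mod_cast hB
  have hB1 : (1 : ℝ) ≤ |(B : ℝ)| := by
    have : (1 : ℤ) ≤ |B| := Int.one_le_abs hB
    exact_mod_cast this
  refine ⟨n₀, fun n hn hn1 => ?_⟩
  have hγn : K + 2 ≤ γ * n := by
    rw [div_le_iff₀ hγ] at hn₀
    have : (n₀ : ℝ) ≤ n := by exact_mod_cast hn
    nlinarith
  obtain ⟨S, hS⟩ : ∃ S : ℤ, S = ∑ i, b i * ⌊α i * n⌋ := ⟨_, rfl⟩
  obtain ⟨Θ, hΘ⟩ : ∃ Θ : ℝ, Θ = ∑ i, b i * fr α 0 n i := ⟨_, rfl⟩
  have hΘb : |Θ| ≤ ∑ i, |(b i : ℝ)| := by rw [hΘ]; exact fr_sum α b n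
  have hr := rel_at α b B D γ hrel n
  rw [← hS, ← hΘ] at hr
  obtain ⟨z, hz⟩ : ∃ z : ℤ, z = ⌊γ * n⌋ := ⟨_, rfl⟩
  have hz1 := Int.floor_le (γ * n)
  have hz2 := Int.lt_floor_add_one (γ * n)
  rw [← hz] at hz1 hz2
  have hzpos : 1 ≤ z := by
    have : (0 : ℝ) < z := by linarith
    have : 0 < z := by exact_mod_cast this
    omega
  obtain ⟨v₀, hv₀⟩ : ∃ v₀ : ℤ, v₀ = D * n - S - B * z := ⟨_, rfl⟩
  have hv₀m : v₀ ∈ Vs := by
    rw [hv₀, hS, hz]
    exact hVs n hn1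
  have hv₀r : (v₀ : ℝ) = Θ + B * (γ * n - z) := by
    rw [hv₀]
    push_cast
    linarith
  have htv : ∀ v : ℤ, tv b B v (fr α 0 n) = (v - Θ) / B := fun v => by unfold tv; rw [hΘ]
  have hFv : ∀ v : ℤ, Fv α b B D v n = B.sign * (v₀ + B * z - v) := fun v => by
    unfold Fv
    rw [← hS, hv₀]
    ring
  have hFpos : ∀ v ∈ Vs, 0 < Fv α b B D v n := by
    intro v hv
    have h1 : |(v : ℝ)| ≤ ∑ v ∈ Vs, |(v : ℝ)| := single_le_sum (f := fun v : ℤ => |(v : ℝ)|) (fun _ _ => abs_nonneg _) hv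
    have h2 : ((Fv α b B D v n : ℤ) : ℝ) = (B.natAbs : ℝ) * (γ * n) + (B.sign : ℝ) * (Θ - v) := by
      rw [hFv]
      push_cast
      rw [hv₀r, ← sign_abs]
      push_cast
      ring
    have h3 : |(B.sign : ℝ)| ≤ 1 := by
      rcases lt_trichotomy B 0 with h | h | h
      · rw [Int.sign_eq_neg_one_of_neg h]; simp
      · exact absurd h hB
      · rw [Int.sign_eq_one_of_pos h]; simp
    have h4 : |(B.sign : ℝ) * (Θ - v)| ≤ K := by
      rw [abs_mul]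
      refine (mul_le_of_le_one_left (abs_nonneg _) h3).trans ?_
      rw [hK]
      exact (abs_sub _ _).trans (add_le_add hΘb h1)
    have h5 : (1 : ℝ) ≤ B.natAbs := by exact_mod_cast Int.natAbs_pos.mpr hB
    have h6 : γ * n ≤ (B.natAbs : ℝ) * (γ * n) := by
      have : 0 ≤ γ * n := by linarith
      nlinarith
    have h7 := (abs_le.1 h4).1
    have : (0 : ℝ) < ((Fv α b B D v n : ℤ) : ℝ) := by rw [h2]; linarith
    exact_mod_cast this
  rw [sum_eq_single v₀]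
  · have h1 : tv b B v₀ (fr α 0 n) = γ * n - z := by
      rw [htv, hv₀r]
      field_simp
      ring
    have h2 : Fv α b B D v₀ n = (B.natAbs : ℤ) * z := by
      rw [hFv, ← Int.sign_mul_self_eq_natAbs]
      ring
    have h3 : (Fv α b B D v₀ n).toNat = B.natAbs * z.toNat := by
      rw [h2, Int.toNat_mul (by positivity) (by omega), Int.toNat_natCast]
    rw [h1, if_pos ⟨by linarith, by linarith⟩, one_mul, h3, ← hz]
    unfold gB
    rw [if_pos (dvd_mul_right _ _), lam_mul (Int.natAbs_ne_zero.mpr hB) (by omega), ← mul_assoc, lam_sq, one_mul]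
  · intro v hv hvv
    by_contra hne
    have h1 : 0 ≤ tv b B v (fr α 0 n) ∧ tv b B v (fr α 0 n) < 1 := by
      by_contra h
      rw [if_neg h, zero_mul] at hne
      exact hne rfl
    have h2 : B.natAbs ∣ (Fv α b B D v n).toNat := by
      by_contra h
      unfold gB at hne
      rw [if_neg h, mul_zero, mul_zero] at hne
      exact hne rfl
    have h3 : (B.natAbs : ℤ) ∣ Fv α b B D v n := by
      have h4 : (((Fv α b B D v n).toNat : ℕ) : ℤ) = Fv α b B D v n := Int.toNat_of_nonneg (hFpos v hv).le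
      rw [← h4]
      exact_mod_cast h2
    have h4 : B ∣ v₀ - v := by
      have h5 : B ∣ Fv α b B D v n := Int.natAbs_dvd.1 h3
      rw [hFv] at h5
      have h6 : B ∣ B.sign * (B.sign * (v₀ + B * z - v)) := dvd_mul_of_dvd_right h5 _
      have h7 : B.sign * (B.sign * (v₀ + B * z - v)) = v₀ + B * z - v := by
        rw [← mul_assoc]
        rcases lt_trichotomy B 0 with h | h | h
        · rw [Int.sign_eq_neg_one_of_neg h]; ring
        · exact absurd h hB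
        · rw [Int.sign_eq_one_of_pos h]; ring
      rw [h7] at h6
      have h8 : v₀ - v = (v₀ + B * z - v) - B * z := by ring
      rw [h8]
      exact dvd_sub h6 (dvd_mul_right _ _)
    obtain ⟨t, ht⟩ := h4
    rw [htv] at h1
    have h5 : ((v : ℝ) - Θ) / B = (γ * n - z) - t := by
      have h6 : (v : ℝ) = v₀ - B * t := by
        have : (v₀ : ℝ) - v = B * t := by exact_mod_cast ht
        linarith
      rw [h6, hv₀r]
      field_simp
      ring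
    rw [h5] at h1
    have h6 : (-1 : ℝ) < t := by linarith [h1.2]
    have h7 : (t : ℝ) < 1 := by linarith [h1.1]
    have h8 : t = 0 := by
      have : -1 < t := by exact_mod_cast h6
      have : t < 1 := by exact_mod_cast h7
      omega
    rw [h8, mul_zero] at ht
    omega
  · intro h
    exact absurd hv₀m h

lemma sum_inv_sq (X : ℕ) : ∑ N ∈ Icc 1 X, 1 / (N : ℝ) ^ 2 ≤ 2 := by
  have h4 : ∀ X : ℕ, 1 ≤ X → ∑ N ∈ Icc 1 X, 1 / (N : ℝ) ^ 2 ≤ 2 - 1 / (X : ℝ) := by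
    intro X hX
    induction X, hX using Nat.le_induction with
    | base => norm_num
    | succ X hX ih =>
      rw [sum_Icc_succ_top (by omega)]
      have hX0 : (0 : ℝ) < X := by exact_mod_cast hX
      have h5 : 1 / ((X + 1 : ℕ) : ℝ) ^ 2 ≤ 1 / X - 1 / ((X + 1 : ℕ) : ℝ) := by
        push_cast
        rw [div_sub_div _ _ (by positivity) (by positivity), div_le_div_iff₀ (by positivity) (by positivity)]
        nlinarith
      linarith
  rcases Nat.eq_zero_or_pos X with h | h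
  · subst h
    simp
  · refine (h4 X h).trans ?_
    have : 0 < 1 / (X : ℝ) := by positivity
    linarith

/-- the product along the lines -/
noncomputable def Tl (α : Fin s → ℝ) (γ : ℝ) (n : ℕ) : ℂ := lam n * ((∏ i, lam ⌊α i * n⌋.toNat) * lam ⌊γ * n⌋.toNat)

lemma norm_Tl (α : Fin s → ℝ) (γ : ℝ) (n : ℕ) : ‖Tl α γ n‖ ≤ 1 := by
  unfold Tl
  rw [norm_mul, norm_mul, norm_prod, lam_norm, lam_norm, one_mul, mul_one]
  exact prod_le_one (fun _ _ => norm_nonneg _) fun i _ => (lam_norm _).le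

/-- the theorem for lines with one relation -/
theorem lines (α : Fin s → ℝ) (hα : Ind α) (hα0 : ∀ i, 0 < α i) (b : Fin s → ℤ) (B : ℤ) (hB : B ≠ 0) (D : ℕ)
    (γ : ℝ) (hγ : 0 < γ) (hirr : Irrational γ) (hrel : (D : ℝ) = ∑ i, b i * α i + B * γ) (Vs : Finset ℤ)
    (hVs : ∀ n : ℕ, 1 ≤ n → D * n - ∑ i, b i * ⌊α i * n⌋ - B * ⌊γ * n⌋ ∈ Vs) (h0 : 0 ∈ Vs → Odd s)
    (ε : ℝ) (hε : 0 < ε) :
    ∃ X₀ : ℕ, ∀ X : ℕ, X₀ ≤ X → ∑ N ∈ Icc 1 X, (1 / (N : ℝ)) * ‖(1 / (N : ℂ)) * ∑ n ∈ Icc 1 N, Tl α γ n‖ ≤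
      ε * Real.log X := by
  classical
  obtain ⟨c, hc⟩ : ∃ c : ℝ, c = Vs.card := ⟨_, rfl⟩
  have hc0 : 0 ≤ c := by rw [hc]; positivity
  obtain ⟨τ₁, hτ₁⟩ : ∃ τ₁ : ℝ, τ₁ = ε / (8 * (c + 1)) := ⟨_, rfl⟩
  have hτ₁0 : 0 < τ₁ := by rw [hτ₁]; positivity
  have hcτ : c * τ₁ ≤ ε / 8 := by
    rw [hτ₁]
    have h1 : c * (ε / (8 * (c + 1))) = (c / (c + 1)) * (ε / 8) := by field_simp
    rw [h1]
    refine mul_le_of_le_one_left (by positivity) ?_
    rw [div_le_one (by positivity)]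
    linarith
  obtain ⟨ε₁, hε₁⟩ : ∃ ε₁ : ℝ, ε₁ = ε / (4 * (c + 1)) := ⟨_, rfl⟩
  have hε₁0 : 0 < ε₁ := by rw [hε₁]; positivity
  have hcε : c * ε₁ ≤ ε / 4 := by
    rw [hε₁]
    have h1 : c * (ε / (4 * (c + 1))) = (c / (c + 1)) * (ε / 4) := by field_simp
    rw [h1]
    refine mul_le_of_le_one_left (by positivity) ?_
    rw [div_le_one (by positivity)]
    linarith
  have hBr : (B : ℝ) ≠ 0 := by exact_mod_cast hB
  have hBa : 0 < |(B : ℝ)| := abs_pos.mpr hBr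
  obtain ⟨η, hη⟩ : ∃ η : ℝ, η = ∑ i, b i * α i := ⟨_, rfl⟩
  have hηirr : Irrational η := by
    have h1 : η = (D : ℝ) - B * γ := by rw [hη, hrel]; ring
    rw [h1]
    exact (hirr.intCast_mul hB).natCast_sub D
  obtain ⟨η', hη', hη'0⟩ : ∃ η' : ℝ, (∀ (c : ℝ) (N : ℕ), cnt N (fun m : ℕ => nz (η * m + c) η') ≤ τ₁ * N + 1) ∧
      0 < η' := ((sparse η hηirr τ₁ hτ₁0).and self_mem_nhdsWithin).exists
  obtain ⟨δ, hδ⟩ : ∃ δ : ℝ, δ = η' / |(B : ℝ)| := ⟨_, rfl⟩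
  have hδ0 : 0 < δ := by rw [hδ]; positivity
  have hδB : |(B : ℝ)| * δ = η' := by rw [hδ]; field_simp
  obtain ⟨n₀, hn₀⟩ := decomp α b B hB D γ hγ hrel Vs hVs
  -- the pieces
  have hpc : ∀ v ∈ Vs, ∃ X₀ : ℕ, ∀ X : ℕ, X₀ ≤ X → ∑ N ∈ Icc 1 X, (1 / (N : ℝ)) * ‖(1 / (N : ℂ)) * ∑ n ∈ Icc 1 N,
        (Wv b B v δ hδ0).w (fr α 0 n) * Tp α b B D v n‖ ≤ ε₁ * Real.log X := by
    intro v hv
    by_cases hv0 : v = 0
    · subst hv0
      exact piece_zero α hα hα0 b B hB D γ hγ hrel (h0 hv) _ ε₁ hε₁0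
    · exact piece_ne α hα hα0 b B hB D γ hγ hrel v hv0 _ ε₁ hε₁0
  choose! X₁ hX₁ using hpc
  obtain ⟨K, hK⟩ : ∃ K : ℝ, K = (1 + c) * n₀ + c := ⟨_, rfl⟩
  have hK0 : 0 ≤ K := by rw [hK]; positivity
  obtain ⟨X₂, hX₂⟩ := exists_nat_ge (Real.exp (8 * K / ε))
  refine ⟨(∑ v ∈ Vs, X₁ v) + X₂ + 3, fun X hX => ?_⟩
  have hXv : ∀ v ∈ Vs, X₁ v ≤ X := fun v hv => by
    have := single_le_sum (f := X₁) (fun _ _ => Nat.zero_le _) hv
    omega
  have hX3 : 3 ≤ X := by omega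
  have hXr0 : (0 : ℝ) < X := by
    have : 0 < X := by omega
    exact_mod_cast this
  have hlog : 1 ≤ Real.log X := by
    rw [Real.le_log_iff_exp_le hXr0]
    have h3 : (3 : ℝ) ≤ X := by exact_mod_cast hX3
    have := Real.exp_one_lt_d9
    linarith
  have hlogn : 8 * K / ε ≤ Real.log X := by
    rw [Real.le_log_iff_exp_le hXr0]
    have h3 : (X₂ : ℝ) ≤ X := by exact_mod_cast (by omega : X₂ ≤ X)
    linarith
  -- one position
  have hpos : ∀ n : ℕ, 1 ≤ n → ‖Tl α γ n - ∑ v ∈ Vs, (Wv b B v δ hδ0).w (fr α 0 n) * Tp α b B D v n‖ ≤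
      (if n < n₀ then 1 + c else 0) + c * (if nz (η * n + 0) η' then 1 else 0) := by
    intro n hn
    split_ifs with hlt hnz hnz
    · refine (norm_sub_le _ _).trans ?_
      have h1 : ‖∑ v ∈ Vs, (Wv b B v δ hδ0).w (fr α 0 n) * Tp α b B D v n‖ ≤ c := by
        refine (norm_sum_le _ _).trans ((sum_le_sum fun v _ => ?_ : _ ≤ ∑ v ∈ Vs, (1 : ℝ)).trans ?_)
        · rw [norm_mul]
          exact mul_le_one₀ ((Wv b B v δ hδ0).le _) (norm_nonneg _) (norm_Tp _ _ _ _ _ _)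
        · rw [hc]
          simp
      linarith [norm_Tl α γ n]
    · refine (norm_sub_le _ _).trans ?_
      have h1 : ‖∑ v ∈ Vs, (Wv b B v δ hδ0).w (fr α 0 n) * Tp α b B D v n‖ ≤ c := by
        refine (norm_sum_le _ _).trans ((sum_le_sum fun v _ => ?_ : _ ≤ ∑ v ∈ Vs, (1 : ℝ)).trans ?_)
        · rw [norm_mul]
          exact mul_le_one₀ ((Wv b B v δ hδ0).le _) (norm_nonneg _) (norm_Tp _ _ _ _ _ _)
        · rw [hc]
          simp
      linarith [norm_Tl α γ n]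
    all_goals
      have hdec := hn₀ n (by omega) hn
      have e1 : Tl α γ n - ∑ v ∈ Vs, (Wv b B v δ hδ0).w (fr α 0 n) * Tp α b B D v n =
          ∑ v ∈ Vs, ((if 0 ≤ tv b B v (fr α 0 n) ∧ tv b B v (fr α 0 n) < 1 then (1 : ℂ) else 0) -
            (Wv b B v δ hδ0).w (fr α 0 n)) * Tp α b B D v n := by
        have e2 : Tl α γ n = ∑ v ∈ Vs, (if 0 ≤ tv b B v (fr α 0 n) ∧ tv b B v (fr α 0 n) < 1 then (1 : ℂ) else 0) *
            Tp α b B D v n := by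
          unfold Tl
          rw [hdec, mul_sum, mul_sum]
          refine sum_congr rfl fun v _ => ?_
          unfold Tp
          ring
        rw [e2, ← sum_sub_distrib]
        exact sum_congr rfl fun v _ => by ring
      rw [e1]
    · refine (norm_sum_le _ _).trans ((sum_le_sum fun v _ => ?_ : _ ≤ ∑ v ∈ Vs, (1 : ℝ)).trans ?_)
      · rw [norm_mul]
        refine mul_le_one₀ ?_ (norm_nonneg _) (norm_Tp _ _ _ _ _ _)
        have e3 : (if 0 ≤ tv b B v (fr α 0 n) ∧ tv b B v (fr α 0 n) < 1 then (1 : ℂ) else 0) =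
            (((if 0 ≤ tv b B v (fr α 0 n) ∧ tv b B v (fr α 0 n) < 1 then (1 : ℝ) else 0) : ℝ) : ℂ) := by
          split_ifs <;> simp
        rw [e3]
        change ‖_ - ((Phi δ (tv b B v (fr α 0 n)) : ℝ) : ℂ)‖ ≤ 1
        rw [← Complex.ofReal_sub, Complex.norm_real, Real.norm_eq_abs]
        obtain ⟨p1, p2⟩ := Phi_mem δ (tv b B v (fr α 0 n))
        rw [abs_le]
        split_ifs <;> constructor <;> linarith
      · rw [hc]
        simp
    · rw [mul_zero, add_zero]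
      apply le_of_eq
      rw [norm_eq_zero]
      refine sum_eq_zero fun v _ => ?_
      have h1 : ¬ ((0 ≤ tv b B v (fr α 0 n) ∧ tv b B v (fr α 0 n) < δ) ∨
          (1 - δ < tv b B v (fr α 0 n) ∧ tv b B v (fr α 0 n) < 1)) := by
        intro h2
        apply hnz
        obtain ⟨S, hS⟩ : ∃ S : ℤ, S = ∑ i, b i * ⌊α i * n⌋ := ⟨_, rfl⟩
        have e4 : (B : ℝ) * tv b B v (fr α 0 n) = v + S - η * n := by
          unfold tv
          have e5 : ∑ i, (b i : ℝ) * fr α 0 n i = η * n - S := by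
            have := rel_at α b B D γ hrel n
            rw [← hS] at this
            rw [hη]
            have h7 : (D : ℝ) * n = (∑ i, b i * α i + B * γ) * n := by rw [← hrel]
            linarith
          rw [e5]
          field_simp
          ring
        rcases h2 with ⟨h2, h3⟩ | ⟨h2, h3⟩
        · refine ⟨v + S, ?_⟩
          push_cast
          have e6 : η * n + 0 - (v + S) = -(B * tv b B v (fr α 0 n)) := by rw [e4]; ring
          rw [e6, abs_neg, abs_mul, ← hδB, abs_of_nonneg h2]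
          gcongr
        · refine ⟨v + S - B, ?_⟩
          push_cast
          have e6 : η * n + 0 - (v + S - B) = B * (1 - tv b B v (fr α 0 n)) := by rw [mul_sub, e4]; ring
          rw [e6, abs_mul, ← hδB, abs_of_nonneg (by linarith : 0 ≤ 1 - tv b B v (fr α 0 n))]
          gcongr
          linarith
      have h2 := Phi_eq δ hδ0 _ h1
      have h3 : (Wv b B v δ hδ0).w (fr α 0 n) = if 0 ≤ tv b B v (fr α 0 n) ∧ tv b B v (fr α 0 n) < 1 then (1 : ℂ) else 0 := by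
        change ((Phi δ (tv b B v (fr α 0 n)) : ℝ) : ℂ) = _
        rw [h2]
        split_ifs <;> simp
      rw [h3, sub_self, zero_mul]
  -- one scale
  have hscale : ∀ N ∈ Icc 1 X, (1 / (N : ℝ)) * ‖(1 / (N : ℂ)) * ∑ n ∈ Icc 1 N, Tl α γ n‖ ≤
      (∑ v ∈ Vs, (1 / (N : ℝ)) * ‖(1 / (N : ℂ)) * ∑ n ∈ Icc 1 N, (Wv b B v δ hδ0).w (fr α 0 n) * Tp α b B D v n‖) +
        (c * τ₁ * (1 / (N : ℝ)) + K * (1 / (N : ℝ) ^ 2)) := by
    intro N hN
    have hN1 := (mem_Icc.1 hN).1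
    have hN0 : (0 : ℝ) < N := by exact_mod_cast hN1
    have e1 : ‖∑ n ∈ Icc 1 N, Tl α γ n - ∑ v ∈ Vs, ∑ n ∈ Icc 1 N, (Wv b B v δ hδ0).w (fr α 0 n) * Tp α b B D v n‖ ≤
        c * τ₁ * N + K := by
      rw [sum_comm, ← sum_sub_distrib]
      refine (norm_sum_le _ _).trans ((sum_le_sum fun n hn => hpos n (mem_Icc.1 hn).1).trans ?_)
      rw [sum_add_distrib, ← mul_sum, ← sum_filter, sum_const, nsmul_eq_mul, ← sum_filter, sum_const, nsmul_eq_mul,
        mul_one]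
      have h1 : (((Icc 1 N).filter (fun n => n < n₀)).card : ℝ) ≤ n₀ := by
        have h2 : (Icc 1 N).filter (fun n => n < n₀) ⊆ range n₀ := by
          intro n hn
          rw [mem_filter] at hn
          exact mem_range.2 hn.2
        have h3 := card_le_card h2
        rw [card_range] at h3
        exact_mod_cast h3
      have h2 := hη' 0 N
      have h3 : (((Icc 1 N).filter (fun n => n < n₀)).card : ℝ) * (1 + c) ≤ n₀ * (1 + c) := by gcongr
      have h4 : c * cnt N (fun m : ℕ => nz (η * m + 0) η') ≤ c * (τ₁ * N + 1) := by gcongr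
      rw [← cnt_eq] at h4
      rw [hK]
      linarith
    have e2 : ‖∑ n ∈ Icc 1 N, Tl α γ n‖ ≤ (∑ v ∈ Vs, ‖∑ n ∈ Icc 1 N, (Wv b B v δ hδ0).w (fr α 0 n) * Tp α b B D v n‖) +
        (c * τ₁ * N + K) := by
      have h1 := norm_sub_norm_le (∑ n ∈ Icc 1 N, Tl α γ n)
        (∑ v ∈ Vs, ∑ n ∈ Icc 1 N, (Wv b B v δ hδ0).w (fr α 0 n) * Tp α b B D v n)
      have h2 := norm_sum_le Vs (fun v => ∑ n ∈ Icc 1 N, (Wv b B v δ hδ0).w (fr α 0 n) * Tp α b B D v n)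
      linarith
    have e3 : ‖(1 / (N : ℂ))‖ = 1 / (N : ℝ) := by rw [norm_div, norm_one, Complex.norm_natCast]
    simp only [norm_mul, e3]
    rw [← mul_sum, ← mul_sum, ← mul_assoc, ← mul_assoc]
    have h5 : (1 / (N : ℝ) * (1 / N)) * ((∑ v ∈ Vs, ‖∑ n ∈ Icc 1 N, (Wv b B v δ hδ0).w (fr α 0 n) * Tp α b B D v n‖) +
        (c * τ₁ * N + K)) = 1 / (N : ℝ) * (1 / N) * (∑ v ∈ Vs, ‖∑ n ∈ Icc 1 N, (Wv b B v δ hδ0).w (fr α 0 n) * Tp α b B D v n‖) +
        (c * τ₁ * (1 / (N : ℝ)) + K * (1 / (N : ℝ) ^ 2)) := by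
      field_simp
    have h6 : (1 / (N : ℝ) * (1 / N)) * ‖∑ n ∈ Icc 1 N, Tl α γ n‖ ≤ (1 / (N : ℝ) * (1 / N)) *
        ((∑ v ∈ Vs, ‖∑ n ∈ Icc 1 N, (Wv b B v δ hδ0).w (fr α 0 n) * Tp α b B D v n‖) + (c * τ₁ * N + K)) :=
      mul_le_mul_of_nonneg_left e2 (by positivity)
    rw [h5] at h6
    exact h6
  refine (sum_le_sum hscale).trans ?_
  rw [sum_add_distrib, sum_comm, sum_add_distrib, ← mul_sum, ← mul_sum]
  have h1 : ∑ v ∈ Vs, ∑ N ∈ Icc 1 X, (1 / (N : ℝ)) * ‖(1 / (N : ℂ)) * ∑ n ∈ Icc 1 N,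
      (Wv b B v δ hδ0).w (fr α 0 n) * Tp α b B D v n‖ ≤ ε / 4 * Real.log X := by
    refine (sum_le_sum fun v hv => hX₁ v hv X (hXv v hv)).trans ?_
    rw [sum_const, nsmul_eq_mul, ← hc, ← mul_assoc]
    exact mul_le_mul_of_nonneg_right hcε (by linarith)
  have h2 : c * τ₁ * ∑ N ∈ Icc 1 X, 1 / (N : ℝ) ≤ ε / 4 * Real.log X := by
    have h3 := sum_inv_le X
    calc c * τ₁ * ∑ N ∈ Icc 1 X, 1 / (N : ℝ) ≤ ε / 8 * (1 + Real.log X) :=
          mul_le_mul hcτ h3 (sum_nonneg fun _ _ => by positivity) (by positivity)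
      _ ≤ ε / 8 * (2 * Real.log X) := by gcongr; linarith
      _ = _ := by ring
  have h3 : K * ∑ N ∈ Icc 1 X, 1 / (N : ℝ) ^ 2 ≤ ε / 4 * Real.log X := by
    have h4 := sum_inv_sq X
    have h5 : K * ∑ N ∈ Icc 1 X, 1 / (N : ℝ) ^ 2 ≤ K * 2 := by gcongr
    rw [div_le_iff₀ hε] at hlogn
    linarith
  have hl0 : 0 ≤ ε / 4 * Real.log X := by positivity
  linarith

end Pool.Agent.Q270.EY
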