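import Pool.Agent.Q270.EY.Lines

/-!
Project EY (helper270): logarithmic averages.
-/

set_option autoImplicit false

namespace Pool.Agent.Q270.EY

open Finset Filter Topology

/-- partial summation -/
lemma abel (T : ℕ → ℂ) (X : ℕ) :
    ‖∑ n ∈ Icc 1 X, (1 / (n : ℂ)) * T n - (1 / ((X : ℂ) + 1)) * ∑ n ∈ Icc 1 X, T n‖ ≤
      ∑ N ∈ Icc 1 X, (1 / (N : ℝ)) * ‖(1 / (N : ℂ)) * ∑ n ∈ Icc 1 N, T n‖ := by
  induction X with
  | zero => simp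
  | succ X ih =>
    obtain ⟨A, hA⟩ : ∃ A : ℂ, A = ∑ n ∈ Icc 1 X, (1 / (n : ℂ)) * T n := ⟨_, rfl⟩
    obtain ⟨S, hS⟩ : ∃ S : ℂ, S = ∑ n ∈ Icc 1 X, T n := ⟨_, rfl⟩
    obtain ⟨S', hS'⟩ : ∃ S' : ℂ, S' = ∑ n ∈ Icc 1 (X + 1), T n := ⟨_, rfl⟩
    have hSS : S' = S + T (X + 1) := by rw [hS', hS, sum_Icc_succ_top (by omega)]
    rw [← hA, ← hS] at ih
    rw [sum_Icc_succ_top (by omega), sum_Icc_succ_top (by omega : 1 ≤ X + 1) (fun N : ℕ => (1 / (N : ℝ)) * _), ← hA,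
      ← hS']
    have hx1 : ((X : ℂ) + 1) ≠ 0 := by exact_mod_cast Nat.succ_ne_zero X
    have hx2 : ((X : ℂ) + 1 + 1) ≠ 0 := by exact_mod_cast Nat.succ_ne_zero (X + 1)
    have e1 : A + 1 / ((X + 1 : ℕ) : ℂ) * T (X + 1) - 1 / (((X + 1 : ℕ) : ℂ) + 1) * S' =
        (A - 1 / ((X : ℂ) + 1) * S) + S' * (1 / (((X : ℂ) + 1) * ((X : ℂ) + 1 + 1))) := by
      have : T (X + 1) = S' - S := by rw [hSS]; ring
      rw [this]
      push_cast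
      field_simp
      ring
    rw [e1]
    refine (norm_add_le _ _).trans (add_le_add ih ?_)
    rw [norm_mul, norm_mul, norm_div, norm_div, norm_one, norm_mul]
    have n1 : ‖(X : ℂ) + 1‖ = (X : ℝ) + 1 := by
      have : (X : ℂ) + 1 = ((X + 1 : ℕ) : ℂ) := by push_cast; ring
      rw [this, Complex.norm_natCast]
      push_cast
      ring
    have n2 : ‖(X : ℂ) + 1 + 1‖ = (X : ℝ) + 1 + 1 := by
      have : (X : ℂ) + 1 + 1 = ((X + 1 + 1 : ℕ) : ℂ) := by push_cast; ring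
      rw [this, Complex.norm_natCast]
      push_cast
      ring
    rw [n1, n2, Complex.norm_natCast]
    push_cast
    have h1 : (1 : ℝ) / (((X : ℝ) + 1) * ((X : ℝ) + 1 + 1)) ≤ 1 / ((X : ℝ) + 1) * (1 / ((X : ℝ) + 1)) := by
      rw [← one_div_mul_one_div]
      gcongr
      linarith
    calc ‖S'‖ * (1 / (((X : ℝ) + 1) * ((X : ℝ) + 1 + 1))) ≤ ‖S'‖ * (1 / ((X : ℝ) + 1) * (1 / ((X : ℝ) + 1))) :=
          mul_le_mul_of_nonneg_left h1 (norm_nonneg _)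
      _ = _ := by ring

/-- the passage to logarithmic averages -/
theorem log_tend (r : ℕ → ℝ) (hr : ∀ n, |r n| ≤ 1)
    (h : ∀ ε : ℝ, 0 < ε → ∃ X₀ : ℕ, ∀ X : ℕ, X₀ ≤ X →
      ∑ N ∈ Icc 1 X, (1 / (N : ℝ)) * ‖(1 / (N : ℂ)) * ∑ n ∈ Icc 1 N, ((r n : ℝ) : ℂ)‖ ≤ ε * Real.log X) :
    Tendsto (fun N : ℕ => (1 / Real.log (N : ℝ)) * ∑ n ∈ Icc 1 N, (1 / (n : ℝ)) * r n) atTop (nhds 0) := by
  rw [Metric.tendsto_atTop]
  intro ε hε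
  obtain ⟨X₀, hX₀⟩ := h (ε / 4) (by positivity)
  obtain ⟨X₁, hX₁⟩ := exists_nat_ge (Real.exp (4 / ε))
  refine ⟨X₀ + X₁ + 3, fun X hX => ?_⟩
  have hX3 : 3 ≤ X := by omega
  have hXr : (3 : ℝ) ≤ X := by exact_mod_cast hX3
  have hlog : 4 / ε ≤ Real.log X := by
    rw [Real.le_log_iff_exp_le (by linarith)]
    refine hX₁.trans ?_
    exact_mod_cast (by omega : X₁ ≤ X)
  have hlog0 : 0 < Real.log X := lt_of_lt_of_le (by positivity) hlog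
  have h1 := hX₀ X (by omega)
  have h2 := abel (fun n => ((r n : ℝ) : ℂ)) X
  have h3 : ‖(1 / ((X : ℂ) + 1)) * ∑ n ∈ Icc 1 X, ((r n : ℝ) : ℂ)‖ ≤ 1 := by
    have n1 : ‖(X : ℂ) + 1‖ = (X : ℝ) + 1 := by
      have : (X : ℂ) + 1 = ((X + 1 : ℕ) : ℂ) := by push_cast; ring
      rw [this, Complex.norm_natCast]
      push_cast
      ring
    have h4 : ‖∑ n ∈ Icc 1 X, ((r n : ℝ) : ℂ)‖ ≤ X := by
      refine (norm_sum_le _ _).trans ?_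
      calc ∑ n ∈ Icc 1 X, ‖((r n : ℝ) : ℂ)‖ ≤ ∑ n ∈ Icc 1 X, (1 : ℝ) := sum_le_sum fun n _ => by
            rw [Complex.norm_real]
            exact hr n
        _ = X := by simp
    rw [norm_mul, norm_div, norm_one, n1, one_div, inv_mul_le_iff₀ (by positivity)]
    linarith
  have h5 : ‖∑ n ∈ Icc 1 X, (1 / (n : ℂ)) * ((r n : ℝ) : ℂ)‖ ≤ ε / 4 * Real.log X + 1 := by
    have := norm_sub_norm_le (∑ n ∈ Icc 1 X, (1 / (n : ℂ)) * ((r n : ℝ) : ℂ))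
      ((1 / ((X : ℂ) + 1)) * ∑ n ∈ Icc 1 X, ((r n : ℝ) : ℂ))
    linarith
  have h6 : ‖∑ n ∈ Icc 1 X, (1 / (n : ℂ)) * ((r n : ℝ) : ℂ)‖ = |∑ n ∈ Icc 1 X, (1 / (n : ℝ)) * r n| := by
    have : ∑ n ∈ Icc 1 X, (1 / (n : ℂ)) * ((r n : ℝ) : ℂ) = ((∑ n ∈ Icc 1 X, (1 / (n : ℝ)) * r n : ℝ) : ℂ) := by
      push_cast
      rfl
    rw [this, Complex.norm_real, Real.norm_eq_abs]
  rw [h6] at h5
  rw [Real.dist_eq, sub_zero, abs_mul, abs_of_nonneg (by positivity : 0 ≤ 1 / Real.log (X : ℝ)), one_div,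
    inv_mul_lt_iff₀ hlog0]
  have h7 : 1 ≤ ε / 4 * Real.log X := by
    have := (div_le_iff₀ hε).1 hlog
    linarith
  nlinarith

end Pool.Agent.Q270.EY
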