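import Pool.Agent.Q270.EY.Wgt

/-!
Project EY (helper270): the pieces of a family of real lines with one relation.
-/

set_option autoImplicit false

namespace Pool.Agent.Q270.EY

open Finset Filter Topology Pool.Agent.Q270.EA Pool.Agent.Q270.EB Pool.Agent.Q270.EC Pool.Agent.Q119.EA
open Pool.Agent.Q270.EV Pool.Agent.Q270.EW

variable {s : ℕ}

/-- the affine form of a piece -/
noncomputable def Fv (α : Fin s → ℝ) (b : Fin s → ℤ) (B : ℤ) (D : ℕ) (v : ℤ) (n : ℕ) : ℤ :=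
  B.sign * (D * n - ∑ i, b i * ⌊α i * n⌋ - v)

/-- the product of the functions on a piece -/
noncomputable def Tp (α : Fin s → ℝ) (b : Fin s → ℤ) (B : ℤ) (D : ℕ) (v : ℤ) (n : ℕ) : ℂ :=
  lam n * ((∏ i, lam ⌊α i * n⌋.toNat) * gB B.natAbs (Fv α b B D v n).toNat)

lemma norm_Tp (α : Fin s → ℝ) (b : Fin s → ℤ) (B : ℤ) (D : ℕ) (v : ℤ) (n : ℕ) : ‖Tp α b B D v n‖ ≤ 1 := by
  unfold Tp
  rw [norm_mul, norm_mul, lam_norm, one_mul, norm_prod]
  refine mul_le_one₀ (prod_le_one (fun _ _ => norm_nonneg _) fun i _ => (lam_norm _).le) (norm_nonneg _) (gB_norm _ _)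

lemma single_sum (x : Fin s → ℤ) (i : Fin s) : ∑ i', (Pi.single i (1 : ℤ) : Fin s → ℤ) i' * x i' = x i := by
  rw [sum_eq_single i]
  · simp
  · intro j _ hj
    rw [Pi.single_eq_of_ne hj]
    simp
  · simp

lemma single_sumR (x : Fin s → ℝ) (i : Fin s) : ∑ i', (((Pi.single i (1 : ℤ) : Fin s → ℤ) i' : ℤ) : ℝ) * x i' = x i := by
  rw [sum_eq_single i]
  · simp
  · intro j _ hj
    rw [Pi.single_eq_of_ne hj]
    simp
  · simp

lemma sign_abs (B : ℤ) : ((B.sign * B : ℤ) : ℝ) = (B.natAbs : ℝ) := by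
  have h : B.sign * B = (B.natAbs : ℤ) := by rw [Int.sign_mul_self_eq_natAbs]
  rw [h]
  simp

lemma rate_pos (α : Fin s → ℝ) (b : Fin s → ℤ) (B : ℤ) (hB : B ≠ 0) (D : ℕ) (γ : ℝ) (hγ : 0 < γ)
    (hrel : (D : ℝ) = ∑ i, b i * α i + B * γ) :
    0 < (((B.sign * D : ℤ) : ℝ)) + ∑ i, ((-(B.sign * b i) : ℤ) : ℝ) * α i := by
  have e1 : (((B.sign * D : ℤ) : ℝ)) + ∑ i, ((-(B.sign * b i) : ℤ) : ℝ) * α i = ((B.sign * B : ℤ) : ℝ) * γ := by
    push_cast
    have e2 : ∑ i, -((B.sign : ℝ) * (b i : ℝ)) * α i = -((B.sign : ℝ) * ∑ i, b i * α i) := by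
      rw [mul_sum, ← sum_neg_distrib]
      exact sum_congr rfl fun i _ => by ring
    rw [e2, hrel]
    ring
  rw [e1, sign_abs]
  have : (0 : ℝ) < B.natAbs := by exact_mod_cast Int.natAbs_pos.mpr hB
  positivity

lemma expo_lam : Pool.Agent.TH823.MRS.ExpoSmall (fun n => if n = 0 then 0 else lam n) := by
  intro ε' hε' A hA
  obtain ⟨H₀, X₀, hX⟩ := fok'_lam.expo ε' hε' A hA
  refine ⟨H₀, X₀, fun X hX1 H hH1 hH2 T hT1 hT2 hT3 α => ?_⟩
  refine le_trans (le_of_eq ?_) (hX X hX1 H hH1 hH2 T hT1 hT2 hT3 α)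
  congr 1
  refine sum_congr rfl fun n hn => ?_
  have h1 := (mem_Icc.1 hn).1
  dsimp only
  rw [if_neg (by omega)]
  rfl

/-- a piece with a constant term -/
theorem piece_ne (α : Fin s → ℝ) (hα : Ind α) (hα0 : ∀ i, 0 < α i) (b : Fin s → ℤ) (B : ℤ) (hB : B ≠ 0) (D : ℕ)
    (γ : ℝ) (hγ : 0 < γ) (hrel : (D : ℝ) = ∑ i, b i * α i + B * γ) (v : ℤ) (hv : v ≠ 0) (W : Wt s)
    (ε : ℝ) (hε : 0 < ε) :
    ∃ X₀ : ℕ, ∀ X : ℕ, X₀ ≤ X → ∑ N ∈ Icc 1 X, (1 / (N : ℝ)) * ‖(1 / (N : ℂ)) * ∑ n ∈ Icc 1 N,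
        W.w (fr α 0 n) * Tp α b B D v n‖ ≤ ε * Real.log X := by
  classical
  obtain ⟨X₀, hX₀⟩ := evw_gen (k := s + 1) α 0 hα W (1, 0) 0
    (Fin.cons ((B.sign * D : ℤ), fun i => -(B.sign * b i)) (fun i => (0, Pi.single i 1)))
    (Fin.cons (-(B.sign * v)) (fun _ => 0)) (by simp) (fun j => by
      refine Fin.cases ?_ (fun i => ?_) j
      · rw [Fin.cons_zero]
        exact rate_pos α b B hB D γ hγ hrel
      · rw [Fin.cons_succ]
        dsimp only
        rw [single_sumR]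
        simpa using hα0 i) D v 0 (fun j => by
      refine Fin.cases ?_ (fun i => ?_) j
      · rw [Fin.cons_zero, Fin.cons_zero]
        unfold lin
        simp
        ring
      · rw [Fin.cons_succ, Fin.cons_succ]
        unfold lin
        simp) (by
      unfold lin
      simpa using hv) (B.natAbs + 1) (fun n => if n = 0 then 0 else lam n) (fun n => by
      split_ifs
      · left; rfl
      · right
        exact neg_one_pow_eq_or ℂ _) (by simp) (fun p n hp hn hpn => by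
      rw [if_neg (mul_ne_zero hp.ne_zero (by omega : n ≠ 0)), if_neg (by omega : ¬ n = 0), lam_pn hp hpn]
      ring) expo_lam ε hε
  refine ⟨X₀, fun X hX => ?_⟩
  have h1 := hX₀ X hX (Fin.cons (gB B.natAbs) (fun _ => lam)) (fun _ _ => -1) (fun j n => by
      refine Fin.cases ?_ (fun i => ?_) j
      · rw [Fin.cons_zero]
        exact gB_norm _ _
      · rw [Fin.cons_succ]
        exact (lam_norm n).le) (fun j p _ _ => by simp) (fun j p n hp hpB hpn => by
      refine Fin.cases ?_ (fun i => ?_) j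
      · rw [Fin.cons_zero]
        exact gB_pn (Int.natAbs_pos.mpr hB) hp hpB hpn
      · rw [Fin.cons_succ]
        exact lam_pn hp hpn)
  refine le_trans (le_of_eq (sum_congr rfl fun N _ => ?_)) h1
  congr 3
  refine sum_congr rfl fun n hn => ?_
  have hn1 := (mem_Icc.1 hn).1
  congr 1
  unfold Tp
  have e1 : fv α 0 (1, 0) 0 n = n := by
    unfold fv lin
    simp
  rw [e1, Int.toNat_natCast, if_neg (by omega : ¬ n = 0)]
  congr 1
  rw [Fin.prod_univ_succ, Fin.cons_zero, Fin.cons_zero, Fin.cons_zero, mul_comm]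
  congr 1
  · congr 2
    unfold Fv fv lin Uz
    simp only [Pi.zero_apply, add_zero]
    push_cast
    simp only [neg_mul, sum_neg_distrib]
    rw [mul_sub, mul_sub, mul_sum]
    have e2 : ∑ i, B.sign * (b i * ⌊α i * (n : ℝ)⌋) = ∑ i, B.sign * b i * ⌊α i * (n : ℝ)⌋ :=
      sum_congr rfl fun i _ => by ring
    rw [e2]
    ring
  · refine prod_congr rfl fun i _ => ?_
    rw [Fin.cons_succ, Fin.cons_succ, Fin.cons_succ]
    congr 2
    unfold fv lin Uz
    rw [single_sum]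
    simp

/-- the piece without a constant term -/
theorem piece_zero (α : Fin s → ℝ) (hα : Ind α) (hα0 : ∀ i, 0 < α i) (b : Fin s → ℤ) (B : ℤ) (hB : B ≠ 0) (D : ℕ)
    (γ : ℝ) (hγ : 0 < γ) (hrel : (D : ℝ) = ∑ i, b i * α i + B * γ) (hs : Odd s) (W : Wt s)
    (ε : ℝ) (hε : 0 < ε) :
    ∃ X₀ : ℕ, ∀ X : ℕ, X₀ ≤ X → ∑ N ∈ Icc 1 X, (1 / (N : ℝ)) * ‖(1 / (N : ℂ)) * ∑ n ∈ Icc 1 N,
        W.w (fr α 0 n) * Tp α b B D 0 n‖ ≤ ε * Real.log X := by
  classical
  haveI : NeZero (1 : ℕ) := ⟨one_ne_zero⟩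
  have hSep : Sep (fun _ => (-1 : ℂ)) 2 := by
    refine sep_of 1 (fun _ => (-1 : ℂ)) (fun _ => (-1 : ℂ)) 0 (fun _ _ _ => rfl) 1 1 1 isUnit_one isUnit_one isUnit_one 2 ?_
    norm_num
  obtain ⟨X₀, hX₀⟩ := oww_gen (k := s + 2) α 0 hα W
    (Fin.cons (1, 0) (Fin.cons ((B.sign * D : ℤ), fun i => -(B.sign * b i)) (fun i => (0, Pi.single i 1))))
    (fun j => by
      refine Fin.cases ?_ (fun j => Fin.cases ?_ (fun i => ?_) j) j
      · rw [Fin.cons_zero]
        simp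
      · rw [Fin.cons_succ, Fin.cons_zero]
        exact rate_pos α b B hB D γ hγ hrel
      · rw [Fin.cons_succ, Fin.cons_succ]
        dsimp only
        rw [single_sumR]
        simpa using hα0 i) (fun _ => -1) 2 (by norm_num) hSep (B.natAbs + 1) ε hε
  refine ⟨X₀, fun X hX => ?_⟩
  have h1 := hX₀ X hX (Fin.cons lam (Fin.cons (gB B.natAbs) (fun _ => lam))) (fun _ _ => -1) (fun j n => by
      refine Fin.cases ?_ (fun j => Fin.cases ?_ (fun i => ?_) j) j
      · rw [Fin.cons_zero]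
        exact (lam_norm n).le
      · rw [Fin.cons_succ, Fin.cons_zero]
        exact gB_norm _ _
      · rw [Fin.cons_succ, Fin.cons_succ]
        exact (lam_norm n).le) (fun j p _ _ => by simp) (fun p _ _ => by
      rw [prod_const, card_univ, Fintype.card_fin]
      exact (hs.add_even (by norm_num)).neg_one_pow) (fun j p n hp hpB hpn => by
      refine Fin.cases ?_ (fun j => Fin.cases ?_ (fun i => ?_) j) j
      · rw [Fin.cons_zero]
        exact lam_pn hp hpn
      · rw [Fin.cons_succ, Fin.cons_zero]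
        exact gB_pn (Int.natAbs_pos.mpr hB) hp hpB hpn
      · rw [Fin.cons_succ, Fin.cons_succ]
        exact lam_pn hp hpn)
  refine le_trans (le_of_eq (sum_congr rfl fun N _ => ?_)) h1
  congr 3
  refine sum_congr rfl fun n hn => ?_
  congr 1
  unfold Tp
  rw [Fin.prod_univ_succ, Fin.prod_univ_succ]
  simp only [Fin.cons_zero, Fin.cons_succ]
  congr 1
  · congr 1
    unfold lin
    simp
  · rw [mul_comm]
    congr 1
    · congr 2
      unfold Fv lin Uz
      simp only [Pi.zero_apply, add_zero]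
      push_cast
      simp only [neg_mul, sum_neg_distrib]
      rw [mul_sub, mul_sub, mul_sum]
      have e2 : ∑ i, B.sign * (b i * ⌊α i * (n : ℝ)⌋) = ∑ i, B.sign * b i * ⌊α i * (n : ℝ)⌋ :=
        sum_congr rfl fun i _ => by ring
      rw [e2]
      ring
    · refine prod_congr rfl fun i _ => ?_
      congr 2
      unfold lin Uz
      rw [single_sum]
      simp

end Pool.Agent.Q270.EY
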