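import Pool.Agent.Q270.EY.Box

/-!
Project EY (helper270): the dilation identity for the averaged functions, with weights.
-/

set_option autoImplicit false

namespace Pool.Agent.Q270.EY

open Finset Filter Topology Pool.Agent.Q270.EA Pool.Agent.Q270.EB Pool.Agent.Q270.EC Pool.Agent.Q119.EA
open Pool.Agent.Q270.EV Pool.Agent.Q270.EW
open Pool.Agent.Q270.EH (card_gap card_near cnt cnt_eq cnt_mono cnt_ex nz sparse)

variable {s k : ℕ}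

lemma TTW_one (G : DatO s k) (W : Wt s) (g : Fin k → ℕ → ℂ) (N : ℕ) :
    TTW G W g 1 N = AvN N (phiW (GZ G G.z) W one g) := by
  unfold TTW
  rw [Rs_one, sum_singleton]
  have h1 : phiW (GZ G (zq G 1 0)) (Wq W 1 0) one g = phiW (GZ G G.z) W one g := by
    funext n
    unfold phiW Wq
    rw [zq_one]
    dsimp only
    congr 2
    funext i
    simp
  rw [h1]
  simp

/-- the dilation identity for the averaged functions -/
lemma dilTW (G : DatO s k) (W : Wt s) (q : ℕ) (hq : 1 ≤ q) : ∃ C₂ : ℝ, 0 ≤ C₂ ∧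
    ∀ (τ₁ : ℝ), 0 ≤ τ₁ → ∀ (p : ℕ), p.Prime →
    (∀ i, ∀ M : ℕ, cnt M (fun m : ℕ => nz (G.α i * m + G.β i) (2 / p)) ≤ τ₁ * M + 1) →
    ∀ (g gt : Fin k → ℕ → ℂ), (∀ j n, ‖g j n‖ ≤ 1) → (∀ j n, ‖gt j n‖ ≤ 1) → ∀ (τ : ℝ), (∀ j n, ‖gt j n - g j n‖ ≤ τ) →
    ∀ (c : ℂ) (cj : Fin k → ℂ), (∀ j, ‖cj j‖ ≤ 1) → ∏ j, cj j = c → (∀ j n, ¬ p ∣ n → g j (p * n) = cj j * g j n) →
    ∀ (N : ℕ), 1 ≤ N →
    ‖c * TTW G W g q (N / p) - (1 / (N : ℂ)) * ∑ n ∈ Icc 1 N, ((if p ∣ n then (p : ℂ) else 0) *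
          ThW G W gt q p (fun i => un (GZ G 0) n i % p) n)‖ ≤
      2 * C₂ / p + 2 * s * τ₁ + (k * τ + W.L * (s * (2 / p))) + (2 * C₂ + 2 * s + 1) * p / N := by
  classical
  choose C hC0 hC using fun ρ => excV (GZ G (zq G q ρ))
  obtain ⟨C₂, hC₂⟩ : ∃ C₂, C₂ = ∑ ρ ∈ Rs s q, C ρ := ⟨_, rfl⟩
  have hCle : ∀ ρ ∈ Rs s q, C ρ ≤ C₂ := fun ρ hρ => by
    rw [hC₂]
    exact single_le_sum (f := C) (fun _ _ => hC0 _) hρ
  have hC₂0 : 0 ≤ C₂ := by rw [hC₂]; exact sum_nonneg fun _ _ => hC0 _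
  refine ⟨C₂, hC₂0, ?_⟩
  intro τ₁ hτ₁ p hp hsp g gt hg1 hgt1 τ hτ c cj hcj hc hgm N hN
  obtain ⟨B, hB⟩ : ∃ B : ℝ, B = 2 * C₂ / p + 2 * s * τ₁ + (k * τ + W.L * (s * (2 / p))) + (2 * C₂ + 2 * s + 1) * p / N :=
    ⟨_, rfl⟩
  have hN0 : (0 : ℝ) < N := by exact_mod_cast hN
  have hp0 : (0 : ℝ) < p := by exact_mod_cast hp.pos
  have hz : ∀ ρ ∈ Rs s q, ‖c * AvN (N / p) (phiW (GZ G (zq G q ρ)) (Wq W q ρ) one g) - (1 / (N : ℂ)) *
      ∑ n ∈ Icc 1 N, ((if p ∣ n then (p : ℂ) else 0) *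
        psiW (GZ G (zq G q ρ)) (Wq W q ρ) one gt p (fun i => un (GZ G 0) n i % p) n)‖ ≤ B := by
    intro ρ hρ
    have h1 := dilC (GZ G (zq G q ρ)) (Wq W q ρ) (C ρ) (hC0 ρ) (hC ρ) τ₁ hτ₁ p hp hsp one norm_one' g gt hg1 hgt1 τ hτ
      1 cj (by simp) hcj (fun n _ => by unfold one; ring) hgm N hN
    rw [one_mul, hc] at h1
    refine h1.trans ?_
    rw [hB]
    have := hCle ρ hρ
    have hL : (Wq W q ρ).L = W.L := rfl
    rw [hL]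
    gcongr
  have e1 : c * TTW G W g q (N / p) - (1 / (N : ℂ)) * ∑ n ∈ Icc 1 N, ((if p ∣ n then (p : ℂ) else 0) *
          ThW G W gt q p (fun i => un (GZ G 0) n i % p) n) =
      (∑ ρ ∈ Rs s q, (c * AvN (N / p) (phiW (GZ G (zq G q ρ)) (Wq W q ρ) one g) - (1 / (N : ℂ)) *
      ∑ n ∈ Icc 1 N, ((if p ∣ n then (p : ℂ) else 0) *
        psiW (GZ G (zq G q ρ)) (Wq W q ρ) one gt p (fun i => un (GZ G 0) n i % p) n))) / (q : ℂ) ^ s := by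
    unfold TTW ThW
    rw [sum_sub_distrib, sub_div, ← mul_sum, ← mul_sum, sum_comm, mul_div_assoc]
    congr 1
    rw [mul_div_assoc, sum_div]
    congr 1
    refine sum_congr rfl fun n _ => ?_
    rw [← mul_sum, mul_div_assoc]
  rw [e1, ← hB]
  have hq0 : (0 : ℝ) < (q : ℝ) ^ s := by
    have : (0 : ℝ) < q := by exact_mod_cast hq
    positivity
  rw [norm_div, norm_pow, Complex.norm_natCast, div_le_iff₀ hq0]
  refine (norm_sum_le _ _).trans ((sum_le_sum hz).trans ?_)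
  rw [sum_const, card_Rs, nsmul_eq_mul]
  push_cast
  rw [mul_comm]

end Pool.Agent.Q270.EY
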