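import Pool.Agent.Q270.EY.Pre

/-!
Project EY (helper270): the main argument, for sequences, with weights.
Adapted from `Pool/Agent/Q270/EW/Seq.lean`.
-/

set_option autoImplicit false

namespace Pool.Agent.Q270.EY

open Finset Filter Topology Pool.Agent.Q270.EA Pool.Agent.Q270.EB Pool.Agent.Q270.EC Pool.Agent.Q119.EA
open Pool.Agent.Q270.EV Pool.Agent.Q270.EW
open Pool.Agent.Q270.EH (EX_tendsto' cnt cnt_eq cnt_mono nz sparse)

variable {s k : ℕ}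

/-- the sequence form of the theorem -/
theorem owseqW (G : DatO s k) (W : Wt s) (c : ℕ → ℂ) (κ₀ : ℝ) (hκ₀ : 0 < κ₀) (hSep : Sep c κ₀) (P₀ : ℕ)
    (X : ℕ → ℕ) (hX : Tendsto X atTop atTop)
    (g : ℕ → Fin k → ℕ → ℂ) (hg1 : ∀ i j n, ‖g i j n‖ ≤ 1)
    (cj : ℕ → Fin k → ℕ → ℂ) (hcj : ∀ i j (p : ℕ), p.Prime → P₀ ≤ p → ‖cj i j p‖ ≤ 1)
    (hgc : ∀ i (p : ℕ), p.Prime → P₀ ≤ p → ∏ j, cj i j p = c p)
    (hgm : ∀ i j (p n : ℕ), p.Prime → P₀ ≤ p → ¬ p ∣ n → g i j (p * n) = cj i j p * g i j n)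
    (ε : ℝ) (hε : 0 < ε) :
    ¬ ∀ i, ε ≤ EX (X i) (fun N _ => ‖AvN N (phiW (GZ G G.z) W one (g i))‖) := by
  classical
  intro hcon
  obtain ⟨M, hS, hν, hdil, hlow, hlim⟩ := Pool.Agent.Q239.EA.t_SY3 X hX
  obtain ⟨E, hE1, hE2⟩ : ∃ E : Dil M (ℕ × ℕ), (∀ ω, E.lab ω = (ω.1, ω.2.1)) ∧
      ∀ p l, E.dl p l = (l.1, l.2 / p) :=
    ⟨{ lab := fun ω => (ω.1, ω.2.1)
       dl := fun p l => (l.1, l.2 / p)
       D := fun p ω => (ω.1, ω.2.1 / p, ω.2.2 / p)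
       lab_S := fun ω => by rw [hS]
       lab_D := fun p ω => rfl
       ν_D := fun p ω => by rw [hν, hν]
       dil := fun p hp φ hφ => by
         rw [hdil p hp φ hφ]
         congr 1
         funext ω
         rw [hν] }, fun _ => rfl, fun _ _ => rfl⟩
  -- means that vanish
  have hzero : ∀ (φ : ℕ × ℕ × ℕ → ℝ) (C : ℝ), 0 ≤ C → (∀ ω, |φ ω| ≤ C) →
      (∀ δ : ℝ, 0 < δ → ∃ N₀ : ℕ, ∀ i N : ℕ, 1 ≤ N → N₀ ≤ N →
        |(1 / (N : ℝ)) * ∑ n ∈ Icc 1 N, φ (i, N, n)| ≤ δ) → M.m φ = 0 := by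
    intro φ C hC hφ h
    exact hlim φ ⟨C, hφ⟩ 0 (EX_tendsto' X hX (fun i N n => φ (i, N, n)) C hC
      (fun i N n => hφ _) h)
  have hSit : ∀ (l : ℕ) (ω : ℕ × ℕ × ℕ), M.S^[l] ω = (ω.1, ω.2.1, ω.2.2 + l) := by
    intro l
    induction l with
    | zero => intro ω; rfl
    | succ l ih => intro ω; rw [Function.iterate_succ_apply', ih, hS]; rfl
  -- averaging over the position
  have hlabz : ∀ (F : ℕ × ℕ × ℕ → ℂ) (C : ℝ), 0 ≤ C → (∀ ω, ‖F ω‖ ≤ C) →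
      mc M F = mc M (fun ω => (1 / (ω.2.1 : ℂ)) * ∑ n ∈ Icc 1 ω.2.1, F (ω.1, ω.2.1, n)) := by
    intro F C hC hF
    obtain ⟨Fb, hFb⟩ : ∃ Fb : ℕ × ℕ × ℕ → ℂ, Fb = fun ω => (1 / (ω.2.1 : ℂ)) * ∑ n ∈ Icc 1 ω.2.1, F (ω.1, ω.2.1, n) :=
      ⟨_, rfl⟩
    have hFbC : ∀ ω, ‖Fb ω‖ ≤ C := by
      intro ω
      rw [hFb]
      dsimp only
      rw [norm_mul, norm_div, norm_one, Complex.norm_natCast]
      rcases Nat.eq_zero_or_pos ω.2.1 with h0 | h0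
      · rw [h0]
        simpa using hC
      · have hN0 : (0 : ℝ) < ω.2.1 := by exact_mod_cast h0
        rw [div_mul_eq_mul_div, one_mul, div_le_iff₀ hN0]
        refine (norm_sum_le _ _).trans ((sum_le_sum fun n _ => hF _).trans ?_)
        rw [sum_const, Nat.card_Icc, Nat.add_sub_cancel, nsmul_eq_mul, mul_comm]
    have hFbN : ∀ i N n, Fb (i, N, n) = (1 / (N : ℂ)) * ∑ n ∈ Icc 1 N, F (i, N, n) := fun i N n => by rw [hFb]
    have hz : ∀ (π : ℂ → ℝ), (∀ z, |π z| ≤ ‖z‖) → (∀ (r : ℝ) z, π ((r : ℂ) * z) = r * π z) →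
        (∀ (t : Finset ℕ) (f : ℕ → ℂ), π (∑ n ∈ t, f n) = ∑ n ∈ t, π (f n)) → (∀ z w, π (z - w) = π z - π w) →
        M.m (fun ω => π (F ω - Fb ω)) = 0 := by
      intro π h1 h2 h3 h4
      refine hzero _ (2 * C) (by positivity) (fun ω => ?_) ?_
      · refine (h1 _).trans ((norm_sub_le _ _).trans ?_)
        linarith [hF ω, hFbC ω]
      · intro δ hδ
        refine ⟨1, fun i N hN _ => ?_⟩
        have hN0 : (0 : ℝ) < N := by exact_mod_cast hN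
        have hNc : (N : ℂ) ≠ 0 := by exact_mod_cast (by omega : N ≠ 0)
        have e1 : (1 / (N : ℝ)) * ∑ n ∈ Icc 1 N, π (F (i, N, n) - Fb (i, N, n)) =
            π (((1 / (N : ℝ) : ℝ) : ℂ) * ∑ n ∈ Icc 1 N, (F (i, N, n) - Fb (i, N, n))) := by
          rw [h2, h3]
        have e2 : ((1 / (N : ℝ) : ℝ) : ℂ) * ∑ n ∈ Icc 1 N, (F (i, N, n) - Fb (i, N, n)) = 0 := by
          rw [sum_sub_distrib]
          have e3 : ∑ n ∈ Icc 1 N, Fb (i, N, n) = ∑ n ∈ Icc 1 N, F (i, N, n) := by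
            simp only [hFbN]
            rw [sum_const, Nat.card_Icc, Nat.add_sub_cancel, nsmul_eq_mul]
            field_simp
          rw [e3, sub_self, mul_zero]
        rw [e1, e2]
        have : π 0 = 0 := by
          have := h1 0
          rw [norm_zero] at this
          exact abs_eq_zero.1 (le_antisymm this (abs_nonneg _))
        rw [this, abs_zero]
        exact hδ.le
    have hbF : BC F := ⟨C, hF⟩
    have hbFb : BC Fb := ⟨C, hFbC⟩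
    have e1 : mc M F - mc M Fb = 0 := by
      rw [← mc_sub M hbF hbFb]
      refine Complex.ext ?_ ?_
      · exact hz Complex.re Complex.abs_re_le_norm (fun r z => Complex.re_ofReal_mul r z)
          (fun t f => Complex.re_sum t f) (fun z w => Complex.sub_re z w)
      · exact hz Complex.im Complex.abs_im_le_norm (fun r z => Complex.im_ofReal_mul r z)
          (fun t f => Complex.im_sum t f) (fun z w => Complex.sub_im z w)
    rw [sub_eq_zero] at e1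
    rw [e1, hFb]
  -- the functions
  have hc1 : ∀ i (p : ℕ), p.Prime → P₀ ≤ p → ‖c p‖ ≤ 1 := fun i p hp hP => by
    rw [← hgc i p hp hP, norm_prod]
    exact prod_le_one (fun _ _ => norm_nonneg _) fun j _ => hcj _ _ _ hp hP
  obtain ⟨S, hSd⟩ : ∃ S : ℕ × ℕ → ℂ, S = fun l => AvN l.2 (phiW (GZ G G.z) W one (g l.1)) := ⟨_, rfl⟩
  have hS1 : ∀ l, ‖S l‖ ≤ 1 := fun l => by
    rw [hSd]; exact norm_AvN_le (fun n => norm_phiW _ _ _ _ norm_one' (hg1 _) n) _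
  obtain ⟨Mh, hMh⟩ : ∃ Mh : ℝ, Mh = M.m (fun ω => ‖S (E.lab ω)‖) := ⟨_, rfl⟩
  have hMhε : ε ≤ Mh := by
    rw [hMh]
    refine hlow (fun ω => ‖S (E.lab ω)‖) ⟨1, fun ω => by
      rw [abs_of_nonneg (norm_nonneg _)]; exact hS1 _⟩ ε (fun i => ?_)
    have := hcon i
    simp only [hE1, hSd]
    exact this
  -- the parameters
  obtain ⟨B, hB0, hB⟩ : ∃ B : ℝ, 0 ≤ B ∧ ∀ i, G.β i + |(G.z i : ℝ)| ≤ B :=
    ⟨∑ i, (G.β i + |(G.z i : ℝ)|), sum_nonneg fun i _ => add_nonneg (G.β0 i) (abs_nonneg _),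
      fun i => single_le_sum (f := fun i => G.β i + |(G.z i : ℝ)|) (fun i _ => add_nonneg (G.β0 i) (abs_nonneg _)) (mem_univ i)⟩
  obtain ⟨θ, hθ⟩ : ∃ θ : ℝ, θ = κ₀ * ε / 16 := ⟨_, rfl⟩
  have hθ0 : 0 < θ := by rw [hθ]; positivity
  have hWL0 := W.L0
  obtain ⟨Cw, hCw⟩ : ∃ Cw : ℝ, Cw = 12 + 3 * W.L := ⟨_, rfl⟩
  have hCw12 : 12 ≤ Cw := by rw [hCw]; linarith
  have hCw0 : 0 < Cw := by linarith
  obtain ⟨δ, hδ⟩ : ∃ δ : ℝ, δ = min (θ / (2 * Cw * (s + 1) * (B + 1))) (1 / (4 * (B + 1))) := ⟨_, rfl⟩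
  have hδ0 : 0 < δ := by rw [hδ]; exact lt_min (by positivity) (by positivity)
  have hδ1 : δ * (2 * Cw * (s + 1) * (B + 1)) ≤ θ := by
    rw [← le_div_iff₀ (by positivity), hδ]; exact min_le_left _ _
  have hδ2 : δ * (4 * (B + 1)) ≤ 1 := by
    rw [← le_div_iff₀ (by positivity), hδ]; exact min_le_right _ _
  obtain ⟨ρ, hρ0, J₁, hJ₁⟩ := hSep δ hδ0
  obtain ⟨η, hη⟩ : ∃ η : ℝ, η = ρ * θ / 2 := ⟨_, rfl⟩
  have hη0 : 0 < η := by rw [hη]; positivity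
  -- rounding
  obtain ⟨τ, hτ⟩ : ∃ τ : ℝ, τ = η / (8 * (k + 1)) := ⟨_, rfl⟩
  have hτ0 : 0 < τ := by rw [hτ]; positivity
  have hkτ : k * τ ≤ η / 8 := by
    rw [hτ]
    have h1 : (k : ℝ) * (η / (8 * (k + 1))) = (k / (k + 1)) * (η / 8) := by field_simp
    rw [h1]
    refine mul_le_of_le_one_left (by positivity) ?_
    rw [div_le_one (by positivity)]
    linarith
  obtain ⟨R, iR, enc, dec, hR⟩ := t_RND τ hτ0
  obtain ⟨u, hu⟩ : ∃ u : ℕ → Fin k → ℕ → R, u = fun i j n => enc (g i j n) := ⟨_, rfl⟩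
  obtain ⟨gt, hgt⟩ : ∃ gt : ℕ → Fin k → ℕ → ℂ, gt = fun i j n => dec (u i j n) := ⟨_, rfl⟩
  have hgt1 : ∀ i j n, ‖gt i j n‖ ≤ 1 := fun i j n => by
    rw [hgt, hu]; exact (hR _ (hg1 i j n)).1
  have hgtτ : ∀ i j n, ‖gt i j n - g i j n‖ ≤ τ := fun i j n => by
    rw [hgt, hu]; exact (hR _ (hg1 i j n)).2
  obtain ⟨A1b, hA1b⟩ : ∃ A1b : ℕ → ℕ → ℕ × ℕ → ℂ, A1b = fun (q p : ℕ) (l : ℕ × ℕ) => (1 / (l.2 : ℂ)) * ∑ n ∈ Icc 1 l.2,
    ((if p ∣ n then (p : ℂ) else 0) * ThW G W (gt l.1) q p (fun i => un (GZ G 0) n i % p) n) := ⟨_, rfl⟩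
  obtain ⟨Vt, hVt⟩ : ∃ Vt : ℕ → ℕ → ℕ × ℕ → ℂ, Vt = fun q p l => VVW G W (gt l.1) q p l.2 := ⟨_, rfl⟩
  obtain ⟨κ, hκ⟩ : ∃ κ : ℕ → ℕ → ℕ × ℕ → ℂ, κ = fun q p l => ph (A1b q p l - Vt q p l) := ⟨_, rfl⟩
  have hκ1 : ∀ q p l, ‖κ q p l‖ ≤ 1 := fun q p l => by
    rw [hκ]; exact norm_ph _
  obtain ⟨Θ, hΘ⟩ : ∃ Θ : ℕ → ℕ → (Fin s → ℕ) → (ℕ × ℕ × ℕ) → ℂ, Θ = fun q p r ω => ThW G W (gt ω.1) q p r ω.2.2 :=
    ⟨_, rfl⟩
  have hΘ1 : ∀ q, 1 ≤ q → ∀ p r ω, ‖Θ q p r ω‖ ≤ 1 := fun q hq p r ω => by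
    rw [hΘ]; exact norm_ThW G W _ (hgt1 _) q hq p r _
  obtain ⟨Uω, hUω⟩ : ∃ Uω : (ℕ × ℕ × ℕ) → Fin s → ℕ, Uω = fun ω => un (GZ G 0) ω.2.2 := ⟨_, rfl⟩
  have hA1B : ∀ q, 1 ≤ q → ∀ p l, ‖A1b q p l‖ ≤ p := by
    intro q hq p l
    rw [hA1b]
    dsimp only
    rw [norm_mul, norm_div, norm_one, Complex.norm_natCast]
    rcases Nat.eq_zero_or_pos l.2 with h0 | h0
    · rw [h0]
      simp
    · have hN0 : (0 : ℝ) < l.2 := by exact_mod_cast h0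
      rw [div_mul_eq_mul_div, one_mul, div_le_iff₀ hN0]
      refine (norm_sum_le _ _).trans ((sum_le_sum fun n _ => ?_ : _ ≤ ∑ n ∈ Icc 1 l.2, (p : ℝ)).trans ?_)
      · rw [norm_mul]
        have h2 : ‖(if p ∣ n then (p : ℂ) else 0)‖ ≤ p := by
          split_ifs <;> simp
        calc _ ≤ (p : ℝ) * 1 := mul_le_mul h2 (norm_ThW G W _ (hgt1 _) q hq p _ _) (norm_nonneg _) (by positivity)
          _ = p := mul_one _
      · rw [sum_const, Nat.card_Icc, Nat.add_sub_cancel, nsmul_eq_mul, mul_comm]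
  have hVtB : ∀ q, 1 ≤ q → ∀ p, 1 ≤ p → ∀ l, ‖Vt q p l‖ ≤ 1 := by
    intro q hq p hp l
    rw [hVt]
    exact norm_VVW G W _ (hgt1 _) q p _ hq hp
  -- independence
  have hIND : IndL M Uω E.lab := by
    intro Q r r' hQ hr hr' φ hφ
    have hNZ : NeZero Q := ⟨by omega⟩
    have hQ0 : (0 : ℝ) < Q := by exact_mod_cast hQ
    have hQs : (0 : ℝ) < (Q : ℝ) ^ (s + 1) := by positivity
    obtain ⟨Y, hY⟩ : ∃ Y : (ℕ × ℕ × ℕ) → ℝ, Y = fun ω => φ (E.lab ω) := ⟨_, rfl⟩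
    have hY1 : ∀ ω, |Y ω| ≤ 1 := fun ω => by rw [hY]; exact hφ _
    have hYb : Bd Y := ⟨1, hY1⟩
    have hb1 : Bd (fun ω => if M.ν ω % Q = r ∧ (fun i => Uω ω i % Q) = r' then Y ω else 0) := ⟨1, fun ω => by
      dsimp only
      split_ifs
      · exact hY1 ω
      · simp⟩
    have h1 : M.m (fun ω => (if M.ν ω % Q = r ∧ (fun i => Uω ω i % Q) = r' then Y ω else 0) -
        (1 / (Q : ℝ) ^ (s + 1)) * Y ω) = 0 := by
      refine hzero _ 2 (by norm_num) (fun ω => ?_) ?_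
      · refine (abs_sub _ _).trans ?_
        have h2 : |(if M.ν ω % Q = r ∧ (fun i => Uω ω i % Q) = r' then Y ω else 0)| ≤ 1 := by
          split_ifs
          · exact hY1 ω
          · simp
        have h3 : |(1 / (Q : ℝ) ^ (s + 1)) * Y ω| ≤ 1 := by
          rw [abs_mul, abs_of_pos (by positivity)]
          have : (1 : ℝ) / (Q : ℝ) ^ (s + 1) ≤ 1 := by
            rw [div_le_one hQs]
            exact one_le_pow₀ (by exact_mod_cast hQ)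
          exact mul_le_one₀ this (abs_nonneg _) (hY1 ω)
        linarith
      · intro δ hδ
        obtain ⟨N₀, hN₀⟩ := res_unif G.α G.β G.ind Q ((r : ZMod Q), fun i => (r' i : ZMod Q)) δ hδ
        refine ⟨N₀, fun i N hN hNN => ?_⟩
        have hN0 : (0 : ℝ) < N := by exact_mod_cast hN
        have h2 := hN₀ N hNN
        obtain ⟨y, hy⟩ : ∃ y : ℝ, y = φ (i, N) := ⟨_, rfl⟩
        have hy1 : |y| ≤ 1 := by rw [hy]; exact hφ _
        have hYy : ∀ n, Y (i, N, n) = y := fun n => by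
          rw [hY, hy]
          dsimp only
          rw [hE1]
        have hiff : ∀ n : ℕ, (M.ν (i, N, n) % Q = r ∧ (fun i' => Uω (i, N, n) i' % Q) = r') ↔
            (((n : ZMod Q), fun i => ((Uz G.α G.β n i : ℤ) : ZMod Q)) : ZMod Q × (Fin s → ZMod Q)) =
              ((r : ZMod Q), fun i => (r' i : ZMod Q)) := by
          intro n
          have e0 : ∀ (x y : ℕ), y < Q → (x % Q = y ↔ (x : ZMod Q) = (y : ZMod Q)) := by
            intro x y hy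
            rw [ZMod.natCast_eq_natCast_iff']
            rw [Nat.mod_eq_of_lt hy]
          have e1 : M.ν (i, N, n) = n := by rw [hν]
          rw [e1, Prod.ext_iff, hUω]
          dsimp only
          refine and_congr (e0 n r hr) ?_
          rw [funext_iff, funext_iff]
          refine forall_congr' fun i' => ?_
          have e2 : Uz G.α G.β n i' = ((un (GZ G 0) n i' : ℕ) : ℤ) := (un_cast (GZ G 0) n i').symm
          rw [e0 _ _ (hr' i'), e2]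
          norm_cast
        have h3 : ∀ n, (if M.ν (i, N, n) % Q = r ∧ (fun i' => Uω (i, N, n) i' % Q) = r' then Y (i, N, n) else 0) -
            (1 / (Q : ℝ) ^ (s + 1)) * Y (i, N, n) =
            y * ((if (((n : ZMod Q), fun i => ((Uz G.α G.β n i : ℤ) : ZMod Q)) : ZMod Q × (Fin s → ZMod Q)) =
              ((r : ZMod Q), fun i => (r' i : ZMod Q)) then (1 : ℝ) else 0) - 1 / (Q : ℝ) ^ (s + 1)) := by
          intro n
          rw [hYy]
          by_cases h4 : (((n : ZMod Q), fun i => ((Uz G.α G.β n i : ℤ) : ZMod Q)) : ZMod Q × (Fin s → ZMod Q)) =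
              ((r : ZMod Q), fun i => (r' i : ZMod Q))
          · rw [if_pos ((hiff n).2 h4), if_pos h4]
            ring
          · rw [if_neg fun h5 => h4 ((hiff n).1 h5), if_neg h4]
            ring
        simp only [h3]
        rw [← mul_sum, sum_sub_distrib, ← sum_filter, sum_const, sum_const, nsmul_eq_mul, nsmul_eq_mul,
          Nat.card_Icc, Nat.add_sub_cancel, mul_one, cnt_eq, ← mul_assoc, mul_comm (1 / (N : ℝ)) y, mul_assoc,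
          abs_mul, abs_mul]
        have e5 : |1 / (N : ℝ)| = 1 / N := abs_of_pos (by positivity)
        rw [e5]
        have e6 : (N : ℝ) * (1 / (Q : ℝ) ^ (s + 1)) = N / (Q : ℝ) ^ (s + 1) := by ring
        rw [e6]
        calc |y| * (1 / (N : ℝ) * |_|) ≤ 1 * (1 / (N : ℝ) * (δ * N)) := by gcongr
          _ = δ := by field_simp
    rw [M.sub hb1 (hYb.smul _), M.smul _ _ hYb, sub_eq_zero, hY] at h1
    exact h1
  -- the two means and the labels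
  have hconv : ∀ q : ℕ, 1 ≤ q → ∀ p : ℕ, 1 ≤ p →
      mc M (fun ω => (if p ∣ M.ν ω then (p : ℂ) else 0) * (κ q p (E.lab ω) * Θ q p (fun i => Uω ω i % p) ω)) -
        mc M (fun ω => κ q p (E.lab ω) * ((∑ r ∈ Rs s p, Θ q p r ω) / (p : ℂ) ^ s)) =
      ((M.m (fun ω => ‖A1b q p (E.lab ω) - Vt q p (E.lab ω)‖) : ℝ) : ℂ) := by
    intro q hq p hp
    have h1 : mc M (fun ω => (if p ∣ M.ν ω then (p : ℂ) else 0) * (κ q p (E.lab ω) * Θ q p (fun i => Uω ω i % p) ω)) =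
        mc M (fun ω => κ q p (E.lab ω) * A1b q p (E.lab ω)) := by
      rw [hlabz _ p (by positivity) (fun ω => ?_)]
      · congr 1
        funext ω
        rw [hE1, hA1b]
        dsimp only
        rw [← mul_assoc, mul_comm (κ q p (ω.1, ω.2.1)), mul_assoc, mul_sum (a := κ q p (ω.1, ω.2.1))]
        congr 1
        refine sum_congr rfl fun n _ => ?_
        rw [hE1, hν, hΘ, hUω]
        dsimp only
        ring
      · have h1 : ‖κ q p (E.lab ω) * Θ q p (fun i => Uω ω i % p) ω‖ ≤ 1 := by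
          rw [norm_mul]
          exact mul_le_one₀ (hκ1 _ _ _) (norm_nonneg _) (hΘ1 _ hq _ _ _)
        have h2 : ‖(if p ∣ M.ν ω then (p : ℂ) else 0)‖ ≤ p := by
          split_ifs <;> simp
        rw [norm_mul]
        calc _ ≤ (p : ℝ) * 1 := mul_le_mul h2 h1 (norm_nonneg _) (by positivity)
          _ = p := mul_one _
    have h2 : mc M (fun ω => κ q p (E.lab ω) * ((∑ r ∈ Rs s p, Θ q p r ω) / (p : ℂ) ^ s)) =
        mc M (fun ω => κ q p (E.lab ω) * Vt q p (E.lab ω)) := by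
      rw [hlabz _ 1 (by norm_num) (fun ω => ?_)]
      · congr 1
        funext ω
        rw [hE1, hVt]
        dsimp only
        unfold VVW
        rw [← mul_assoc, mul_comm (κ q p (ω.1, ω.2.1)), mul_assoc, mul_sum (a := κ q p (ω.1, ω.2.1))]
        congr 1
        refine sum_congr rfl fun n _ => ?_
        rw [hE1, hΘ]
        dsimp only
        rw [avg_ThW G W _ q p hp hq]
      · rw [norm_mul]
        exact mul_le_one₀ (hκ1 _ _ _) (norm_nonneg _) (norm_avR p hp _ 1 fun r => hΘ1 _ hq _ _ _)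
    rw [h1, h2, ← mc_sub M ⟨p, fun ω => by
      rw [norm_mul]
      calc _ ≤ (1 : ℝ) * p := mul_le_mul (hκ1 _ _ _) (hA1B q hq p _) (norm_nonneg _) (by norm_num)
        _ = p := one_mul _⟩ ⟨1, fun ω => by
      rw [norm_mul]
      exact mul_le_one₀ (hκ1 _ _ _) (norm_nonneg _) (hVtB q hq p hp _)⟩]
    have h3 : (fun ω => κ q p (E.lab ω) * A1b q p (E.lab ω) - κ q p (E.lab ω) * Vt q p (E.lab ω)) =
        fun ω => ((‖A1b q p (E.lab ω) - Vt q p (E.lab ω)‖ : ℝ) : ℂ) := by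
      funext ω
      rw [← mul_sub, hκ]
      dsimp only
      rw [ph_mul]
    rw [h3, mc_ofReal]
  have hsum : ∀ q : ℕ, 1 ≤ q → ∀ j : ℕ,
      ‖(∑ p ∈ PD j, mc M (fun ω => (if p ∣ M.ν ω then (p : ℂ) else 0) *
          (κ q p (E.lab ω) * Θ q p (fun i => Uω ω i % p) ω))) -
        ∑ p ∈ PD j, mc M (fun ω => κ q p (E.lab ω) * ((∑ r ∈ Rs s p, Θ q p r ω) / (p : ℂ) ^ s))‖ ≤
        η * (PD j).card →
      ∑ p ∈ PD j, M.m (fun ω => ‖A1b q p (E.lab ω) - Vt q p (E.lab ω)‖) ≤ η * (PD j).card := by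
    intro q hq j h
    refine le_trans ?_ h
    rw [← sum_sub_distrib, sum_congr rfl fun p hp => hconv q hq p (mem_filter.1 hp).2.one_le,
      ← Complex.ofReal_sum, Complex.norm_real]
    exact le_abs_self _
  -- the relation at good scales
  have hRel : ∀ q : ℕ, 1 ≤ q → ∀ t J : ℕ, ∃ j, J ≤ j ∧
      ∑ p ∈ PD j, M.m (fun ω => ‖A1b q p (E.lab ω) - Vt q p (E.lab ω)‖) ≤ η * (PD j).card ∧
      ∑ p ∈ PD (j + t), M.m (fun ω => ‖A1b 1 p (E.lab ω) - Vt 1 p (E.lab ω)‖) ≤ η * (PD (j + t)).card := by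
    intro q hq t J
    obtain ⟨L, hL1, hL2, hL3⟩ := exL (GZ G 0)
    obtain ⟨Z, hZ⟩ : ∃ Z : Finset (Fin s → ℤ), Z = insert 0 ((Rs s q).image (zq G q) ∪ (Rs s 1).image (zq G 1)) := ⟨_, rfl⟩
    have hZ0 : (0 : Fin s → ℤ) ∈ Z := by rw [hZ]; exact mem_insert_self _ _
    have hZq : ∀ ρ ∈ Rs s q, zq G q ρ ∈ Z := fun ρ hρ => by
      rw [hZ]
      exact mem_insert_of_mem (mem_union_left _ (mem_image_of_mem _ hρ))
    have hZ1 : ∀ ρ ∈ Rs s 1, zq G 1 ρ ∈ Z := fun ρ hρ => by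
      rw [hZ]
      exact mem_insert_of_mem (mem_union_right _ (mem_image_of_mem _ hρ))
    choose zz hzz using fun z : (Fin s → ℤ) => det5 (GZ G z)
    obtain ⟨y0, hy0⟩ : ∃ y0, y0 = ∑ z ∈ Z, zz z := ⟨_, rfl⟩
    have hzy : ∀ z ∈ Z, zz z ≤ y0 := fun z hz => by
      rw [hy0]
      exact single_le_sum (f := zz) (fun _ _ => Nat.zero_le _) hz
    obtain ⟨ltr, hltr⟩ : ∃ ltr : (ℕ × ℕ × ℕ) → (Z → ((Fin L → Bool × Bool) × ((Fin k → Fin L → R) × (Fin s → Fin (L + 1))))),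
      ltr = fun (ω : ℕ × ℕ × ℕ) (z : Z) => ltrV (GZ G (z : Fin s → ℤ)) one L (u ω.1) ω.2.2 := ⟨_, rfl⟩
    obtain ⟨R1, iR1, enc1, dec1, hR1⟩ := t_RND (η / 12) (by positivity)
    obtain ⟨de, hde⟩ : ∃ de : R1 → ℂ, de = fun r => if ‖dec1 r‖ ≤ 1 then dec1 r else 0 := ⟨_, rfl⟩
    have hde1 : ∀ r, ‖de r‖ ≤ 1 := fun r => by
      rw [hde]
      dsimp only
      split_ifs with h1
      · exact h1
      · simp
    have hde2 : ∀ z : ℂ, ‖z‖ ≤ 1 → ‖de (enc1 z) - z‖ ≤ η / 12 := fun z hz => by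
      rw [hde]
      dsimp only
      rw [if_pos (hR1 z hz).1]
      exact (hR1 z hz).2
    have hInc : Inc M ltr Uω (fun a i => (((a ⟨0, hZ0⟩).2.2 i : Fin (L + 1)) : ℕ)) := by
      intro ω i
      rw [hUω, hS, hltr]
      dsimp only
      unfold ltrV
      dsimp only
      obtain ⟨g1, g2⟩ := un_inc (GZ G 0) L hL1 ω.2.2 i
      rw [Fin.val_ofNat, Nat.mod_eq_of_lt (Nat.lt_succ_of_le g2)]
      omega
    have hdet : ∀ q' : ℕ, (∀ ρ ∈ Rs s q', zq G q' ρ ∈ Z) → ∀ j : ℕ, ∀ p ∈ PD j, ∀ l < 2 ^ j, ∀ ω ω' : ℕ × ℕ × ℕ,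
        win M ltr ((2 * y0 + 1) * 2 ^ j) ω = win M ltr ((2 * y0 + 1) * 2 ^ j) ω' → ∀ r ∈ Rs s p,
        Θ q' p r (M.S^[y0 * 2 ^ j + l] ω) = Θ q' p r (M.S^[y0 * 2 ^ j + l] ω') := by
      intro q' hq' j p hp l hl ω ω' hwin r hr
      rw [hΘ, hgt]
      dsimp only
      rw [hSit, hSit]
      dsimp only
      unfold ThW
      congr 1
      refine sum_congr rfl fun ρ hρ => ?_
      unfold psiW
      refine congrArg₂ (· * ·) rfl ?_
      refine hzz (zq G q' ρ) y0 (hzy _ (hq' ρ hρ)) one (fun n => Or.inr (Or.inl rfl)) dec L hL1 hL2 hL3 j p hp l hl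
        ω.2.2 ω'.2.2 (u ω.1) (u ω'.1) (fun x hx => ?_) r hr
      have h1 := congrFun hwin ⟨x, hx⟩
      unfold win at h1
      dsimp only at h1
      rw [hSit, hSit] at h1
      have h2 := congrFun h1 ⟨zq G q' ρ, hq' ρ hρ⟩
      rw [hltr] at h2
      exact h2
    obtain ⟨Jg, hJg⟩ := good5 η hη0
    obtain ⟨j, hjJ, hG1, hG2⟩ := dec5 Pool.Agent.Q119.EA.t_ENTP Pool.Agent.Q148.EA.t_CHEB M ltr Uω _ hInc
      (fun ω p => (enc1 (κ q p (E.lab ω)), enc1 (κ 1 p (E.lab ω)))) (fun ω => by funext p; rw [E.lab_S])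
      (fun n j => ind_maxL M Uω E.lab (fun l p => (enc1 (κ q p l), enc1 (κ 1 p l))) hIND n j)
      (2 * y0 + 1) ((η / 100) ^ 2) (max J Jg) t (by omega) (by positivity)
    refine ⟨j, (le_max_left _ _).trans hjJ, ?_, ?_⟩
    · refine hsum q hq j (hJg j ((le_max_right _ _).trans hjJ) M ltr Uω _ hInc (fun ω p => κ q p (E.lab ω)) (fun r : R1 × R1 => de r.1)
        (fun r => hde1 _) _ (fun ω p => ?_) (Θ q) (fun ω p => hκ1 _ _ _) (fun ω => by funext p; rw [E.lab_S])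
        (hΘ1 q hq) (2 * y0 + 1) y0 (by omega) (hdet q hZq j) hG1)
      exact hde2 _ (hκ1 _ _ _)
    · refine hsum 1 le_rfl (j + t) (hJg (j + t) (by have := (le_max_right J Jg).trans hjJ; omega) M ltr Uω _ hInc
        (fun ω p => κ 1 p (E.lab ω)) (fun r : R1 × R1 => de r.2)
        (fun r => hde1 _) _ (fun ω p => ?_) (Θ 1) (fun ω p => hκ1 _ _ _) (fun ω => by funext p; rw [E.lab_S])
        (hΘ1 1 le_rfl) (2 * y0 + 1) y0 (by omega) (hdet 1 hZ1 (j + t)) hG2)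
      exact hde2 _ (hκ1 _ _ _)
  -- the values at the labels
  obtain ⟨T, hT⟩ : ∃ T : ℕ → ℕ × ℕ → ℂ, T = fun (q : ℕ) (l : ℕ × ℕ) => TTW G W (g l.1) q l.2 := ⟨_, rfl⟩
  obtain ⟨V, hV⟩ : ∃ V : ℕ → ℕ → ℕ × ℕ → ℂ, V = fun (q p : ℕ) (l : ℕ × ℕ) => VVW G W (g l.1) q p l.2 := ⟨_, rfl⟩
  have hTB : ∀ q, 1 ≤ q → ∀ l, ‖T q l‖ ≤ 1 := fun q hq l => by
    rw [hT]; exact norm_TTW G W _ (hg1 _) q hq _
  have hVB : ∀ q, 1 ≤ q → ∀ p, 1 ≤ p → ∀ l, ‖V q p l‖ ≤ 1 := fun q hq p hp l => by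
    rw [hV]; exact norm_VVW G W _ (hg1 _) q p _ hq hp
  have hinvN : ∀ K : ℝ, 0 ≤ K → M.m (fun ω => K / (ω.2.1 : ℝ)) = 0 ∧ Bd (fun ω : ℕ × ℕ × ℕ => K / (ω.2.1 : ℝ)) := by
    intro K hK
    have hWb : ∀ ω : ℕ × ℕ × ℕ, |K / (ω.2.1 : ℝ)| ≤ K := fun ω => by
      rw [abs_of_nonneg (by positivity)]
      rcases Nat.eq_zero_or_pos ω.2.1 with h0 | h0
      · rw [h0]
        simpa using hK
      · exact div_le_self hK (by exact_mod_cast h0)
    refine ⟨hzero _ K hK hWb ?_, ⟨K, hWb⟩⟩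
    intro δ hδ
    obtain ⟨i₂, hi₂⟩ := exists_nat_ge (K / δ)
    refine ⟨i₂, fun i N hN hNN => ?_⟩
    have hN0 : (0 : ℝ) < N := by exact_mod_cast hN
    simp only [sum_const, Nat.card_Icc, Nat.add_sub_cancel, nsmul_eq_mul]
    have h6 : (1 / (N : ℝ)) * (N * (K / N)) = K / N := by field_simp
    rw [h6, abs_of_nonneg (by positivity), div_le_iff₀ hN0]
    have h8 : (i₂ : ℝ) ≤ N := by exact_mod_cast hNN
    rw [div_le_iff₀ hδ] at hi₂
    nlinarith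
  obtain ⟨D, hD⟩ : ∃ D : ℕ → ℕ → ℝ, D = fun q p => M.m (fun ω => ‖c p * T q (E.dl p (E.lab ω)) - V q p (E.lab ω)‖) :=
    ⟨_, rfl⟩
  have hDB : ∀ q, 1 ≤ q → ∀ p, 1 ≤ p → ∀ l, ‖c p * T q (E.dl p l) - V q p l‖ ≤ ‖c p‖ + 1 := fun q hq p hp l => by
    refine (norm_sub_le _ _).trans (add_le_add ?_ (hVB q hq p hp l))
    rw [norm_mul]
    exact mul_le_of_le_one_right (norm_nonneg _) (hTB q hq _)
  have hDb : ∀ q, 1 ≤ q → ∀ p, 1 ≤ p → Bd (fun ω => ‖c p * T q (E.dl p (E.lab ω)) - V q p (E.lab ω)‖) :=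
    fun q hq p hp => ⟨‖c p‖ + 1, fun ω => by rw [abs_of_nonneg (norm_nonneg _)]; exact hDB q hq p hp _⟩
  have hD0 : ∀ q, 1 ≤ q → ∀ p, 0 ≤ if 1 ≤ p then D q p else 0 := fun q hq p => by
    split_ifs with h
    · rw [hD]
      exact M.nonneg _ (hDb q hq p h) fun ω => norm_nonneg _
    · exact le_rfl
  have hAVb : ∀ q, 1 ≤ q → ∀ p, 1 ≤ p → Bd (fun ω => ‖A1b q p (E.lab ω) - Vt q p (E.lab ω)‖) :=
    fun q hq p hp => ⟨p + 1, fun ω => by
      rw [abs_of_nonneg (norm_nonneg _)]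
      exact (norm_sub_le _ _).trans (add_le_add (hA1B q hq p _) (hVtB q hq p hp _))⟩
  -- large primes
  have hlarge : ∀ K : ℝ, ∃ J : ℕ, ∀ j : ℕ, J ≤ j → ∀ p ∈ PD j, K ≤ (p : ℝ) := by
    intro K
    obtain ⟨J, hJ⟩ : ∃ J : ℕ, K < 2 ^ J := pow_unbounded_of_one_lt _ (by norm_num)
    refine ⟨J + 1, fun j hj p hp => ?_⟩
    have h11 := (mem_Ioc.1 (mem_filter.1 hp).1).1
    have h12 : 2 ^ J ≤ 2 ^ (j - 1) := Nat.pow_le_pow_right (by norm_num) (by omega)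
    have h13 : (2 : ℝ) ^ J ≤ p := by exact_mod_cast h12.trans h11.le
    linarith
  have hDs : ∀ q, 1 ≤ q → ∃ J : ℕ, ∀ j : ℕ, J ≤ j →
      ∑ p ∈ PD j, M.m (fun ω => ‖A1b q p (E.lab ω) - Vt q p (E.lab ω)‖) ≤ η * (PD j).card →
      ∑ p ∈ PD j, (if 1 ≤ p then D q p else 0) ≤ 2 * η * (PD j).card := by
    intro q hq
    obtain ⟨C₂, hC₂0, hdT⟩ := dilTW G W q hq
    obtain ⟨τ₁, hτ₁⟩ : ∃ τ₁ : ℝ, τ₁ = η / (16 * (s + 1)) := ⟨_, rfl⟩
    have hτ₁0 : 0 < τ₁ := by rw [hτ₁]; positivity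
    have hsτ₁ : 2 * s * τ₁ ≤ η / 8 := by
      rw [hτ₁]
      have h1 : 2 * (s : ℝ) * (η / (16 * (s + 1))) = (s / (s + 1)) * (η / 8) := by field_simp; ring
      rw [h1]
      refine mul_le_of_le_one_left (by positivity) ?_
      rw [div_le_one (by positivity)]
      linarith
    obtain ⟨η₀, hη₀, hη₀0⟩ : ∃ η₀ : ℝ, (∀ i, ∀ (c : ℝ) (N : ℕ), cnt N (fun m : ℕ => nz (G.α i * m + c) η₀) ≤ τ₁ * N + 1) ∧
        0 < η₀ := by
      have h1 : ∀ i, ∀ᶠ η in 𝓝[>] (0 : ℝ), ∀ (c : ℝ) (N : ℕ), cnt N (fun m : ℕ => nz (G.α i * m + c) η) ≤ τ₁ * N + 1 :=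
        fun i => sparse (G.α i) (G.ind.irr i) τ₁ hτ₁0
      exact ((eventually_all.2 h1).and self_mem_nhdsWithin).exists
    obtain ⟨J, hJ⟩ := hlarge (P₀ + 16 * C₂ / η + 2 / η₀ + 16 * (W.L * s) / η)
    refine ⟨J, fun j hj hrel => ?_⟩
    have hp3 : ∀ p ∈ PD j, (if 1 ≤ p then D q p else 0) ≤ M.m (fun ω => ‖A1b q p (E.lab ω) - Vt q p (E.lab ω)‖) + η := by
      intro p hp
      have hpp : p.Prime := (mem_filter.1 hp).2
      have hp1 : 1 ≤ p := hpp.one_le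
      have hp0 : (0 : ℝ) < p := by exact_mod_cast hp1
      have hpl := hJ j hj p hp
      have hq1 : (0 : ℝ) ≤ 16 * C₂ / η := by positivity
      have hq2 : (0 : ℝ) < 2 / η₀ := by positivity
      have hq3 : (0 : ℝ) ≤ P₀ := by positivity
      have hq4 : (0 : ℝ) ≤ 16 * (W.L * s) / η := by have := W.L0; positivity
      have hLp : W.L * (s * (2 / (p : ℝ))) ≤ η / 8 := by
        have h2 : 16 * (W.L * s) / η ≤ p := by linarith
        rw [div_le_iff₀ hη0] at h2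
        have h3 : W.L * (s * (2 / (p : ℝ))) = 2 * (W.L * s) / p := by ring
        rw [h3, div_le_iff₀ hp0]
        linarith
      have hPp : P₀ ≤ p := by
        have : (P₀ : ℝ) ≤ p := by linarith
        exact_mod_cast this
      have hkp : 2 * C₂ / (p : ℝ) ≤ η / 8 := by
        have h2 : 16 * C₂ / η ≤ p := by linarith
        rw [div_le_iff₀ hη0] at h2
        rw [div_le_iff₀ hp0]
        linarith
      have hpη : 2 / (p : ℝ) ≤ η₀ := by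
        have h2 : 2 / η₀ ≤ p := by linarith
        rw [div_le_iff₀ hη₀0] at h2
        rw [div_le_iff₀ hp0]
        linarith
      obtain ⟨K₂, hK₂⟩ : ∃ K₂ : ℝ, K₂ = (2 * C₂ + 2 * s + 1) * p := ⟨_, rfl⟩
      have hK₂0 : 0 ≤ K₂ := by rw [hK₂]; positivity
      obtain ⟨hW0, hWb⟩ := hinvN K₂ hK₂0
      have hpt : ∀ ω : ℕ × ℕ × ℕ, ‖c p * T q (E.dl p (E.lab ω)) - V q p (E.lab ω)‖ ≤
          (‖A1b q p (E.lab ω) - Vt q p (E.lab ω)‖ + η) + K₂ / (ω.2.1 : ℝ) := by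
        intro ω
        obtain ⟨i, N, n⟩ := ω
        rw [hE1, hE2, hT, hV, hA1b, hVt]
        dsimp only
        rcases Nat.eq_zero_or_pos N with h0 | h0
        · subst h0
          have e1 : TTW G W (g i) q (0 / p) = 0 := by
            unfold TTW
            rw [Nat.zero_div]
            simp only [AvN_zero, sum_const_zero, zero_div]
          have e2 : VVW G W (g i) q p 0 = 0 := by unfold VVW; simp
          rw [e1, e2]
          simp only [mul_zero, sub_zero, norm_zero]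
          positivity
        · have h1 := hdT τ₁ hτ₁0.le p hpp (fun i' M' => by
              refine le_trans (cnt_mono M' fun m hm => ?_) (hη₀ i' (G.β i') M')
              obtain ⟨z, hz⟩ := hm
              exact ⟨z, hz.trans hpη⟩) (g i) (gt i) (hg1 i) (hgt1 i) τ (hgtτ i) (c p) (fun j => cj i j p)
            (fun j => hcj i j p hpp hPp) (hgc i p hpp hPp)
            (fun j n => hgm i j p n hpp hPp) N h0
          have h2 := VVW_near G W (g i) (gt i) (hg1 i) (hgt1 i) τ (hgtτ i) hτ0.le q p N hq hp1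
          have e3 : ∀ (a b v w : ℂ), ‖a - w‖ ≤ ‖a - b‖ + ‖b - v‖ + ‖v - w‖ := fun a b v w => by
            have : a - w = (a - b) + (b - v) + (v - w) := by ring
            rw [this]
            exact norm_add₃_le
          refine (e3 _ ((1 / (N : ℂ)) * ∑ n ∈ Icc 1 N, ((if p ∣ n then (p : ℂ) else 0) *
              ThW G W (gt i) q p (fun i => un (GZ G 0) n i % p) n)) (VVW G W (gt i) q p N) _).trans ?_
          rw [← hK₂] at h1
          linarith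
      rw [if_pos hp1, hD]
      dsimp only
      refine (M.mono (hDb q hq p hp1) (((hAVb q hq p hp1).add (Bd.const η)).add hWb) hpt).trans ?_
      rw [M.add _ _ ((hAVb q hq p hp1).add (Bd.const η)) hWb, M.add _ _ (hAVb q hq p hp1) (Bd.const η), M.const, hW0, add_zero]
    refine (sum_le_sum hp3).trans ?_
    rw [sum_add_distrib, sum_const, nsmul_eq_mul]
    linarith
  have hBad : ∀ q, 1 ≤ q → ∀ j, ∑ p ∈ PD j, (if 1 ≤ p then D q p else 0) ≤ 2 * η * (PD j).card →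
      (((PD j).filter (fun p => θ < if 1 ≤ p then D q p else 0)).card : ℝ) ≤ ρ * (PD j).card := by
    intro q hq j h
    have h1 := markov (PD j) _ (hD0 q hq) θ (2 * η) hθ0 h
    have h2 : 2 * η = ρ * θ := by rw [hη]; ring
    rw [h2] at h1
    have h3 : ρ * θ * ((PD j).card : ℝ) = ρ * (PD j).card * θ := by ring
    rw [h3] at h1
    exact le_of_mul_le_mul_right h1 hθ0
  have hGoodp : ∀ q, 1 ≤ q → ∀ j, ∀ p ∈ PD j, p ∉ (PD j).filter (fun p => θ < if 1 ≤ p then D q p else 0) → D q p ≤ θ := by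
    intro q _ j p hp hn
    by_contra h
    push Not at h
    apply hn
    rw [mem_filter, if_pos (mem_filter.1 hp).2.one_le]
    exact ⟨hp, h⟩
  -- the first prime
  obtain ⟨Ja, hJa⟩ := hDs 1 le_rfl
  obtain ⟨Jb, hJb⟩ := hlarge (P₀ + 10 * Cw * s / θ + 20 + W.L * s / θ)
  obtain ⟨j₁, hj₁, hr1, -⟩ := hRel 1 le_rfl 0 (J₁ + Ja + Jb)
  obtain ⟨p₁, hp₁, hn₁, J₂, hJ₂⟩ := hJ₁ j₁ (by omega) _ (hBad 1 le_rfl j₁ (hJa j₁ (by omega) hr1))
  have hpp₁ : p₁.Prime := (mem_filter.1 hp₁).2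
  have hd₁ := hGoodp 1 le_rfl j₁ p₁ hp₁ hn₁
  have hlp₁ := hJb j₁ (by omega) p₁ hp₁
  have hp₁0 : (0 : ℝ) < p₁ := by exact_mod_cast hpp₁.pos
  have hs0 : (0 : ℝ) ≤ s := by positivity
  have hs1 : (0 : ℝ) ≤ 10 * Cw * s / θ := by positivity
  have hs2 : (0 : ℝ) ≤ W.L * s / θ := by positivity
  have hP0r : (0 : ℝ) ≤ P₀ := by positivity
  have hPp₁ : P₀ ≤ p₁ := by
    have : (P₀ : ℝ) ≤ p₁ := by linarith
    exact_mod_cast this
  -- the other primes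
  obtain ⟨Jc, hJc⟩ := hDs p₁ hpp₁.one_le
  obtain ⟨j, hj, hr2, hr3⟩ := hRel p₁ hpp₁.one_le j₁ (J₂ + Ja + Jb + Jc)
  obtain ⟨p₂, hp₂, hn₂, p₃, hp₃, hn₃, hnear, hsep⟩ := hJ₂ j (by omega) _ _
    (hBad p₁ hpp₁.one_le j (hJc j (by omega) hr2)) (hBad 1 le_rfl (j + j₁) (hJa (j + j₁) (by omega) hr3))
  have hpp₂ : p₂.Prime := (mem_filter.1 hp₂).2
  have hpp₃ : p₃.Prime := (mem_filter.1 hp₃).2
  have hd₂ := hGoodp p₁ hpp₁.one_le j p₂ hp₂ hn₂
  have hd₃ := hGoodp 1 le_rfl (j + j₁) p₃ hp₃ hn₃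
  have hlp₂ := hJb j (by omega) p₂ hp₂
  have hlp₃ := hJb (j + j₁) (by omega) p₃ hp₃
  have hPp₂ : P₀ ≤ p₂ := by
    have : (P₀ : ℝ) ≤ p₂ := by linarith
    exact_mod_cast this
  have hPp₃ : P₀ ≤ p₃ := by
    have : (P₀ : ℝ) ≤ p₃ := by linarith
    exact_mod_cast this
  obtain ⟨κc, hκc⟩ : ∃ κc : ℝ, κc = δ * (B + 1) + 5 / p₁ := ⟨_, rfl⟩
  have hκc2 : κc ≤ 1 / 2 := by
    rw [hκc]
    have h1 : 5 / (p₁ : ℝ) ≤ 1 / 4 := by
      rw [div_le_div_iff₀ hp₁0 (by norm_num)]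
      linarith
    linarith
  have hκcθ : 12 * s * κc + W.L * (s * (3 * κc)) ≤ θ := by
    have h0 : 12 * s * κc + W.L * (s * (3 * κc)) = Cw * s * κc := by rw [hCw]; ring
    rw [h0, hκc, mul_add]
    have h1 : Cw * (s : ℝ) * (5 / p₁) ≤ θ / 2 := by
      have h2 : 10 * Cw * s / θ ≤ (p₁ : ℝ) := by linarith
      rw [div_le_iff₀ hθ0] at h2
      have h3 : Cw * (s : ℝ) * (5 / p₁) = 5 * Cw * s / p₁ := by ring
      rw [h3, div_le_iff₀ hp₁0]
      linarith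
    have h2 : Cw * (s : ℝ) * (δ * (B + 1)) ≤ θ / 2 := by
      have h3 : δ * (2 * Cw * (s + 1) * (B + 1)) = 2 * (Cw * (s : ℝ) * (δ * (B + 1))) + 2 * Cw * (δ * (B + 1)) := by ring
      have h4 : 0 ≤ 2 * Cw * (δ * (B + 1)) := by positivity
      linarith
    linarith
  have h4δ : 4 * δ ≤ θ := by
    have h3 : δ * (2 * Cw * (s + 1) * (B + 1)) = 2 * Cw * δ + 2 * Cw * δ * (s * (B + 1) + B) := by ring
    have h4 : 0 ≤ 2 * Cw * δ * (s * (B + 1) + B) := by positivity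
    have h5 : 4 * δ ≤ 2 * Cw * δ := by gcongr; linarith
    linarith
  have hVT : ∀ p : ℕ, 1 ≤ p → W.L * s / θ ≤ (p : ℝ) → ∀ l, ‖V 1 p l - T p l‖ ≤ θ := by
    intro p hp hpL l
    rw [hV, hT]
    dsimp only
    refine (VTW_one G W (g l.1) (hg1 l.1) p l.2 hp).trans ?_
    have hp0 : (0 : ℝ) < p := by exact_mod_cast hp
    rw [div_le_iff₀ hθ0] at hpL
    have h3 : W.L * (s * (1 / (p : ℝ))) = W.L * s / p := by ring
    rw [h3, div_le_iff₀ hp0]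
    linarith
  obtain ⟨K₃, hK₃⟩ : ∃ K₃ : ℝ, K₃ = 4 * (p₂ * p₁ + p₃) := ⟨_, rfl⟩
  have hK₃0 : 0 ≤ K₃ := by rw [hK₃]; positivity
  obtain ⟨hW0, hWb⟩ := hinvN K₃ hK₃0
  have hfin : ∀ ω : ℕ × ℕ × ℕ, κ₀ * ‖S (E.dl p₁ (E.dl p₂ (E.lab ω)))‖ ≤
      (((‖c p₁ * T 1 (E.dl p₁ (E.dl p₂ (E.lab ω))) - V 1 p₁ (E.dl p₂ (E.lab ω))‖ +
        ‖c p₂ * T p₁ (E.dl p₂ (E.lab ω)) - V p₁ p₂ (E.lab ω)‖) +
        ‖c p₃ * T 1 (E.dl p₃ (E.lab ω)) - V 1 p₃ (E.lab ω)‖) + 4 * θ) + K₃ / (ω.2.1 : ℝ) := by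
    intro ω
    obtain ⟨i, N, n⟩ := ω
    have hTS : ∀ l, T 1 l = S l := fun l => by rw [hT, hSd]; exact TTW_one G W _ _
    rw [hTS, hTS]
    obtain ⟨l, hl⟩ : ∃ l : ℕ × ℕ, l = (i, N) := ⟨_, rfl⟩
    have hlab : E.lab (i, N, n) = l := by rw [hE1, hl]
    rw [hlab]
    -- the comparison of the boxes
    have hx4 : ‖V p₁ p₂ l - T p₃ l‖ ≤ θ := by
      rw [hV, hT, hl]
      dsimp only
      rcases Nat.eq_zero_or_pos N with h0 | h0
      · subst h0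
        have e1 : TTW G W (g i) p₃ 0 = 0 := by
          unfold TTW
          simp only [AvN_zero, sum_const_zero, zero_div]
        have e2 : VVW G W (g i) p₁ p₂ 0 = 0 := by unfold VVW; simp
        rw [e1, e2, sub_zero, norm_zero]
        exact hθ0.le
      · exact (VTW_cmp G W (g i) (hg1 i) B hB hB0 p₂ p₁ p₃ hpp₂.one_le hpp₁.one_le δ hnear κc hκc.ge hκc2 N h0).trans hκcθ
    have hx5 : ‖S (E.dl p₃ l) - S (E.dl p₁ (E.dl p₂ l))‖ ≤ θ + K₃ / N := by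
      rw [hE2, hE2, hE2, hSd, hl]
      dsimp only
      rw [Nat.div_div_eq_div_mul]
      have hφ1 := fun n => norm_phiW (GZ G G.z) W one (g i) norm_one' (hg1 i) n
      rcases Nat.eq_zero_or_pos N with h0 | h0
      · subst h0
        rw [Nat.zero_div, Nat.zero_div, sub_self, norm_zero]
        positivity
      · have hN0 : (0 : ℝ) < N := by exact_mod_cast h0
        have hnear' := abs_le.1 hnear
        rcases le_total p₃ (p₂ * p₁) with hle | hle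
        · have h1 := AvN_dil _ hφ1 p₃ (p₂ * p₁) N hpp₃.one_le hle δ (by push_cast; linarith) h0
          refine h1.trans ?_
          have h2 : 4 * (p₃ : ℝ) / N ≤ K₃ / N := by
            rw [hK₃]
            gcongr
            have : (0 : ℝ) ≤ p₂ * p₁ := by positivity
            linarith
          linarith
        · rw [norm_sub_rev]
          have h1 := AvN_dil _ hφ1 (p₂ * p₁) p₃ N (Nat.mul_pos hpp₂.pos hpp₁.pos) hle δ (by
            push_cast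
            have h3 : ((p₂ * p₁ : ℕ) : ℝ) ≤ p₃ := by exact_mod_cast hle
            push_cast at h3
            have h4 : δ * (p₂ * p₁) ≤ δ * p₃ := by gcongr
            linarith) h0
          refine h1.trans ?_
          have h2 : 4 * ((p₂ * p₁ : ℕ) : ℝ) / N ≤ K₃ / N := by
            rw [hK₃]
            push_cast
            gcongr
            have : (0 : ℝ) ≤ p₃ := by positivity
            linarith
          linarith
    have e1 : (c p₁ * c p₂ - c p₃) * S (E.dl p₁ (E.dl p₂ l)) =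
        c p₂ * (c p₁ * S (E.dl p₁ (E.dl p₂ l)) - V 1 p₁ (E.dl p₂ l)) +
        c p₂ * (V 1 p₁ (E.dl p₂ l) - T p₁ (E.dl p₂ l)) +
        (c p₂ * T p₁ (E.dl p₂ l) - V p₁ p₂ l) + (V p₁ p₂ l - T p₃ l) -
        (c p₃ * S (E.dl p₃ l) - V 1 p₃ l) - (V 1 p₃ l - T p₃ l) +
        c p₃ * (S (E.dl p₃ l) - S (E.dl p₁ (E.dl p₂ l))) := by ring
    have e2 : κ₀ * ‖S (E.dl p₁ (E.dl p₂ l))‖ ≤ ‖(c p₁ * c p₂ - c p₃) * S (E.dl p₁ (E.dl p₂ l))‖ := by
      rw [norm_mul]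
      exact mul_le_mul_of_nonneg_right hsep (norm_nonneg _)
    refine e2.trans ?_
    rw [e1]
    have tri : ∀ a b c d e f h : ℂ, ‖a + b + c + d - e - f + h‖ ≤ ‖a‖ + ‖b‖ + ‖c‖ + ‖d‖ + ‖e‖ + ‖f‖ + ‖h‖ := by
      intro a b c d e f h
      have t1 := norm_add_le (a + b + c + d - e - f) h
      have t2 := norm_sub_le (a + b + c + d - e) f
      have t3 := norm_sub_le (a + b + c + d) e
      have t4 := norm_add_le (a + b + c) d
      have t5 := norm_add_le (a + b) c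
      have t6 := norm_add_le a b
      linarith
    refine (tri _ _ _ _ _ _ _).trans ?_
    have a1 : ‖c p₃ * (S (E.dl p₃ l) - S (E.dl p₁ (E.dl p₂ l)))‖ ≤ θ + K₃ / N := by
      rw [norm_mul]
      exact (mul_le_of_le_one_left (norm_nonneg _) (hc1 i p₃ hpp₃ hPp₃)).trans hx5
    have a2 : ‖c p₂ * (c p₁ * S (E.dl p₁ (E.dl p₂ l)) - V 1 p₁ (E.dl p₂ l))‖ ≤
        ‖c p₁ * S (E.dl p₁ (E.dl p₂ l)) - V 1 p₁ (E.dl p₂ l)‖ := by
      rw [norm_mul]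
      exact mul_le_of_le_one_left (norm_nonneg _) (hc1 i p₂ hpp₂ hPp₂)
    have a3 : ‖c p₂ * (V 1 p₁ (E.dl p₂ l) - T p₁ (E.dl p₂ l))‖ ≤ θ := by
      rw [norm_mul]
      exact (mul_le_of_le_one_left (norm_nonneg _) (hc1 i p₂ hpp₂ hPp₂)).trans
        (hVT p₁ hpp₁.one_le (by linarith) _)
    have a4 := hVT p₃ hpp₃.one_le (by linarith) l
    dsimp only
    linarith
  -- the means
  have hSb : ∃ C, ∀ l : ℕ × ℕ, |‖S l‖| ≤ C := ⟨1, fun l => by rw [abs_of_nonneg (norm_nonneg _)]; exact hS1 l⟩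
  have hSp1b : ∃ C, ∀ l : ℕ × ℕ, |‖S (E.dl p₁ l)‖| ≤ C := ⟨1, fun l => by rw [abs_of_nonneg (norm_nonneg _)]; exact hS1 _⟩
  have m1 : M.m (fun ω => ‖S (E.dl p₁ (E.dl p₂ (E.lab ω)))‖) = Mh := by
    rw [dil_lab M E (h := fun l => ‖S (E.dl p₁ l)‖) hSp1b p₂ hpp₂.one_le,
      dil_lab M E (h := fun l => ‖S l‖) hSb p₁ hpp₁.one_le, hMh]
  have m2 : M.m (fun ω => ‖c p₁ * T 1 (E.dl p₁ (E.dl p₂ (E.lab ω))) - V 1 p₁ (E.dl p₂ (E.lab ω))‖) ≤ θ := by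
    rw [dil_lab M E (h := fun l => ‖c p₁ * T 1 (E.dl p₁ l) - V 1 p₁ l‖)
      ⟨_, fun l => by rw [abs_of_nonneg (norm_nonneg _)]; exact hDB 1 le_rfl p₁ hpp₁.one_le l⟩ p₂ hpp₂.one_le]
    rw [hD] at hd₁
    exact hd₁
  have b1 : Bd (fun ω => ‖S (E.dl p₁ (E.dl p₂ (E.lab ω)))‖) := ⟨1, fun ω => by
    rw [abs_of_nonneg (norm_nonneg _)]; exact hS1 _⟩
  have b2 : Bd (fun ω => ‖c p₁ * T 1 (E.dl p₁ (E.dl p₂ (E.lab ω))) - V 1 p₁ (E.dl p₂ (E.lab ω))‖) :=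
    ⟨_, fun ω => by rw [abs_of_nonneg (norm_nonneg _)]; exact hDB 1 le_rfl p₁ hpp₁.one_le _⟩
  have b3 := hDb p₁ hpp₁.one_le p₂ hpp₂.one_le
  have b4 := hDb 1 le_rfl p₃ hpp₃.one_le
  have m3 := M.mono (b1.smul κ₀) ((((b2.add b3).add b4).add (Bd.const (4 * θ))).add hWb) hfin
  rw [M.smul _ _ b1, m1, M.add _ _ (((b2.add b3).add b4).add (Bd.const (4 * θ))) hWb,
    M.add _ _ ((b2.add b3).add b4) (Bd.const (4 * θ)), M.add _ _ (b2.add b3) b4, M.add _ _ b2 b3, M.const, hW0] at m3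
  rw [hD] at hd₂ hd₃
  dsimp only at hd₂ hd₃
  have h9 : κ₀ * ε ≤ κ₀ * Mh := mul_le_mul_of_nonneg_left hMhε hκ₀.le
  have h10 : 16 * θ = κ₀ * ε := by rw [hθ]; ring
  have h11 : 0 < κ₀ * ε := by positivity
  linarith

end Pool.Agent.Q270.EY
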