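import Pool.Agent.Q270.EY.Fin

/-!
Project EY (helper270): the trapezoid weights, and the Liouville function.
-/

set_option autoImplicit false

namespace Pool.Agent.Q270.EY

open Finset Filter Topology Pool.Agent.Q270.EA Pool.Agent.Q270.EB Pool.Agent.Q270.EC Pool.Agent.Q119.EA
open Pool.Agent.Q270.EV Pool.Agent.Q270.EW

variable {s : ℕ}

/-- the Liouville function -/
noncomputable def lam (n : ℕ) : ℂ := (-1 : ℂ) ^ ArithmeticFunction.cardFactors n

lemma lam_norm (n : ℕ) : ‖lam n‖ = 1 := by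
  unfold lam
  rw [norm_pow, norm_neg, norm_one, one_pow]

lemma lam_mul {m n : ℕ} (hm : m ≠ 0) (hn : n ≠ 0) : lam (m * n) = lam m * lam n := by
  unfold lam
  rw [ArithmeticFunction.cardFactors_mul hm hn, pow_add]

lemma lam_sq (n : ℕ) : lam n * lam n = 1 := by
  unfold lam
  rcases neg_one_pow_eq_or ℂ (ArithmeticFunction.cardFactors n) with h | h <;> rw [h] <;> norm_num

lemma lam_pn {p n : ℕ} (hp : p.Prime) (hn : ¬ p ∣ n) : lam (p * n) = -1 * lam n := by
  have h0 : n ≠ 0 := by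
    rintro rfl
    exact hn (dvd_zero p)
  rw [lam_mul hp.ne_zero h0]
  congr 1
  unfold lam
  rw [ArithmeticFunction.cardFactors_apply_prime hp, pow_one]

/-- the Liouville function at the multiples of `B` -/
noncomputable def gB (B : ℕ) (m : ℕ) : ℂ := lam B * (if B ∣ m then lam m else 0)

lemma gB_norm (B m : ℕ) : ‖gB B m‖ ≤ 1 := by
  unfold gB
  rw [norm_mul, lam_norm, one_mul]
  split_ifs
  · exact (lam_norm m).le
  · simp

lemma gB_pn {B p n : ℕ} (hB : 1 ≤ B) (hp : p.Prime) (hpB : B + 1 ≤ p) (hn : ¬ p ∣ n) : gB B (p * n) = -1 * gB B n := by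
  have hc : Nat.Coprime B p := by
    rw [Nat.coprime_comm, Nat.Prime.coprime_iff_not_dvd hp]
    intro h
    have := Nat.le_of_dvd (by omega) h
    omega
  unfold gB
  by_cases h : B ∣ n
  · rw [if_pos h, if_pos (dvd_mul_of_dvd_right h p), lam_pn hp hn]
    ring
  · rw [if_neg h, if_neg (fun h2 => h (hc.dvd_of_dvd_mul_left h2))]
    ring

/-- the trapezoid -/
noncomputable def Phi (δ t : ℝ) : ℝ := max 0 (min 1 (min t (1 - t) / δ))

lemma Phi_mem (δ t : ℝ) : 0 ≤ Phi δ t ∧ Phi δ t ≤ 1 := by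
  unfold Phi
  exact ⟨le_max_left _ _, max_le zero_le_one (min_le_left _ _)⟩

lemma Phi_lip (δ : ℝ) (hδ : 0 < δ) (t t' : ℝ) : |Phi δ t - Phi δ t'| ≤ |t - t'| / δ := by
  unfold Phi
  refine (abs_max_sub_max_le_max _ _ _ _).trans ?_
  rw [sub_self, abs_zero]
  refine max_le (by positivity) ?_
  refine (abs_min_sub_min_le_max _ _ _ _).trans ?_
  rw [sub_self, abs_zero]
  refine max_le (by positivity) ?_
  rw [← sub_div, abs_div, abs_of_pos hδ]
  refine div_le_div_of_nonneg_right ?_ hδ.le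
  refine (abs_min_sub_min_le_max _ _ _ _).trans (max_le le_rfl ?_)
  rw [abs_sub_comm]
  apply le_of_eq
  congr 1
  ring

lemma Phi_eq (δ : ℝ) (hδ : 0 < δ) (t : ℝ) (h : ¬ ((0 ≤ t ∧ t < δ) ∨ (1 - δ < t ∧ t < 1))) :
    Phi δ t = if 0 ≤ t ∧ t < 1 then 1 else 0 := by
  push Not at h
  obtain ⟨h1, h2⟩ := h
  unfold Phi
  split_ifs with hc
  · have h3 := h1 hc.1
    have h4 : t ≤ 1 - δ := by
      by_contra h5
      push Not at h5
      have := h2 h5
      linarith [hc.2]
    have h5 : 1 ≤ min t (1 - t) / δ := by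
      rw [le_div_iff₀ hδ, one_mul]
      exact le_min h3 (by linarith)
    rw [min_eq_left h5, max_eq_right zero_le_one]
  · have h5 : min t (1 - t) / δ ≤ 0 := by
      refine div_nonpos_of_nonpos_of_nonneg ?_ hδ.le
      rcases lt_or_ge t 0 with h6 | h6
      · exact (min_le_left _ _).trans h6.le
      · have h7 : 1 ≤ t := by
          by_contra h8
          push Not at h8
          exact hc ⟨h6, h8⟩
        exact (min_le_right _ _).trans (by linarith)
    rw [max_eq_left]
    exact (min_le_right _ _).trans h5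

/-- the argument of the weights -/
noncomputable def tv (b : Fin s → ℤ) (B v : ℤ) (x : Fin s → ℝ) : ℝ := ((v : ℝ) - ∑ i, b i * x i) / B

/-- the trapezoid weights -/
noncomputable def Wv (b : Fin s → ℤ) (B v : ℤ) (δ : ℝ) (hδ : 0 < δ) : Wt s where
  w := fun x => ((Phi δ (tv b B v x) : ℝ) : ℂ)
  L := (∑ i, |(b i : ℝ)|) / |(B : ℝ)| / δ
  L0 := div_nonneg (div_nonneg (sum_nonneg fun _ _ => abs_nonneg _) (abs_nonneg _)) hδ.le
  le := fun x => by
    rw [Complex.norm_real, Real.norm_eq_abs, abs_of_nonneg (Phi_mem _ _).1]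
    exact (Phi_mem _ _).2
  lip := fun x y => by
    rw [← Complex.ofReal_sub, Complex.norm_real, Real.norm_eq_abs]
    refine (Phi_lip δ hδ _ _).trans ?_
    rw [div_mul_eq_mul_div]
    refine div_le_div_of_nonneg_right ?_ hδ.le
    unfold tv
    rw [← sub_div, abs_div, div_mul_eq_mul_div]
    refine div_le_div_of_nonneg_right ?_ (abs_nonneg _)
    have e1 : (v : ℝ) - ∑ i, (b i : ℝ) * x i - ((v : ℝ) - ∑ i, (b i : ℝ) * y i) = -∑ i, (b i : ℝ) * (x i - y i) := by
      simp only [mul_sub, sum_sub_distrib]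
      ring
    rw [e1, abs_neg, mul_sum]
    refine (abs_sum_le_sum_abs _ _).trans (sum_le_sum fun i _ => ?_)
    rw [abs_mul]
    exact mul_le_mul_of_nonneg_right (single_le_sum (f := fun i => |(b i : ℝ)|) (fun _ _ => abs_nonneg _) (mem_univ i))
      (abs_nonneg _)

end Pool.Agent.Q270.EY
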