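import Pool.Agent.Q270.EW.Fin

/-!
Project EY (helper270): Lipschitz weights of the fractional parts.
-/

set_option autoImplicit false

namespace Pool.Agent.Q270.EY

open Finset Filter Topology Pool.Agent.Q270.EA Pool.Agent.Q270.EB Pool.Agent.Q270.EC Pool.Agent.Q119.EA
open Pool.Agent.Q270.EV Pool.Agent.Q270.EW
open Pool.Agent.Q270.EH (card_gap card_near cnt cnt_eq cnt_mono cnt_ex nz sparse)

variable {s k : ℕ}

/-- Lipschitz weights -/
structure Wt (s : ℕ) where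
  w : (Fin s → ℝ) → ℂ
  L : ℝ
  L0 : 0 ≤ L
  le : ∀ x, ‖w x‖ ≤ 1
  lip : ∀ x y, ‖w x - w y‖ ≤ L * ∑ i, |x i - y i|

lemma Wt.near (W : Wt s) (x y : Fin s → ℝ) (b : ℝ) (h : ∀ i, |x i - y i| ≤ b) : ‖W.w x - W.w y‖ ≤ W.L * (s * b) := by
  refine (W.lip x y).trans (mul_le_mul_of_nonneg_left ?_ W.L0)
  refine (sum_le_sum fun i _ => h i).trans ?_
  rw [sum_const, card_univ, Fintype.card_fin, nsmul_eq_mul]

/-- the fractional parts -/
noncomputable def fr (α β : Fin s → ℝ) (n : ℤ) : Fin s → ℝ := fun i => α i * n + β i - Uz α β n i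

lemma fr_mem (α β : Fin s → ℝ) (n : ℤ) (i : Fin s) : 0 ≤ fr α β n i ∧ fr α β n i < 1 := by
  unfold fr Uz
  have f1 := Int.floor_le (α i * n + β i)
  have f2 := Int.lt_floor_add_one (α i * n + β i)
  constructor <;> linarith

/-- the digits of a residue vector -/
noncomputable def dgt (G : Dat s k) (p : ℕ) (r : Fin s → ℕ) : Fin s → ℕ := fun i => (r i + bn G p i) % p

/-- the weighted function on the main variable -/
noncomputable def phiW (G : Dat s k) (W : Wt s) (f : ℕ → ℂ) (g : Fin k → ℕ → ℂ) (n : ℕ) : ℂ :=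
  W.w (fr G.α G.β n) * phiV G f g n

/-- the weighted function on the dilated variable -/
noncomputable def psiW (G : Dat s k) (W : Wt s) (f : ℕ → ℂ) (g : Fin k → ℕ → ℂ) (p : ℕ) (r : Fin s → ℕ) (n : ℕ) : ℂ :=
  W.w (fun i => (dgt G p r i : ℝ) / p) * psiV G f g p r n

lemma norm_phiW (G : Dat s k) (W : Wt s) (f : ℕ → ℂ) (g : Fin k → ℕ → ℂ) (hf : ∀ n, ‖f n‖ ≤ 1)
    (hg : ∀ j n, ‖g j n‖ ≤ 1) (n : ℕ) : ‖phiW G W f g n‖ ≤ 1 := by
  unfold phiW
  rw [norm_mul]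
  exact mul_le_one₀ (W.le _) (norm_nonneg _) (norm_phiV G f g hf hg n)

lemma norm_psiW (G : Dat s k) (W : Wt s) (f : ℕ → ℂ) (g : Fin k → ℕ → ℂ) (hf : ∀ n, ‖f n‖ ≤ 1)
    (hg : ∀ j n, ‖g j n‖ ≤ 1) (p : ℕ) (r : Fin s → ℕ) (n : ℕ) : ‖psiW G W f g p r n‖ ≤ 1 := by
  unfold psiW
  rw [norm_mul]
  exact mul_le_one₀ (W.le _) (norm_nonneg _) (norm_psiV G f g hf hg p r n)

/-- the weight on a box -/
noncomputable def Wb (W : Wt s) (O : Fin s → ℤ) (q : ℕ) (X : Fin s → ℤ) : ℂ :=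
  W.w (fun i => ((O i - X i : ℤ) : ℝ) / q)

lemma norm_Wb (W : Wt s) (O : Fin s → ℤ) (q : ℕ) (X : Fin s → ℤ) : ‖Wb W O q X‖ ≤ 1 := W.le _

/-- the mean over the residues is a weighted mean over a box -/
lemma avg_psiW (G : Dat s k) (W : Wt s) (f : ℕ → ℂ) (g : Fin k → ℕ → ℂ) (p : ℕ) (hp : 1 ≤ p) (n : ℕ) :
    (∑ r ∈ Rs s p, psiW G W f g p r n) / (p : ℂ) ^ s =
      bav (fun X => Wb W (Uz G.α G.β n + bq G.β p) p X * Ff f g G.a0 G.h0 G.a G.h p n X) (Uz G.α G.β n + bq G.β p) p := by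
  unfold bav
  congr 1
  rw [sum_Bx]
  have h1 := sum_shift hp (fun i => bn G p i) (fun ρ => W.w (fun i => (ρ i : ℝ) / p) * Ff f g G.a0 G.h0 G.a G.h p n
    (fun i => ((un G n i + bn G p i : ℕ) : ℤ) - (ρ i : ℤ)))
  have h2 : ∀ r, psiW G W f g p r n = W.w (fun i => (((r i + bn G p i) % p : ℕ) : ℝ) / p) * Ff f g G.a0 G.h0 G.a G.h p n
    (fun i => ((un G n i + bn G p i : ℕ) : ℤ) - (((r i + bn G p i) % p : ℕ) : ℤ)) := fun r => rfl
  rw [sum_congr rfl fun r _ => h2 r, h1]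
  refine sum_congr rfl fun ρ _ => ?_
  congr 1
  · unfold Wb
    congr 1
    funext i
    congr 1
    push_cast
    ring
  · congr 1
    funext i
    push_cast
    rw [un_cast, bn_cast G p hp]
    rfl

/-- the digits at a multiple of `p` -/
lemma dig_dil (G : Dat s k) (p m : ℕ) (hp : 1 ≤ p) (hnz : ∀ i, ¬ nz (G.α i * m + G.β i) (2 / p)) (i : Fin s) :
    |(dgt G p (fun i => un G (p * m) i % p) i : ℝ) / p - fr G.α G.β m i| ≤ 2 / p := by
  have hp0 : (0 : ℝ) < p := by exact_mod_cast hp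
  unfold dgt
  obtain ⟨W, hW⟩ : ∃ W : ℕ, W = un G (p * m) i + bn G p i := ⟨_, rfl⟩
  rw [Nat.mod_add_mod, ← hW]
  obtain ⟨v, hv⟩ : ∃ v : ℝ, v = G.α i * m + G.β i := ⟨_, rfl⟩
  have hU : Uz G.α G.β m i = ⌊v⌋ := by
    rw [hv]
    unfold Uz
    push_cast
    rfl
  have hWr : (W : ℝ) = (⌊G.α i * ((p : ℝ) * m) + G.β i⌋ : ℝ) + (⌊((p : ℝ) - 1) * G.β i⌋ : ℝ) := by
    have e1 : ((W : ℕ) : ℤ) = Uz G.α G.β ((p * m : ℕ) : ℤ) i + bq G.β p i := by
      rw [hW]
      push_cast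
      rw [un_cast, bn_cast G p hp]
      push_cast
      rfl
    have e2 : (W : ℝ) = ((Uz G.α G.β ((p * m : ℕ) : ℤ) i + bq G.β p i : ℤ) : ℝ) := by exact_mod_cast e1
    rw [e2]
    unfold Uz bq
    push_cast
    rfl
  have f1 := Int.floor_le (G.α i * ((p : ℝ) * m) + G.β i)
  have f2 := Int.lt_floor_add_one (G.α i * ((p : ℝ) * m) + G.β i)
  have f3 := Int.floor_le (((p : ℝ) - 1) * G.β i)
  have f4 := Int.lt_floor_add_one (((p : ℝ) - 1) * G.β i)
  have hpv : (p : ℝ) * v = (G.α i * ((p : ℝ) * m) + G.β i) + ((p : ℝ) - 1) * G.β i := by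
    rw [hv]
    ring
  have hW1 : (W : ℝ) ≤ p * v := by rw [hWr, hpv]; linarith
  have hW2 : p * v < W + 2 := by rw [hWr, hpv]; linarith
  have hfr : (⌊v⌋ : ℝ) + 2 / p < v := by
    by_contra hc
    push Not at hc
    refine hnz i ⟨⌊v⌋, ?_⟩
    rw [← hv, abs_of_nonneg (by linarith [Int.floor_le v])]
    linarith
  have hv0 : 0 ≤ ⌊v⌋ := by
    rw [hv]
    refine Int.floor_nonneg.2 ?_
    have h1 := (G.α0 i).le
    have h2 := G.β0 i
    positivity
  obtain ⟨z, hz⟩ := Int.eq_ofNat_of_zero_le hv0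
  have hzr : (⌊v⌋ : ℝ) = z := by rw [hz]; simp
  rw [hzr] at hfr
  have hzlt : v < z + 1 := by rw [← hzr]; exact Int.lt_floor_add_one v
  have h3 : W / p = z := by
    rw [Nat.div_eq_iff (by omega)]
    have e1 : (z : ℝ) * p < W := by
      have h4 : ((z : ℝ) + 2 / p) * p < v * p := by gcongr
      have h5 : ((z : ℝ) + 2 / p) * p = z * p + 2 := by field_simp
      linarith
    have e2 : (W : ℝ) < (z + 1) * p := by
      have h4 : v * p < (z + 1) * p := by gcongr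
      linarith
    have e3 : z * p < W := by exact_mod_cast e1
    have e4 : W < (z + 1) * p := by exact_mod_cast e2
    constructor
    · omega
    · rw [add_mul, one_mul] at e4
      omega
  have h4 : ((W % p : ℕ) : ℝ) = W - p * z := by
    have := Nat.div_add_mod W p
    rw [h3] at this
    have h5 : ((p * z + W % p : ℕ) : ℝ) = W := by rw [this]
    push_cast at h5
    linarith
  have hfre : fr G.α G.β m i = v - z := by
    unfold fr
    rw [hU, hzr, hv]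
    push_cast
    rfl
  rw [h4, hfre]
  have h5 : ((W : ℝ) - p * z) / p - (v - z) = (W - p * v) / p := by field_simp; ring
  rw [h5, abs_div, abs_of_pos hp0]
  gcongr
  rw [abs_le]
  constructor <;> linarith

end Pool.Agent.Q270.EY
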